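import Pool.Agent.U592.KR.CaseA

/-!
# Classification, one finite end point and no finite end point
-/

set_option autoImplicit false

open MeasureTheory Polynomial Set Filter Topology

namespace Pool.Agent.U592.KR

variable {φ : Measure ℝ} {ρ τ ω δ : ℝ[X]} {R T v : ℝ → ℝ}

theorem Sys.degs (hs : Sys φ ρ τ ω δ R T v) {x₀ : ℝ} (hx0 : 0 < ρ.eval x₀) (hR : 0 < R x₀)
    (hnd : ρ.natDegree ≤ τ.natDegree) : τ.natDegree ≤ 2 := by
  have hc := hs.cpoly hx0 hR
  have h3 : τ.coeff 3 = 0 := deg_a hc (hnd.trans hs.dτ) hs.dτ hs.dω hs.dδ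
  by_contra hlt
  have h4 : τ.natDegree = 3 := le_antisymm hs.dτ (by omega)
  have h5 : τ.leadingCoeff = 0 := by rw [leadingCoeff, h4, h3]
  rw [leadingCoeff_eq_zero] at h5
  rw [h5] at h4
  simp at h4

theorem case_one (h : Bi φ ρ τ ω δ R) {a x₀ : ℝ} (hR : 0 < R x₀) (hax : a < x₀)
    (ha : ρ.eval a = 0) (hpa : ∀ x, a < x → 0 < ρ.eval x) : Concl φ := by
  obtain ⟨T, v, hs⟩ := h.s
  have fin := hs.fin
  have ha' := hs.mult hax (fun x hx => hpa x hx.1) ha hR
  have hx0 : 0 < ρ.eval x₀ := hpa x₀ hax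
  have hc := hs.cpoly hx0 hR
  have ta := root_of_cpoly hc ha ha'
  have hright : ¬ (τ.natDegree < ρ.natDegree ∨ 0 ≤ τ.leadingCoeff) := by
    intro hcon
    have := hs.right hpa hcon x₀ hax
    linarith
  simp only [not_or, not_lt, not_le] at hright
  obtain ⟨hnd, hlc⟩ := hright
  have hτ2 := hs.degs hx0 hR hnd
  obtain ⟨r, hr⟩ := factor_two hs.ρ0 (hnd.trans hτ2) ha ha'
  have hr0 : r ≠ 0 := by
    rintro rfl
    exact hs.ρ0 (by rw [hr]; simp)
  have hρe : ∀ x, ρ.eval x = r * (x - a) ^ 2 := fun x => by rw [hr]; simp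
  have hrpos : 0 < r := by
    rw [hρe] at hx0
    by_contra hlt
    have : (0 : ℝ) ≤ (x₀ - a) ^ 2 := by positivity
    have := mul_nonpos_of_nonpos_of_nonneg (not_lt.1 hlt) this
    linarith
  have hρ2 : ρ.natDegree = 2 := by
    rw [hr, natDegree_C_mul hr0, natDegree_pow, natDegree_X_sub_C]
  have hτ2' : τ.natDegree = 2 := le_antisymm hτ2 (hρ2 ▸ hnd)
  obtain ⟨β, hβ⟩ := dvd_iff_isRoot.2 (show τ.IsRoot a from ta)
  have hβ0 : β ≠ 0 := by
    rintro rfl
    rw [mul_zero] at hβ
    rw [hβ] at hτ2'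
    simp at hτ2'
  have hβd : β.natDegree ≤ 1 := by
    have e : τ.natDegree = 1 + β.natDegree := by
      rw [hβ, natDegree_mul (X_sub_C_ne_zero a) hβ0, natDegree_X_sub_C]
    omega
  have hβd1 : β.natDegree = 1 := by
    have e : τ.natDegree = 1 + β.natDegree := by
      rw [hβ, natDegree_mul (X_sub_C_ne_zero a) hβ0, natDegree_X_sub_C]
    omega
  have hlin : ∀ x, β.eval x = β.coeff 1 * x + β.coeff 0 := by
    intro y
    conv_lhs => rw [eq_X_add_C_of_natDegree_le_one hβd]
    simp
  have hlcβ : β.coeff 1 < 0 := by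
    have : τ.leadingCoeff = β.coeff 1 := by
      rw [hβ, leadingCoeff_mul, leadingCoeff_X_sub_C, one_mul, leadingCoeff, hβd1]
    rwa [this] at hlc
  have hpos : ∀ x, x ≠ a → 0 < ρ.eval x := by
    intro x hx
    rw [hρe]
    have : x - a ≠ 0 := sub_ne_zero.2 hx
    positivity
  -- left side
  have hleft : φ (Iio a) = 0 := by
    refine hs.null measurableSet_Iio (fun x hx => hpos x (ne_of_lt hx)) ?_
    refine h.left (fun x hx => hpos x hx.ne) (Or.inr ?_)
    rw [hτ2']
    norm_num
    exact hlc.le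
  set κ : ℝ := -(β.coeff 1) / r with hκ
  have hκ0 : 0 < κ := by
    have : 0 < -(β.coeff 1) := by linarith
    positivity
  set P : ℝ := β.eval a / r with hP
  have hτe : ∀ x, τ.eval x = r * (x - a) * (P - κ * (x - a)) := by
    intro x
    have e : τ.eval x = (x - a) * β.eval x := by rw [hβ]; simp
    rw [e, hP, hκ, hlin x, hlin a]
    field_simp
    ring
  -- solution
  set L : ℝ → ℝ := fun x => P * Real.log (x - a) - κ * (x - a) with hL
  have hd : ∀ x ∈ Ioi a, HasDerivAt L (τ.eval x / ρ.eval x) x := by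
    intro x hx
    have h0 : 0 < x - a := sub_pos.2 hx
    have h1 : x - a ≠ 0 := h0.ne'
    have e1 : HasDerivAt (fun x => Real.log (x - a)) (1 / (x - a)) x :=
      ((hasDerivAt_id x).sub_const a).log h1
    have e2 : HasDerivAt (fun x => x - a) 1 x := (hasDerivAt_id x).sub_const a
    refine ((e1.const_mul P).sub (e2.const_mul κ)).congr_deriv ?_
    rw [hτe, hρe]
    field_simp
  have hform : ∀ x ∈ Ioi a, R x = (R x₀ * Real.exp (- L x₀)) * ((x - a) ^ P * Real.exp (-(κ * (x - a)))) := by
    intro x hx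
    rw [hs.sol isOpen_Ioi isPreconnected_Ioi hpa L hd hax hx]
    have e1 : Real.exp (L x) = (x - a) ^ P * Real.exp (-(κ * (x - a))) := by
      rw [hL]
      simp only
      rw [sub_eq_add_neg, Real.exp_add, Real.rpow_def_of_pos (sub_pos.2 hx), mul_comm P]
    rw [← e1, mul_assoc, ← Real.exp_add]
    congr 2
    ring
  set k : ℝ := R x₀ * Real.exp (- L x₀) with hk
  have hk0 : 0 < k := by positivity
  have hdens : ∀ x ∈ Ioi a, R x / ρ.eval x
      = k / r * ((x - a) ^ (P - 2) * Real.exp (-(κ * (x - a)))) := by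
    intro x hx
    have h1 : 0 < x - a := sub_pos.2 hx
    rw [hform x hx, hρe, rpow_split h1]
    field_simp
  have hP1 : 1 < P := by
    have hi : IntegrableOn (fun x => (1 : ℝ) * (R x / ρ.eval x)) (Ioi a) :=
      hs.intOn measurableSet_Ioi hpa (fun _ => 1) (integrable_const _).integrableOn
    have := exponent (s := P - 2) (g := fun x => k / r * Real.exp (-(κ * (x - a))))
      (show a < a + 1 by linarith) (by fun_prop) (fun x _ => by positivity)
      (hi.mono_set fun x hx => hx.1) ?_
    · linarith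
    · intro x hx
      rw [one_mul, hdens x hx.1]
      ring
  have hright0 : φ (Ioi a) ≠ 0 := by
    intro h0
    apply h.inf {a}
    refine measure_mono_null (fun x hx => ?_) (measure_union_null hleft h0)
    simp only [Finset.coe_singleton, mem_compl_iff, mem_singleton_iff] at hx
    exact lt_or_gt_of_ne hx
  have form : ∀ f : ℝ[X], J φ f = (∫ x in Ioi a, f.eval x *
      (k / r * ((x - a) ^ (P - 2) * Real.exp (-(κ * (x - a)))))) + φ.real {a} * f.eval a := by
    intro f
    have e0 : ∀ᵐ x ∂φ, x ∈ Ioi a ∪ {a} := by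
      have h1 : ∀ᵐ x ∂φ, x ∉ Iio a := by
        rw [ae_iff]
        refine measure_mono_null (fun x hx => ?_) hleft
        by_contra h'
        exact hx h'
      filter_upwards [h1] with x hx1
      simp only [mem_Iio, not_lt] at hx1
      rcases hx1.eq_or_lt with h3 | h3
      · exact Or.inr h3.symm
      · exact Or.inl h3
    have hi := hs.mom.int f
    unfold J
    have e1 : ∫ x, f.eval x ∂φ = ∫ x in Ioi a ∪ {a}, f.eval x ∂φ := by
      rw [Measure.restrict_eq_self_of_ae_mem e0]
    rw [e1, setIntegral_union _ (measurableSet_singleton a) hi.integrableOn hi.integrableOn,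
      integral_singleton, hs.setInt measurableSet_Ioi hpa]
    · simp only [smul_eq_mul]
      congr 1
      refine setIntegral_congr_fun measurableSet_Ioi fun x hx => ?_
      beta_reduce
      rw [hdens x hx]
    · rw [disjoint_singleton_right]
      intro h'
      exact lt_irrefl a h'
  by_cases ma : φ.real {a} = 0
  · refine concl_laguerre (a := a) (k := k / r) (p := P - 2) hκ0 (by positivity) (by linarith)
      fun f => ?_
    rw [form, ma]
    ring
  · have hma0 : 0 < φ.real {a} := lt_of_le_of_ne measureReal_nonneg (Ne.symm ma)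
    obtain ⟨hP2, -, -⟩ := hs.mass (show a < a + 1 by linarith) hleft ma hright0 (C r)
      (C r * (C P - C κ * (X - C a))) (by
        refine Polynomial.funext fun x => ?_
        rw [hρe]; simp; ring) (by simpa using hrpos) (by
        refine Polynomial.funext fun x => ?_
        rw [hτe]; simp; ring) P (by simp; ring) hP1 (fun x => k * Real.exp (-(κ * (x - a))))
      (by
        have h1 : Continuous (fun x => k * Real.exp (-(κ * (x - a)))) := by fun_prop
        exact (h1.continuousAt (x := a)).mono_left nhdsWithin_le_nhds) (by positivity)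
      (fun x hx => by rw [hform x hx.1]; ring) (fun x hx => hpa x hx.1)
    refine concl_laguerre_type (a := a) (k := k / r) (m := φ.real {a}) hκ0 (by positivity) hma0
      fun f => ?_
    rw [form, hP2]
    simp

theorem case_zero (h : Bi φ ρ τ ω δ R) {x₀ : ℝ} (hR : 0 < R x₀)
    (hpos : ∀ x, 0 < ρ.eval x) : Concl φ := by
  obtain ⟨T, v, hs⟩ := h.s
  have fin := hs.fin
  have hx0 : 0 < ρ.eval x₀ := hpos x₀
  have hc := hs.cpoly hx0 hR
  have hright : ¬ (τ.natDegree < ρ.natDegree ∨ 0 ≤ τ.leadingCoeff) := by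
    intro hcon
    have := hs.right (b := x₀ - 1) (fun x _ => hpos x) hcon x₀ (by linarith)
    linarith
  have hleft : ¬ (τ.natDegree < ρ.natDegree ∨ 0 ≤ -(τ.leadingCoeff * (-1) ^ τ.natDegree)) := by
    intro hcon
    have := h.left (a := x₀ + 1) (fun x _ => hpos x) hcon x₀ (by linarith)
    linarith
  simp only [not_or, not_lt, not_le] at hright hleft
  obtain ⟨hnd, hlc⟩ := hright
  have hlc2 := hleft.2
  have hτ2 := hs.degs hx0 hR hnd
  have hτ1 : τ.natDegree = 1 := by
    rcases Nat.even_or_odd τ.natDegree with he | ho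
    · rw [he.neg_one_pow] at hlc2
      linarith
    · obtain ⟨m, hm⟩ := ho
      omega
  have hρ0 : ρ.natDegree = 0 := by
    by_contra hne
    have h1 : ρ.natDegree = 1 := by omega
    have h2 := eq_X_add_C_of_natDegree_le_one h1.le
    have h3 : ρ.coeff 1 ≠ 0 := by
      have : ρ.leadingCoeff ≠ 0 := leadingCoeff_ne_zero.2 hs.ρ0
      rwa [leadingCoeff, h1] at this
    have h4 := hpos (-(ρ.coeff 0) / ρ.coeff 1)
    rw [h2] at h4
    simp only [eval_add, eval_mul, eval_C, eval_X, coeff_add, coeff_C_mul, coeff_X_one, coeff_C_zero,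
      coeff_C_succ, coeff_X_zero, mul_zero, mul_one, add_zero, zero_add] at h4
    rw [mul_div_cancel₀ _ h3] at h4
    simp at h4
  obtain ⟨r, hr⟩ := natDegree_eq_zero.1 hρ0
  have hρe : ∀ x, ρ.eval x = r := fun x => by rw [← hr]; simp
  have hrpos : 0 < r := by have := hpos 0; rwa [hρe] at this
  have hτe : ∀ x, τ.eval x = τ.coeff 1 * x + τ.coeff 0 := by
    intro y
    conv_lhs => rw [eq_X_add_C_of_natDegree_le_one hτ1.le]
    simp
  set t₁ : ℝ := τ.coeff 1 with ht₁
  set t₀ : ℝ := τ.coeff 0 with ht₀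
  have ht1 : t₁ < 0 := by
    rw [leadingCoeff, hτ1] at hlc
    exact hlc
  set L : ℝ → ℝ := fun x => (t₁ * (x ^ 2 / 2) + t₀ * x) / r with hL
  have hd : ∀ x ∈ (univ : Set ℝ), HasDerivAt L (τ.eval x / ρ.eval x) x := by
    intro x _
    have e1 : HasDerivAt (fun x : ℝ => x ^ 2 / 2) x x := by
      refine ((hasDerivAt_pow 2 x).div_const 2).congr_deriv ?_
      norm_num
    have e2 : HasDerivAt (fun x : ℝ => t₀ * x) (t₀ * 1) x := (hasDerivAt_id x).const_mul t₀
    refine (((e1.const_mul t₁).add e2).div_const r).congr_deriv ?_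
    rw [hτe, hρe]
    ring
  set κ : ℝ := Real.sqrt (-t₁ / (2 * r)) with hκ
  have hq : 0 < -t₁ / (2 * r) := by
    have : 0 < -t₁ := by linarith
    positivity
  have hκ0 : 0 < κ := Real.sqrt_pos.2 hq
  have hκ2 : κ ^ 2 = -t₁ / (2 * r) := Real.sq_sqrt hq.le
  set m : ℝ := -t₀ / t₁ with hm
  have hLe : ∀ x, L x = -(κ * (x - m)) ^ 2 + κ ^ 2 * m ^ 2 := by
    intro x
    have ht1' : t₁ ≠ 0 := ht1.ne
    rw [mul_pow, hκ2, hL, hm]
    field_simp
    ring
  refine concl_hermite (m := m) (k := R x₀ * Real.exp (-L x₀) * Real.exp (κ ^ 2 * m ^ 2) / r) (κ := κ)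
    hκ0 (by positivity) fun f => ?_
  unfold J
  have e1 : ∫ x, f.eval x ∂φ = ∫ x in univ, f.eval x ∂φ := by rw [Measure.restrict_univ]
  rw [e1, hs.setInt MeasurableSet.univ (fun x _ => hpos x), Measure.restrict_univ]
  refine integral_congr_ae (Eventually.of_forall fun x => ?_)
  beta_reduce
  rw [hs.sol isOpen_univ isPreconnected_univ (fun x _ => hpos x) L hd (mem_univ x₀) (mem_univ x),
    hρe]
  have e2 : Real.exp (L x - L x₀) = Real.exp (-L x₀) * Real.exp (κ ^ 2 * m ^ 2)
      * Real.exp (-(κ * (x - m)) ^ 2) := by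
    rw [← Real.exp_add, ← Real.exp_add]
    congr 1
    rw [hLe x]
    ring
  rw [e2]
  ring

theorem classify (h : Bi φ ρ τ ω δ R) : Concl φ := by
  obtain ⟨x₀, hx0, hR⟩ := h.exists_pos
  rcases left_end ρ hx0 with hl | ⟨a, hax, ha, hpa⟩
  · rcases right_end ρ hx0 with hr | ⟨b, hxb, hb, hpb⟩
    · refine case_zero h hR fun x => ?_
      rcases le_total x x₀ with h1 | h1
      · exact hl x h1
      · exact hr x h1
    · -- reflect
      refine Concl.of_rm (case_one h.reflect (a := -b) (x₀ := -x₀) (by simpa using hR)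
        (by linarith) (by rw [rp_eval]; simpa using hb) fun x hx => ?_)
      rw [rp_eval]
      rcases le_total (-x) x₀ with h1 | h1
      · exact hl _ h1
      · exact hpb _ ⟨h1, by linarith⟩
  · rcases right_end ρ hx0 with hr | ⟨b, hxb, hb, hpb⟩
    · refine case_one h hR hax ha fun x hx => ?_
      rcases le_total x x₀ with h1 | h1
      · exact hpa x ⟨hx, h1⟩
      · exact hr x h1
    · exact case_two h hR hax hxb ha hb hpa hpb

end Pool.Agent.U592.KR
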