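import Mathlib

/-!
# Polynomials orthogonal for an `L²` product and a second order Sobolev product: the functional
equations

If `p` is orthogonal for `φ` and for the Sobolev product, then `η`, `η'`, `ψ` are polynomial
multiples of the moment functional of `φ` in the sense of the identities `FE`.
-/

set_option autoImplicit false

open MeasureTheory Polynomial

namespace Pool.Agent.U592.KR

/-- all moments of the measure are finite -/
def Mom (μ : Measure ℝ) : Prop := ∀ k : ℕ, Integrable (fun x : ℝ => x ^ k) μ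

/-- the moment functional -/
noncomputable def J (μ : Measure ℝ) (g : ℝ[X]) : ℝ := ∫ x, g.eval x ∂μ

theorem Mom.int {μ : Measure ℝ} (h : Mom μ) (g : ℝ[X]) : Integrable (fun x : ℝ => g.eval x) μ := by
  have : (fun x : ℝ => g.eval x) = fun x => ∑ i ∈ Finset.range (g.natDegree + 1), g.coeff i * x ^ i := by
    funext x
    rw [Polynomial.eval_eq_sum_range]
  rw [this]
  exact integrable_finsetSum _ fun i _ => (h i).const_mul _

theorem J_add {μ : Measure ℝ} (h : Mom μ) (f g : ℝ[X]) : J μ (f + g) = J μ f + J μ g := by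
  unfold J
  rw [← integral_add (h.int f) (h.int g)]
  simp

theorem J_sub {μ : Measure ℝ} (h : Mom μ) (f g : ℝ[X]) : J μ (f - g) = J μ f - J μ g := by
  unfold J
  rw [← integral_sub (h.int f) (h.int g)]
  simp

theorem J_C_mul {μ : Measure ℝ} (c : ℝ) (g : ℝ[X]) : J μ (C c * g) = c * J μ g := by
  unfold J
  rw [← integral_const_mul]
  simp

theorem J_neg {μ : Measure ℝ} (g : ℝ[X]) : J μ (-g) = - J μ g := by
  unfold J
  rw [← integral_neg]
  simp

theorem J_zero {μ : Measure ℝ} : J μ 0 = 0 := by simp [J]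

theorem J_sum {μ : Measure ℝ} (h : Mom μ) {ι : Type*} (s : Finset ι) (f : ι → ℝ[X]) :
    J μ (∑ i ∈ s, f i) = ∑ i ∈ s, J μ (f i) := by
  classical
  induction s using Finset.induction_on with
  | empty => simp [J_zero]
  | insert i s hi ih => rw [Finset.sum_insert hi, Finset.sum_insert hi, J_add h, ih]

/-- every polynomial of degree at most `n` is a combination of `p 0, ..., p n` -/
theorem expand (p : ℕ → ℝ[X]) (hp : ∀ n, (p n).degree = ((n : ℕ) : WithBot ℕ)) :
    ∀ (n : ℕ) (f : ℝ[X]), f.degree < ((n : ℕ) : WithBot ℕ) →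
      ∃ c : ℕ → ℝ, f = ∑ i ∈ Finset.range n, C (c i) * p i := by
  intro n
  induction n with
  | zero =>
    intro f hf
    have : f = 0 := by
      rw [← Polynomial.degree_eq_bot]
      have h1 : f.degree < (0 : WithBot ℕ) := by simpa using hf
      rwa [Nat.WithBot.lt_zero_iff] at h1
    exact ⟨fun _ => 0, by simp [this]⟩
  | succ n ih =>
    intro f hf
    have hlc : (p n).coeff n ≠ 0 := by
      have h1 := hp n
      have h2 : (p n).natDegree = n := natDegree_eq_of_degree_eq_some h1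
      have h3 : p n ≠ 0 := by
        intro h0
        rw [h0, degree_zero] at h1
        exact absurd h1 (by simp)
      have := leadingCoeff_ne_zero.2 h3
      rwa [leadingCoeff, h2] at this
    set a := f.coeff n / (p n).coeff n with ha
    have hdeg : (f - C a * p n).degree < ((n : ℕ) : WithBot ℕ) := by
      rw [degree_lt_iff_coeff_zero]
      intro m hm
      rcases hm.eq_or_lt with rfl | hm
      · simp [ha, hlc]
      · have h1 : f.coeff m = 0 := coeff_eq_zero_of_degree_lt (lt_of_lt_of_le hf (by exact_mod_cast hm))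
        have h2 : (p n).coeff m = 0 := coeff_eq_zero_of_degree_lt (by rw [hp n]; exact_mod_cast hm)
        simp [h1, h2]
    obtain ⟨c, hc⟩ := ih _ hdeg
    refine ⟨fun i => if i = n then a else c i, ?_⟩
    rw [Finset.sum_range_succ]
    have : ∑ i ∈ Finset.range n, C (if i = n then a else c i) * p i
        = ∑ i ∈ Finset.range n, C (c i) * p i := by
      refine Finset.sum_congr rfl fun i hi => ?_
      rw [if_neg (Finset.mem_range.1 hi).ne]
    rw [this, ← hc]
    simp

/-- The functional equations. -/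
structure FE (φ ψ η : Measure ℝ) (ρ τ ω δ : ℝ[X]) : Prop where
  mφ : Mom φ
  mψ : Mom ψ
  mη : Mom η
  dρ : ρ.natDegree ≤ 4
  dτ : τ.natDegree ≤ 3
  dω : ω.natDegree ≤ 2
  dδ : δ.natDegree ≤ 1
  e1 : ∀ g : ℝ[X], J η g = J φ (ρ * g)
  e2 : ∀ g : ℝ[X], J η (derivative g) = - J φ (τ * g)
  e3 : ∀ g : ℝ[X], J ψ g = J η (derivative (derivative g)) - J φ (ω * g)
  e4 : ∀ g : ℝ[X], J ψ (derivative g) = J φ (δ * g)

/-- the Sobolev part of the inner product -/
noncomputable def SB (ψ η : Measure ℝ) (f g : ℝ[X]) : ℝ :=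
  J ψ (derivative f * derivative g) + J η (derivative (derivative f) * derivative (derivative g))

theorem SB_add_left {ψ η : Measure ℝ} (hψ : Mom ψ) (hη : Mom η) (f f' g : ℝ[X]) :
    SB ψ η (f + f') g = SB ψ η f g + SB ψ η f' g := by
  unfold SB
  simp only [derivative_add, add_mul]
  rw [J_add hψ, J_add hη]
  ring

theorem SB_C_mul_left {ψ η : Measure ℝ} (c : ℝ) (f g : ℝ[X]) :
    SB ψ η (C c * f) g = c * SB ψ η f g := by
  unfold SB
  simp only [derivative_C_mul, mul_assoc, J_C_mul]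
  ring

theorem SB_comm {ψ η : Measure ℝ} (f g : ℝ[X]) : SB ψ η f g = SB ψ η g f := by
  unfold SB
  rw [mul_comm (derivative f), mul_comm (derivative (derivative f))]

theorem SB_zero_left {ψ η : Measure ℝ} (g : ℝ[X]) : SB ψ η 0 g = 0 := by
  simp [SB, J_zero]

theorem SB_sum_left {ψ η : Measure ℝ} (hψ : Mom ψ) (hη : Mom η) {ι : Type*} (s : Finset ι)
    (f : ι → ℝ[X]) (g : ℝ[X]) : SB ψ η (∑ i ∈ s, f i) g = ∑ i ∈ s, SB ψ η (f i) g := by
  classical
  induction s using Finset.induction_on with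
  | empty => simp [SB_zero_left]
  | insert i s hi ih => rw [Finset.sum_insert hi, Finset.sum_insert hi, SB_add_left hψ hη, ih]

theorem exists_L {φ ψ η : Measure ℝ} {p : ℕ → ℝ[X]} (hφ : Mom φ) (hψ : Mom ψ) (hη : Mom η)
    (hp : ∀ n, (p n).degree = ((n : ℕ) : WithBot ℕ))
    (ho : ∀ n m : ℕ, n ≠ m → J φ (p n * p m) = 0)
    (hn : ∀ n : ℕ, J φ (p n * p n) ≠ 0)
    (hs : ∀ n m : ℕ, n ≠ m → SB ψ η (p n) (p m) = 0) (n : ℕ) (f : ℝ[X])
    (hf : f.degree < ((n + 1 : ℕ) : WithBot ℕ)) :
    ∃ l : ℝ[X], l.natDegree ≤ n ∧ ∀ g, SB ψ η f g = J φ (l * g) := by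
  obtain ⟨c, hc⟩ := expand p hp (n + 1) f hf
  refine ⟨∑ i ∈ Finset.range (n + 1),
    C (c i * (SB ψ η (p i) (p i) / J φ (p i * p i))) * p i, ?_, ?_⟩
  · refine natDegree_sum_le_of_forall_le _ _ fun i hi => ?_
    refine (natDegree_C_mul_le _ _).trans ?_
    rw [natDegree_eq_of_degree_eq_some (hp i)]
    exact Nat.lt_succ_iff.1 (Finset.mem_range.1 hi)
  · intro g
    obtain ⟨d, hd⟩ := expand p hp (g.natDegree + 1) g (by
      refine lt_of_le_of_lt degree_le_natDegree ?_
      exact_mod_cast Nat.lt_succ_self _)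
    have key : ∀ i, SB ψ η (p i) g
        = SB ψ η (p i) (p i) / J φ (p i * p i) * J φ (p i * g) := by
      intro i
      rw [hd, SB_comm, SB_sum_left hψ hη, Finset.mul_sum, J_sum hφ, Finset.mul_sum]
      refine Finset.sum_congr rfl fun j _ => ?_
      rw [SB_C_mul_left, show p i * (C (d j) * p j) = C (d j) * (p i * p j) by ring, J_C_mul]
      by_cases hij : i = j
      · subst hij
        field_simp [hn i]
      · rw [hs j i (Ne.symm hij), ho i j hij]
        ring
    rw [hc, SB_sum_left hψ hη, Finset.sum_mul, J_sum hφ]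
    refine Finset.sum_congr rfl fun i _ => ?_
    rw [SB_C_mul_left, key, mul_assoc (C _), J_C_mul]
    ring

theorem exists_FE {φ ψ η : Measure ℝ} {p : ℕ → ℝ[X]} (hφ : Mom φ) (hψ : Mom ψ) (hη : Mom η)
    (hp : ∀ n, (p n).degree = ((n : ℕ) : WithBot ℕ))
    (ho : ∀ n m : ℕ, n ≠ m → J φ (p n * p m) = 0)
    (hn : ∀ n : ℕ, J φ (p n * p n) ≠ 0)
    (hs : ∀ n m : ℕ, n ≠ m → SB ψ η (p n) (p m) = 0) :
    ∃ ρ τ ω δ : ℝ[X], FE φ ψ η ρ τ ω δ := by
  have hX : ∀ n : ℕ, (X ^ n : ℝ[X]).degree < ((n + 1 : ℕ) : WithBot ℕ) := by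
    intro n
    rw [degree_X_pow]
    exact_mod_cast Nat.lt_succ_self n
  obtain ⟨l1, d1, h1⟩ := exists_L hφ hψ hη hp ho hn hs 1 _ (hX 1)
  obtain ⟨l2, d2, h2⟩ := exists_L hφ hψ hη hp ho hn hs 2 _ (hX 2)
  obtain ⟨l3, d3, h3⟩ := exists_L hφ hψ hη hp ho hn hs 3 _ (hX 3)
  obtain ⟨l4, d4, h4⟩ := exists_L hφ hψ hη hp ho hn hs 4 _ (hX 4)
  have c2 : (C (2 : ℝ) : ℝ[X]) = 2 := map_ofNat C 2
  have c3 : (C (3 : ℝ) : ℝ[X]) = 3 := map_ofNat C 3
  have c4 : (C (4 : ℝ) : ℝ[X]) = 4 := map_ofNat C 4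
  have c6 : (C (6 : ℝ) : ℝ[X]) = 6 := map_ofNat C 6
  have c12 : (C (12 : ℝ) : ℝ[X]) = 12 := map_ofNat C 12
  have D1 : derivative (X ^ 1 : ℝ[X]) = 1 := by simp
  have D2 : derivative (X ^ 2 : ℝ[X]) = 2 * X := by simp; norm_num
  have D3 : derivative (X ^ 3 : ℝ[X]) = 3 * X ^ 2 := by simp [c2]; norm_num
  have D4 : derivative (X ^ 4 : ℝ[X]) = 4 * X ^ 3 := by simp [c3]; norm_num
  have E2 : derivative (2 * X : ℝ[X]) = 2 := by simp
  have E3 : derivative (3 * X ^ 2 : ℝ[X]) = 6 * X := by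
    rw [derivative_mul, D2]; simp; ring
  have E4 : derivative (4 * X ^ 3 : ℝ[X]) = 12 * X ^ 2 := by
    rw [derivative_mul, D3]; simp; ring
  -- the four basic identities
  have k1 : ∀ g : ℝ[X], J ψ (derivative g) = J φ (l1 * g) := by
    intro g
    rw [← h1 g]
    unfold SB
    simp [J_zero]
  have k2 : ∀ g : ℝ[X], 2 * J ψ (X * derivative g) + 2 * J η (derivative (derivative g))
      = J φ (l2 * g) := by
    intro g
    rw [← h2 g]
    unfold SB
    rw [← J_C_mul, ← J_C_mul, D2, E2, c2]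
    congr 2
    ring
  have k3 : ∀ g : ℝ[X], 3 * J ψ (X ^ 2 * derivative g) + 6 * J η (X * derivative (derivative g))
      = J φ (l3 * g) := by
    intro g
    rw [← h3 g]
    unfold SB
    rw [← J_C_mul, ← J_C_mul, D3, E3, c3, c6]
    congr 2
    · ring
    · ring
  have k4 : ∀ g : ℝ[X], 4 * J ψ (X ^ 3 * derivative g)
      + 12 * J η (X ^ 2 * derivative (derivative g)) = J φ (l4 * g) := by
    intro g
    rw [← h4 g]
    unfold SB
    rw [← J_C_mul, ← J_C_mul, D4, E4, c4, c12]
    congr 2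
    · ring
    · ring
  refine ⟨C (1 / 24) * (l4 - C 4 * (X * l3) + C 6 * (X ^ 2 * l2) - C 4 * (X ^ 3 * l1)),
    C (1 / 12) * (l3 - C 3 * (X * l2) + C 3 * (X ^ 2 * l1)),
    C (1 / 2) * l2 - X * l1, l1, hφ, hψ, hη, ?_, ?_, ?_, d1, ?_, ?_, ?_, k1⟩
  · have m1 : (X * l3 : ℝ[X]).natDegree ≤ 4 := natDegree_mul_le.trans (by simp; omega)
    have m2 : (X ^ 2 * l2 : ℝ[X]).natDegree ≤ 4 := natDegree_mul_le.trans (by simp; omega)
    have m3 : (X ^ 3 * l1 : ℝ[X]).natDegree ≤ 4 := natDegree_mul_le.trans (by simp; omega)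
    refine (natDegree_C_mul_le _ _).trans ?_
    refine natDegree_sub_le_of_le (natDegree_add_le_of_degree_le (natDegree_sub_le_of_le d4
      ((natDegree_C_mul_le _ _).trans m1)) ((natDegree_C_mul_le _ _).trans m2))
      ((natDegree_C_mul_le _ _).trans m3)
  · have m1 : (X * l2 : ℝ[X]).natDegree ≤ 3 := natDegree_mul_le.trans (by simp; omega)
    have m2 : (X ^ 2 * l1 : ℝ[X]).natDegree ≤ 3 := natDegree_mul_le.trans (by simp; omega)
    refine (natDegree_C_mul_le _ _).trans ?_
    refine natDegree_add_le_of_degree_le (natDegree_sub_le_of_le d3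
      ((natDegree_C_mul_le _ _).trans m1)) ((natDegree_C_mul_le _ _).trans m2)
  · have m1 : (X * l1 : ℝ[X]).natDegree ≤ 2 := natDegree_mul_le.trans (by simp; omega)
    exact natDegree_sub_le_of_le ((natDegree_C_mul_le _ _).trans d2) m1
  · intro g
    have a1 := k1 (X ^ 3 * g)
    have a2 := k2 (X ^ 2 * g)
    have a3 := k3 (X * g)
    have a4 := k4 g
    rw [derivative_mul, D3, show (3 * X ^ 2 * g + X ^ 3 * derivative g : ℝ[X])
      = C 3 * (X ^ 2 * g) + X ^ 3 * derivative g by rw [c3]; ring, J_add hψ, J_C_mul] at a1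
    have u1 : derivative (X ^ 2 * g) = 2 * X * g + X ^ 2 * derivative g := by
      rw [derivative_mul, D2]
    have u2 : derivative (2 * X * g + X ^ 2 * derivative g)
        = 2 * g + 2 * X * derivative g + (2 * X * derivative g
          + X ^ 2 * derivative (derivative g)) := by
      rw [derivative_add, derivative_mul (f := 2 * X), derivative_mul (f := X ^ 2), D2, E2]
    rw [u1, u2,
      show (X * (2 * X * g + X ^ 2 * derivative g) : ℝ[X])
      = C 2 * (X ^ 2 * g) + X ^ 3 * derivative g by rw [c2]; ring,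
      show (2 * g + 2 * X * derivative g + (2 * X * derivative g
        + X ^ 2 * derivative (derivative g)) : ℝ[X])
      = C 2 * g + (C 4 * (X * derivative g) + X ^ 2 * derivative (derivative g)) by
        rw [c2, c4]; ring,
      J_add hψ, J_add hη, J_add hη, J_C_mul, J_C_mul, J_C_mul] at a2
    rw [derivative_mul, derivative_X, derivative_add, derivative_mul, derivative_mul,
      derivative_one, derivative_X,
      show (X ^ 2 * (1 * g + X * derivative g) : ℝ[X])
      = X ^ 2 * g + X ^ 3 * derivative g by ring,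
      show (X * (0 * g + 1 * derivative g + (1 * derivative g
        + X * derivative (derivative g))) : ℝ[X])
      = C 2 * (X * derivative g) + X ^ 2 * derivative (derivative g) by
        rw [c2]; ring,
      J_add hψ, J_add hη, J_C_mul] at a3
    rw [show C (1 / 24) * (l4 - C 4 * (X * l3) + C 6 * (X ^ 2 * l2) - C 4 * (X ^ 3 * l1)) * g
      = C (1 / 24) * (l4 * g - C 4 * (l3 * (X * g)) + C 6 * (l2 * (X ^ 2 * g))
        - C 4 * (l1 * (X ^ 3 * g))) by ring,
      J_C_mul, J_sub hφ, J_add hφ, J_sub hφ, J_C_mul, J_C_mul, J_C_mul, ← a1, ← a2, ← a3, ← a4]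
    ring
  · intro g
    have a1 := k1 (X ^ 2 * g)
    have a2 := k2 (X * g)
    have a3 := k3 g
    rw [derivative_mul, D2, show (2 * X * g + X ^ 2 * derivative g : ℝ[X])
      = C 2 * (X * g) + X ^ 2 * derivative g by rw [c2]; ring, J_add hψ, J_C_mul] at a1
    rw [derivative_mul, derivative_X, derivative_add, derivative_mul, derivative_mul,
      derivative_one, derivative_X,
      show (X * (1 * g + X * derivative g) : ℝ[X])
      = X * g + X ^ 2 * derivative g by ring,
      show ((0 * g + 1 * derivative g + (1 * derivative g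
        + X * derivative (derivative g))) : ℝ[X])
      = C 2 * (derivative g) + X * derivative (derivative g) by
        rw [c2]; ring,
      J_add hψ, J_add hη, J_C_mul] at a2
    rw [show C (1 / 12) * (l3 - C 3 * (X * l2) + C 3 * (X ^ 2 * l1)) * g
      = C (1 / 12) * (l3 * g - C 3 * (l2 * (X * g)) + C 3 * (l1 * (X ^ 2 * g))) by ring,
      J_C_mul, J_add hφ, J_sub hφ, J_C_mul, J_C_mul, ← a1, ← a2, ← a3]
    ring
  · intro g
    have a1 := k1 (X * g)
    have a2 := k2 g
    rw [derivative_mul, derivative_X, show (1 * g + X * derivative g : ℝ[X])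
      = g + X * derivative g by ring, J_add hψ] at a1
    rw [show (C (1 / 2) * l2 - X * l1) * g
      = C (1 / 2) * (l2 * g) - (l1 * (X * g)) by ring,
      J_sub hφ, J_C_mul, ← a1, ← a2]
    ring

end Pool.Agent.U592.KR
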