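import Pool.Agent.U592.KR.Models

/-!
# Classification, two finite end points
-/

set_option autoImplicit false

open MeasureTheory Polynomial Set Filter Topology

namespace Pool.Agent.U592.KR

variable {φ : Measure ℝ} {ρ τ ω δ : ℝ[X]} {R T v : ℝ → ℝ}

theorem Sys.null (h : Sys φ ρ τ ω δ R T v) {A : Set ℝ} (hA : MeasurableSet A)
    (hpos : ∀ x ∈ A, 0 < ρ.eval x) (hz : ∀ x ∈ A, R x = 0) : φ A = 0 := by
  have fin := h.fin
  have e := h.setInt hA hpos fun _ => 1
  have e1 : ∫ x in A, (1 : ℝ) * (R x / ρ.eval x) = 0 := by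
    rw [setIntegral_congr_fun (g := fun _ => (0 : ℝ)) hA fun x hx => ?_]
    · simp
    · beta_reduce
      rw [hz x hx]; simp
  rw [e1] at e
  simp only [integral_const, smul_eq_mul, mul_one, measureReal_restrict_apply MeasurableSet.univ,
    univ_inter] at e
  exact (measureReal_eq_zero_iff).1 e

theorem exponent {F g : ℝ → ℝ} {a c s : ℝ} (hac : a < c) (hg : ContinuousOn g (Icc a c))
    (hg0 : ∀ x ∈ Icc a c, 0 < g x) (hF : IntegrableOn F (Ioo a c))
    (hb : ∀ x ∈ Ioo a c, F x = (x - a) ^ s * g x) : -1 < s := by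
  obtain ⟨x₁, hx₁, hmin⟩ := isCompact_Icc.exists_isMinOn (nonempty_Icc.2 hac.le) hg
  have hε : 0 < g x₁ := hg0 x₁ hx₁
  have h1 : IntegrableOn (fun x => (x - a) ^ s) (Ioo a c) := by
    have hmeas : Measurable fun x : ℝ => (x - a) ^ s := by fun_prop
    refine Integrable.mono (hF.const_mul (g x₁)⁻¹) hmeas.aestronglyMeasurable ?_
    refine (ae_restrict_iff' measurableSet_Ioo).2 (Eventually.of_forall fun x hx => ?_)
    have hxa : 0 < x - a := by linarith [hx.1]
    have h2 : g x₁ ≤ g x := hmin ⟨hx.1.le, hx.2.le⟩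
    rw [hb x hx, Real.norm_eq_abs, Real.norm_eq_abs, abs_of_pos (Real.rpow_pos_of_pos hxa _),
      abs_of_pos (by have := hε.trans_le h2; positivity)]
    have h3 : (1 : ℝ) ≤ (g x₁)⁻¹ * g x := by
      rw [inv_mul_eq_div, one_le_div hε]; exact h2
    calc (x - a) ^ s = (x - a) ^ s * 1 := (mul_one _).symm
      _ ≤ (x - a) ^ s * ((g x₁)⁻¹ * g x) := by gcongr
      _ = _ := by ring
  have h2 := ((integrable_indicator_iff measurableSet_Ioo).2 h1).comp_add_right a
  have h3 : IntegrableOn (fun x : ℝ => x ^ s) (Ioo 0 (c - a)) := by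
    rw [← integrable_indicator_iff measurableSet_Ioo]
    refine h2.congr (Eventually.of_forall fun x => ?_)
    simp only [indicator, mem_Ioo]
    by_cases hx : 0 < x ∧ x < c - a
    · rw [if_pos hx, if_pos ⟨by linarith [hx.1], by linarith [hx.2]⟩]
      congr 1; ring
    · rw [if_neg hx, if_neg fun h' => hx ⟨by linarith [h'.1], by linarith [h'.2]⟩]
  exact (intervalIntegral.integrableOn_Ioo_rpow_iff (by linarith)).1 h3

theorem dvd_sq {p : ℝ[X]} (hp : p ≠ 0) {a : ℝ} (h0 : p.eval a = 0)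
    (h1 : (derivative p).eval a = 0) : (X - C a) ^ 2 ∣ p := by
  rw [← le_rootMultiplicity_iff hp]
  exact (one_lt_rootMultiplicity_iff_isRoot hp).2 ⟨h0, h1⟩

theorem factor_four {p : ℝ[X]} (hp : p ≠ 0) (hd : p.natDegree ≤ 4) {a b : ℝ} (hab : a ≠ b)
    (a0 : p.eval a = 0) (a1 : (derivative p).eval a = 0) (b0 : p.eval b = 0)
    (b1 : (derivative p).eval b = 0) : ∃ r : ℝ, p = C r * ((X - C a) ^ 2 * (X - C b) ^ 2) := by
  have hc : IsCoprime ((X - C a) ^ 2 : ℝ[X]) ((X - C b) ^ 2) :=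
    (isCoprime_X_sub_C_of_isUnit_sub (isUnit_iff_ne_zero.2 (sub_ne_zero.2 hab))).pow
  obtain ⟨q, hq⟩ := hc.mul_dvd (dvd_sq hp a0 a1) (dvd_sq hp b0 b1)
  have hq0 : q ≠ 0 := by rintro rfl; exact hp (by rw [hq]; simp)
  have hX : ∀ c : ℝ, ((X - C c) ^ 2 : ℝ[X]) ≠ 0 := fun c => pow_ne_zero _ (X_sub_C_ne_zero c)
  have e : p.natDegree = 4 + q.natDegree := by
    rw [hq, natDegree_mul (mul_ne_zero (hX a) (hX b)) hq0, natDegree_mul (hX a) (hX b),
      natDegree_pow, natDegree_pow, natDegree_X_sub_C, natDegree_X_sub_C]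
  have hq1 : q.natDegree = 0 := by omega
  obtain ⟨r, hr⟩ := natDegree_eq_zero.1 hq1
  exact ⟨r, by rw [hq, ← hr]; ring⟩

theorem factor_two {p : ℝ[X]} (hp : p ≠ 0) (hd : p.natDegree ≤ 2) {a : ℝ}
    (a0 : p.eval a = 0) (a1 : (derivative p).eval a = 0) : ∃ r : ℝ, p = C r * (X - C a) ^ 2 := by
  obtain ⟨q, hq⟩ := dvd_sq hp a0 a1
  have hq0 : q ≠ 0 := by rintro rfl; exact hp (by rw [hq]; simp)
  have hX : ∀ c : ℝ, ((X - C c) ^ 2 : ℝ[X]) ≠ 0 := fun c => pow_ne_zero _ (X_sub_C_ne_zero c)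
  have e : p.natDegree = 2 + q.natDegree := by
    rw [hq, natDegree_mul (hX a) hq0, natDegree_pow, natDegree_X_sub_C]
  have hq1 : q.natDegree = 0 := by omega
  obtain ⟨r, hr⟩ := natDegree_eq_zero.1 hq1
  exact ⟨r, by rw [hq, ← hr]; ring⟩

/-- Data in the case of two end points. -/
structure DA (φ : Measure ℝ) (ρ τ ω δ : ℝ[X]) (R : ℝ → ℝ) (a b r P Q : ℝ) : Prop where
  h : Bi φ ρ τ ω δ R
  hab : a < b
  hr : 0 < r
  hρ : ∀ x, ρ.eval x = r * ((x - a) ^ 2 * (x - b) ^ 2)
  hρ4 : ρ.natDegree = 4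
  hτ : ∀ x, τ.eval x = r * (x - a) * (x - b) * (P * (x - b) + Q * (x - a))
  hR : ∃ x₀ ∈ Ioo a b, 0 < R x₀

theorem DA.reflect {a b r P Q : ℝ} (d : DA φ ρ τ ω δ R a b r P Q) :
    DA (rm φ) (rp ρ) (-(rp τ)) (rp ω) (-(rp δ)) (fun x => R (-x)) (-b) (-a) r Q P where
  h := d.h.reflect
  hab := by linarith [d.hab]
  hr := d.hr
  hρ x := by rw [rp_eval, d.hρ]; ring
  hρ4 := by rw [rp_nd, d.hρ4]
  hτ x := by rw [eval_neg, rp_eval, d.hτ]; ring
  hR := by
    obtain ⟨x₀, hx, h0⟩ := d.hR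
    exact ⟨-x₀, ⟨by linarith [hx.2], by linarith [hx.1]⟩, by simpa using h0⟩

theorem DA.pos {a b r P Q : ℝ} (d : DA φ ρ τ ω δ R a b r P Q) {x : ℝ} (h1 : x ≠ a) (h2 : x ≠ b) :
    0 < ρ.eval x := by
  rw [d.hρ]
  have e1 : x - a ≠ 0 := sub_ne_zero.2 h1
  have e2 : x - b ≠ 0 := sub_ne_zero.2 h2
  have := d.hr
  positivity

theorem DA.pos' {a b r P Q : ℝ} (d : DA φ ρ τ ω δ R a b r P Q) : ∀ x ∈ Ioo a b, 0 < ρ.eval x :=
  fun _ hx => d.pos hx.1.ne' hx.2.ne

theorem DA.Rform {a b r P Q : ℝ} (d : DA φ ρ τ ω δ R a b r P Q) :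
    ∃ k : ℝ, 0 < k ∧ ∀ x ∈ Ioo a b, R x = k * ((x - a) ^ P * (b - x) ^ Q) := by
  obtain ⟨T, v, hs⟩ := d.h.s
  obtain ⟨x₀, hx₀, h0⟩ := d.hR
  set L : ℝ → ℝ := fun x => P * Real.log (x - a) + Q * Real.log (b - x) with hL
  have hd : ∀ x ∈ Ioo a b, HasDerivAt L (τ.eval x / ρ.eval x) x := by
    intro x hx
    have h1 : x - a ≠ 0 := by linarith [hx.1, sub_pos.2 hx.1] |> fun h : 0 < x - a => h.ne'
    have h2 : b - x ≠ 0 := by linarith [hx.2, sub_pos.2 hx.2] |> fun h : 0 < b - x => h.ne'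
    have e1 : HasDerivAt (fun x => Real.log (x - a)) (1 / (x - a)) x :=
      ((hasDerivAt_id x).sub_const a).log h1
    have e2 : HasDerivAt (fun x => Real.log (b - x)) (-1 / (b - x)) x :=
      ((hasDerivAt_id x).const_sub b).log h2
    refine ((e1.const_mul P).add (e2.const_mul Q)).congr_deriv ?_
    rw [d.hτ, d.hρ]
    have h3 : x - b ≠ 0 := by
      intro h4; apply h2; linarith
    have hr := d.hr.ne'
    field_simp
    ring
  refine ⟨R x₀ * Real.exp (- L x₀), by positivity, fun x hx => ?_⟩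
  rw [hs.sol isOpen_Ioo isPreconnected_Ioo d.pos' L hd hx₀ hx]
  have e1 : Real.exp (L x) = (x - a) ^ P * (b - x) ^ Q := by
    rw [hL]
    simp only
    rw [Real.exp_add, Real.rpow_def_of_pos (sub_pos.2 hx.1), Real.rpow_def_of_pos (sub_pos.2 hx.2),
      mul_comm P, mul_comm Q]
  rw [← e1, mul_assoc, ← Real.exp_add]
  congr 2
  ring

theorem DA.left0 {a b r P Q : ℝ} (d : DA φ ρ τ ω δ R a b r P Q) : φ (Iio a) = 0 := by
  obtain ⟨T, v, hs⟩ := d.h.s
  have h1 := d.h.left (a := a) (fun x hx => d.pos hx.ne (hx.trans d.hab).ne)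
    (Or.inl (by rw [d.hρ4]; exact lt_of_le_of_lt hs.dτ (by norm_num)))
  exact hs.null measurableSet_Iio (fun x hx => d.pos (ne_of_lt hx) (lt_trans hx d.hab).ne) h1

theorem DA.right0 {a b r P Q : ℝ} (d : DA φ ρ τ ω δ R a b r P Q) : φ (Ioi b) = 0 := by
  have := d.reflect.left0
  rw [rm_apply] at this
  convert this using 2
  ext x
  simp

theorem rpow_split {x s : ℝ} (hx : 0 < x) : x ^ s = x ^ (s - 2) * x ^ 2 := by
  rw [← Real.rpow_natCast, ← Real.rpow_add hx]; congr 1; push_cast; ring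

theorem DA.dens {a b r P Q : ℝ} (d : DA φ ρ τ ω δ R a b r P Q) {k : ℝ}
    (hk : ∀ x ∈ Ioo a b, R x = k * ((x - a) ^ P * (b - x) ^ Q)) :
    ∀ x ∈ Ioo a b, R x / ρ.eval x = k / r * ((x - a) ^ (P - 2) * (b - x) ^ (Q - 2)) := by
  intro x hx
  have h1 : 0 < x - a := sub_pos.2 hx.1
  have h2 : 0 < b - x := sub_pos.2 hx.2
  rw [hk x hx, d.hρ, rpow_split h1, rpow_split h2, show (x - b) ^ 2 = (b - x) ^ 2 by ring]
  have hr := d.hr.ne'
  field_simp

theorem DA.Pgt {a b r P Q : ℝ} (d : DA φ ρ τ ω δ R a b r P Q) : 1 < P := by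
  obtain ⟨T, v, hs⟩ := d.h.s
  obtain ⟨k, hk0, hk⟩ := d.Rform
  have fin := hs.fin
  have hab := d.hab
  have hi : IntegrableOn (fun x => (1 : ℝ) * (R x / ρ.eval x)) (Ioo a b) :=
    hs.intOn measurableSet_Ioo d.pos' (fun _ => 1) (integrable_const _).integrableOn
  set c : ℝ := (a + b) / 2 with hc
  have hac : a < c := by rw [hc]; linarith
  have hcb : c < b := by rw [hc]; linarith
  have := exponent (s := P - 2) (g := fun x => k / r * (b - x) ^ (Q - 2)) hac ?_ ?_
    (hi.mono_set (Ioo_subset_Ioo_right hcb.le)) ?_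
  · linarith
  · refine continuousOn_const.mul (ContinuousOn.rpow_const (by fun_prop) fun x hx => Or.inl ?_)
    have : 0 < b - x := by linarith [hx.2]
    exact this.ne'
  · intro x hx
    have : 0 < b - x := by linarith [hx.2]
    have := d.hr
    positivity
  · intro x hx
    rw [one_mul, d.dens hk x ⟨hx.1, hx.2.trans hcb⟩]
    ring

theorem DA.mass {a b r P Q : ℝ} (d : DA φ ρ τ ω δ R a b r P Q) {k : ℝ} (hk0 : 0 < k)
    (hk : ∀ x ∈ Ioo a b, R x = k * ((x - a) ^ P * (b - x) ^ Q)) (hm : φ.real {a} ≠ 0) :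
    P = 2 ∧ -(δ.eval a * φ.real {a}) = 2 * (k * (b - a) ^ Q) := by
  obtain ⟨T, v, hs⟩ := d.h.s
  have hab := d.hab
  have hba : 0 < b - a := by linarith
  have h := hs.mass hab d.left0 hm ?_ (C r * (X - C b) ^ 2)
    (C r * (X - C b) * (C P * (X - C b) + C Q * (X - C a))) ?_ ?_ ?_ P ?_ d.Pgt
    (fun x => k * (b - x) ^ Q) ?_ ?_ ?_ d.pos'
  · exact ⟨h.1, h.2.2⟩
  · intro h0
    apply d.h.inf {a}
    refine measure_mono_null (fun x hx => ?_) (measure_union_null d.left0 h0)
    simp only [Finset.coe_singleton, mem_compl_iff, mem_singleton_iff] at hx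
    exact lt_or_gt_of_ne hx
  · refine Polynomial.funext fun x => ?_
    rw [d.hρ]; simp; ring
  · have := d.hr
    simp only [eval_mul, eval_pow, eval_sub, eval_X, eval_C]
    have : a - b ≠ 0 := by linarith
    positivity
  · refine Polynomial.funext fun x => ?_
    rw [d.hτ]; simp; ring
  · simp; ring
  · have h1 : ContinuousAt (fun x => k * (b - x) ^ Q) a := by
      refine continuousAt_const.mul (ContinuousAt.rpow_const (by fun_prop) (Or.inl hba.ne'))
    exact h1.mono_left nhdsWithin_le_nhds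
  · positivity
  · intro x hx
    rw [hk x hx]; ring

theorem DA.formula {a b r P Q : ℝ} (d : DA φ ρ τ ω δ R a b r P Q) {k : ℝ}
    (hk : ∀ x ∈ Ioo a b, R x = k * ((x - a) ^ P * (b - x) ^ Q)) (f : ℝ[X]) :
    J φ f = (∫ x in Ioo a b, f.eval x * (k / r * ((x - a) ^ (P - 2) * (b - x) ^ (Q - 2))))
      + φ.real {a} * f.eval a + φ.real {b} * f.eval b := by
  obtain ⟨T, v, hs⟩ := d.h.s
  have fin := hs.fin
  have hab := d.hab
  have e0 : ∀ᵐ x ∂φ, x ∈ Ioo a b ∪ {a} ∪ {b} := by
    have h1 : ∀ᵐ x ∂φ, x ∉ Iio a := by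
      rw [ae_iff]
      refine measure_mono_null (fun x hx => ?_) d.left0
      by_contra h'
      exact hx h'
    have h2 : ∀ᵐ x ∂φ, x ∉ Ioi b := by
      rw [ae_iff]
      refine measure_mono_null (fun x hx => ?_) d.right0
      by_contra h'
      exact hx h'
    filter_upwards [h1, h2] with x hx1 hx2
    simp only [mem_Iio, not_lt, mem_Ioi] at hx1 hx2
    rcases hx1.eq_or_lt with h3 | h3
    · exact Or.inl (Or.inr h3.symm)
    · rcases hx2.eq_or_lt with h4 | h4
      · exact Or.inr h4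
      · exact Or.inl (Or.inl ⟨h3, h4⟩)
  have hi := hs.mom.int f
  unfold J
  have e1 : ∫ x, f.eval x ∂φ = ∫ x in Ioo a b ∪ {a} ∪ {b}, f.eval x ∂φ := by
    rw [Measure.restrict_eq_self_of_ae_mem e0]
  rw [e1, setIntegral_union _ (measurableSet_singleton b) hi.integrableOn hi.integrableOn,
    setIntegral_union _ (measurableSet_singleton a) hi.integrableOn hi.integrableOn,
    integral_singleton, integral_singleton, hs.setInt measurableSet_Ioo d.pos']
  · simp only [smul_eq_mul]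
    congr 2
    refine setIntegral_congr_fun measurableSet_Ioo fun x hx => ?_
    beta_reduce
    rw [d.dens hk x hx]
  · rw [disjoint_singleton_right]
    intro h'
    exact h'.1.false
  · rw [disjoint_singleton_right]
    rintro (h' | h')
    · exact h'.2.false
    · exact hab.ne' h'

theorem DA.concl {a b r P Q : ℝ} (d : DA φ ρ τ ω δ R a b r P Q) : Concl φ := by
  obtain ⟨T, v, hs⟩ := d.h.s
  have fin := hs.fin
  have hab := d.hab
  have hr := d.hr
  obtain ⟨k, hk0, hk⟩ := d.Rform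
  have hk' : ∀ x ∈ Ioo (-b) (-a), (fun x => R (-x)) x = k * ((x - -b) ^ Q * (-a - x) ^ P) := by
    intro x hx
    simp only
    rw [hk (-x) ⟨by linarith [hx.2], by linarith [hx.1]⟩]
    rw [show -x - a = -a - x by ring, show b - -x = x - -b by ring]
    ring
  have hP := d.Pgt
  have hQ := d.reflect.Pgt
  have form := d.formula hk
  by_cases ma : φ.real {a} = 0
  · by_cases mb : φ.real {b} = 0
    · refine concl_jacobi (k := k / r) (p := P - 2) (q := Q - 2) hab (by positivity)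
        (by linarith) (by linarith) fun f => ?_
      rw [form, ma, mb]
      ring
    · -- reflect
      have hmb : (rm φ).real {-b} ≠ 0 := by rw [rm_real_singleton]; simpa using mb
      obtain ⟨hQ2, -⟩ := d.reflect.mass hk0 hk' hmb
      refine Concl.of_rm ?_
      refine concl_jacobi_type (a := -b) (b := -a) (k := k / r) (q := P - 2)
        (m := (rm φ).real {-b}) (by linarith) (by positivity)
        (by linarith) (lt_of_le_of_ne measureReal_nonneg (Ne.symm hmb)) fun f => ?_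
      rw [d.reflect.formula hk', rm_real_singleton φ (-a), neg_neg, ma, hQ2]
      simp
  · obtain ⟨hP2, hva⟩ := d.mass hk0 hk ma
    have hma0 : 0 < φ.real {a} := lt_of_le_of_ne measureReal_nonneg (Ne.symm ma)
    by_cases mb : φ.real {b} = 0
    · refine concl_jacobi_type (a := a) (b := b) (k := k / r) (q := Q - 2)
        (m := φ.real {a}) hab (by positivity) (by linarith) hma0 fun f => ?_
      rw [form, mb, hP2]
      simp
    · have hmb : (rm φ).real {-b} ≠ 0 := by rw [rm_real_singleton]; simpa using mb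
      obtain ⟨hQ2, hvb⟩ := d.reflect.mass hk0 hk' hmb
      rw [rm_real_singleton, neg_neg, eval_neg, rp_eval, neg_neg] at hvb
      have e1 : -a - -b = b - a := by ring
      rw [e1, hP2] at hvb
      rw [hQ2] at hva
      -- `δ a + δ b = 0`
      have hδ : J φ δ = 0 := hs.tδ
      have hlin : ∀ x, δ.eval x = δ.coeff 1 * x + δ.coeff 0 := by
        intro y
        conv_lhs => rw [eq_X_add_C_of_natDegree_le_one hs.dδ]
        simp
      rw [form, hP2, hQ2] at hδ
      have e2 : ∫ x in Ioo a b, δ.eval x * (k / r * ((x - a) ^ ((2 : ℝ) - 2) * (b - x) ^ ((2 : ℝ) - 2)))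
          = k / r * ((δ.coeff 1 * (b ^ 2 - a ^ 2) / 2) + δ.coeff 0 * (b - a)) := by
        rw [← integral_Ioc_eq_integral_Ioo, ← intervalIntegral.integral_of_le hab.le]
        simp only [sub_self, Real.rpow_zero, mul_one, hlin]
        rw [intervalIntegral.integral_mul_const, intervalIntegral.integral_add,
          intervalIntegral.integral_const_mul, integral_id]
        · simp
          ring
        · exact (continuous_const.mul continuous_id).intervalIntegrable _ _
        · exact continuous_const.intervalIntegrable _ _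
      rw [e2] at hδ
      have hba : 0 < b - a := by linarith
      have e3 : (b - a) ^ (2 : ℝ) = (b - a) ^ 2 := by norm_cast
      rw [e3] at hva hvb
      have e4 : δ.eval a + δ.eval b = 0 := by
        have h5 : φ.real {a} * δ.eval a + φ.real {b} * δ.eval b = 0 := by linarith
        have h6 : k / r * ((δ.coeff 1 * (b ^ 2 - a ^ 2) / 2) + δ.coeff 0 * (b - a)) = 0 := by
          linarith
        have h7 : k / r * (b - a) * (δ.eval a + δ.eval b) = 0 := by
          rw [hlin a, hlin b]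
          linear_combination 2 * h6
        rcases mul_eq_zero.1 h7 with h8 | h8
        · exfalso
          have : 0 < k / r * (b - a) := by positivity
          exact this.ne' h8
        · exact h8
      have hδa : δ.eval a ≠ 0 := by
        intro h5
        rw [h5] at hva
        have : 0 < 2 * (k * (b - a) ^ 2) := by positivity
        linarith
      have hmm : φ.real {b} = φ.real {a} := by
        have h5 : δ.eval b = - δ.eval a := by linarith
        rw [h5] at hvb
        have h6 : δ.eval a * (φ.real {b} - φ.real {a}) = 0 := by linarith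
        rcases mul_eq_zero.1 h6 with h7 | h7
        · exact absurd h7 hδa
        · linarith
      refine concl_legendre_type (a := a) (b := b) (k := k / r) (m := φ.real {a}) hab
        (by positivity) hma0 fun f => ?_
      rw [form, hP2, hQ2, hmm]
      simp

theorem case_two (h : Bi φ ρ τ ω δ R) {a b x₀ : ℝ} (hR : 0 < R x₀) (hax : a < x₀) (hxb : x₀ < b)
    (ha : ρ.eval a = 0) (hb : ρ.eval b = 0) (hpa : ∀ x ∈ Ioc a x₀, 0 < ρ.eval x)
    (hpb : ∀ x ∈ Ico x₀ b, 0 < ρ.eval x) : Concl φ := by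
  obtain ⟨T, v, hs⟩ := h.s
  have hab : a < b := hax.trans hxb
  have ha' := hs.mult hax hpa ha hR
  have hb' := h.mult_right hxb hpb hb hR
  have hx0 : 0 < ρ.eval x₀ := hpa x₀ ⟨hax, le_rfl⟩
  have hc := hs.cpoly hx0 hR
  have ta := root_of_cpoly hc ha ha'
  have tb := root_of_cpoly hc hb hb'
  obtain ⟨r, hr⟩ := factor_four hs.ρ0 hs.dρ hab.ne ha ha' hb hb'
  have hr0 : r ≠ 0 := by
    rintro rfl
    exact hs.ρ0 (by rw [hr]; simp)
  have hρe : ∀ x, ρ.eval x = r * ((x - a) ^ 2 * (x - b) ^ 2) := fun x => by rw [hr]; simp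
  have hrpos : 0 < r := by
    rw [hρe] at hx0
    by_contra hlt
    have : (0 : ℝ) ≤ (x₀ - a) ^ 2 * (x₀ - b) ^ 2 := by positivity
    have := mul_nonpos_of_nonpos_of_nonneg (not_lt.1 hlt) this
    linarith
  obtain ⟨τ₁, hτ₁⟩ := dvd_iff_isRoot.2 (show τ.IsRoot a from ta)
  have hτ₁b : τ₁.eval b = 0 := by
    have : τ.eval b = (b - a) * τ₁.eval b := by rw [hτ₁]; simp
    rw [tb] at this
    rcases mul_eq_zero.1 this.symm with h1 | h1
    · linarith
    · exact h1
  obtain ⟨β, hβ⟩ := dvd_iff_isRoot.2 (show τ₁.IsRoot b from hτ₁b)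
  have hβd : β.natDegree ≤ 1 := by
    by_cases hβ0 : β = 0
    · simp [hβ0]
    · have e : τ.natDegree = 1 + (1 + β.natDegree) := by
        rw [hτ₁, hβ, natDegree_mul (X_sub_C_ne_zero a) (mul_ne_zero (X_sub_C_ne_zero b) hβ0),
          natDegree_mul (X_sub_C_ne_zero b) hβ0, natDegree_X_sub_C, natDegree_X_sub_C]
      have := hs.dτ
      omega
  have hlin : ∀ x, β.eval x = β.coeff 1 * x + β.coeff 0 := by
    intro y
    conv_lhs => rw [eq_X_add_C_of_natDegree_le_one hβd]
    simp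
  have hba : b - a ≠ 0 := sub_ne_zero.2 hab.ne'
  refine DA.concl (a := a) (b := b) (r := r) (P := -(β.eval a) / (r * (b - a)))
    (Q := β.eval b / (r * (b - a))) ⟨h, hab, hrpos, hρe, ?_, ?_, x₀, ⟨hax, hxb⟩, hR⟩
  · have hX : ∀ c : ℝ, ((X - C c) ^ 2 : ℝ[X]) ≠ 0 := fun c => pow_ne_zero _ (X_sub_C_ne_zero c)
    rw [hr, natDegree_C_mul hr0, natDegree_mul (hX a) (hX b), natDegree_pow, natDegree_pow,
      natDegree_X_sub_C, natDegree_X_sub_C]
  · intro x
    have e : τ.eval x = (x - a) * ((x - b) * β.eval x) := by rw [hτ₁, hβ]; simp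
    rw [e, hlin x, hlin a, hlin b]
    field_simp
    ring

end Pool.Agent.U592.KR
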