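import Pool.Agent.U592.KR.Alg

/-!
# Growth of the moments and exponential integrability
-/

set_option autoImplicit false

open MeasureTheory Polynomial

namespace Pool.Agent.U592.KR

/-- `f` is exponentially integrable with respect to `κ` -/
def Exi (κ : Measure ℝ) (f : ℝ → ℝ) : Prop :=
  ∃ c : ℝ, 0 < c ∧ Integrable (fun x => f x * Real.exp (c * |x|)) κ

theorem seq_growth (m : ℕ → ℝ) (j k₀ : ℕ) (hj : 1 ≤ j) (D : ℝ) (hD : 0 ≤ D)
    (h : ∀ k, k₀ ≤ k → |m (k + j)| ≤ D * (k + 1) * ∑ i ∈ Finset.range j, |m (k + i)|) :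
    ∃ C : ℝ, 1 ≤ C ∧ ∀ n, |m n| ≤ C ^ (n + 1) * n.factorial := by
  set M : ℝ := ∑ i ∈ Finset.range (k₀ + j), |m i| with hM
  have hM0 : 0 ≤ M := Finset.sum_nonneg fun i _ => abs_nonneg _
  refine ⟨1 + M + D * j, by nlinarith [mul_nonneg hD (Nat.cast_nonneg (α := ℝ) j)], fun n => ?_⟩
  set C : ℝ := 1 + M + D * j with hC
  have hC1 : 1 ≤ C := by nlinarith [mul_nonneg hD (Nat.cast_nonneg (α := ℝ) j)]
  induction n using Nat.strong_induction_on with
  | _ n ih =>
    rcases lt_or_ge n (k₀ + j) with hn | hn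
    · have h1 : |m n| ≤ M := Finset.single_le_sum (f := fun i => |m i|)
        (fun i _ => abs_nonneg _) (Finset.mem_range.2 hn)
      have h2 : (1 : ℝ) ≤ n.factorial := by exact_mod_cast Nat.one_le_iff_ne_zero.2 n.factorial_ne_zero
      have h3 : C ≤ C ^ (n + 1) := by
        calc C = C ^ 1 := (pow_one C).symm
          _ ≤ C ^ (n + 1) := pow_le_pow_right₀ hC1 (by omega)
      have h4 : M ≤ C := by nlinarith [mul_nonneg hD (Nat.cast_nonneg (α := ℝ) j)]
      calc |m n| ≤ C ^ (n + 1) := by linarith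
        _ ≤ C ^ (n + 1) * n.factorial := le_mul_of_one_le_right (by positivity) h2
    · obtain ⟨k, rfl⟩ : ∃ k, n = k + j := ⟨n - j, by omega⟩
      have hk : k₀ ≤ k := by omega
      have h1 := h k hk
      have h2 : ∑ i ∈ Finset.range j, |m (k + i)| ≤ j * (C ^ (k + j) * (k + j - 1).factorial) := by
        calc ∑ i ∈ Finset.range j, |m (k + i)|
            ≤ ∑ i ∈ Finset.range j, (C ^ (k + j) * (k + j - 1).factorial : ℝ) := by
              refine Finset.sum_le_sum fun i hi => ?_
              have hi' := Finset.mem_range.1 hi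
              refine (ih (k + i) (by omega)).trans ?_
              have e1 : C ^ (k + i + 1) ≤ C ^ (k + j) := pow_le_pow_right₀ hC1 (by omega)
              have e2 : ((k + i).factorial : ℝ) ≤ (k + j - 1).factorial := by
                exact_mod_cast Nat.factorial_le (by omega)
              exact mul_le_mul e1 e2 (by positivity) (by positivity)
          _ = _ := by simp
      have h3 : ((k : ℝ) + 1) * (k + j - 1).factorial ≤ (k + j).factorial := by
        have e1 : (k + j).factorial = (k + j) * (k + j - 1).factorial := by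
          rw [Nat.mul_factorial_pred (by omega)]
        rw [e1]
        push_cast
        have e2 : (1 : ℝ) ≤ j := by exact_mod_cast hj
        exact mul_le_mul_of_nonneg_right (by linarith) (by positivity)
      calc |m (k + j)| ≤ D * (k + 1) * ∑ i ∈ Finset.range j, |m (k + i)| := h1
        _ ≤ D * (k + 1) * (j * (C ^ (k + j) * (k + j - 1).factorial)) := by gcongr
        _ = (D * j) * C ^ (k + j) * (((k : ℝ) + 1) * (k + j - 1).factorial) := by ring
        _ ≤ (D * j) * C ^ (k + j) * (k + j).factorial := by gcongr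
        _ ≤ C * C ^ (k + j) * (k + j).factorial := by
          gcongr
          linarith
        _ = C ^ (k + j + 1) * (k + j).factorial := by ring

theorem J_mul_X_pow {μ : Measure ℝ} (h : Mom μ) (q : ℝ[X]) (N : ℕ) (hq : q.natDegree < N) (k : ℕ) :
    J μ (q * X ^ k) = ∑ i ∈ Finset.range N, q.coeff i * J μ (X ^ (k + i)) := by
  have : q * X ^ k = ∑ i ∈ Finset.range N, C (q.coeff i) * X ^ (k + i) := by
    conv_lhs => rw [q.as_sum_range' N hq]
    rw [Finset.sum_mul]
    refine Finset.sum_congr rfl fun i _ => ?_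
    rw [← C_mul_X_pow_eq_monomial, pow_add]
    ring
  rw [this, J_sum h]
  refine Finset.sum_congr rfl fun i _ => ?_
  rw [J_C_mul]

/-- the growth of the moments of `φ` -/
theorem FE.growth {φ ψ η : Measure ℝ} {ρ τ ω δ : ℝ[X]} (h : FE φ ψ η ρ τ ω δ) (hρ : ρ ≠ 0)
    (h1 : J φ 1 ≠ 0) : ∃ C : ℝ, 1 ≤ C ∧ ∀ n : ℕ, |J φ (X ^ n)| ≤ C ^ (n + 1) * n.factorial := by
  set m : ℕ → ℝ := fun n => J φ (X ^ n) with hm
  set t : ℕ → ℝ := fun i => if i = 0 then 0 else τ.coeff (i - 1) with ht
  -- the recurrence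
  have hrec : ∀ k : ℕ, ∑ i ∈ Finset.range 5, (((k : ℝ) + 1) * ρ.coeff i + t i) * m (k + i) = 0 := by
    intro k
    have e1 := h.e1 (derivative (X ^ (k + 1)))
    rw [h.e2] at e1
    have e2 : ρ * derivative (X ^ (k + 1)) = C ((k : ℝ) + 1) * (ρ * X ^ k) := by
      rw [derivative_X_pow]
      simp
      ring
    rw [e2, J_C_mul, J_mul_X_pow h.mφ ρ 5 (by have := h.dρ; omega),
      J_mul_X_pow h.mφ τ 4 (by have := h.dτ; omega)] at e1
    have e3 : ∑ i ∈ Finset.range 5, t i * m (k + i)
        = ∑ i ∈ Finset.range 4, τ.coeff i * J φ (X ^ (k + 1 + i)) := by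
      rw [Finset.sum_range_succ']
      simp only [ht, hm, if_true, zero_mul, add_zero]
      refine Finset.sum_congr rfl fun i _ => ?_
      simp [add_assoc, add_comm 1 i]
    simp only [add_mul, Finset.sum_add_distrib]
    rw [e3]
    have e4 : ∑ i ∈ Finset.range 5, ((k : ℝ) * ρ.coeff i * m (k + i) + 1 * ρ.coeff i * m (k + i))
        = ((k : ℝ) + 1) * ∑ i ∈ Finset.range 5, ρ.coeff i * J φ (X ^ (k + i)) := by
      rw [Finset.mul_sum]
      refine Finset.sum_congr rfl fun i _ => ?_
      simp only [hm]; ring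
    rw [← Finset.sum_add_distrib, e4]
    linarith
  -- the top index
  set S : Finset ℕ := (Finset.range 5).filter fun i => ¬ (ρ.coeff i = 0 ∧ t i = 0) with hS
  have hSne : S.Nonempty := by
    by_contra hemp
    rw [Finset.not_nonempty_iff_eq_empty] at hemp
    apply hρ
    ext i
    rcases lt_or_ge i 5 with hi | hi
    · by_contra hne
      have : i ∈ S := by
        rw [hS, Finset.mem_filter]
        exact ⟨Finset.mem_range.2 hi, fun hh => hne (by simpa using hh.1)⟩
      rw [hemp] at this
      exact absurd this (by simp)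
    · rw [coeff_eq_zero_of_natDegree_lt (by have := h.dρ; omega)]
      simp
  set j := S.max' hSne with hj
  have hjS : j ∈ S := S.max'_mem hSne
  have hj5 : j < 5 := Finset.mem_range.1 (Finset.mem_filter.1 hjS).1
  have hjne : ¬ (ρ.coeff j = 0 ∧ t j = 0) := (Finset.mem_filter.1 hjS).2
  have habove : ∀ i, j < i → i < 5 → ρ.coeff i = 0 ∧ t i = 0 := by
    intro i hi hi5
    by_contra hne
    have : i ∈ S := Finset.mem_filter.2 ⟨Finset.mem_range.2 hi5, hne⟩
    exact absurd (S.le_max' i this) (by omega)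
  -- the recurrence with the top index
  have hrec' : ∀ k : ℕ, (((k : ℝ) + 1) * ρ.coeff j + t j) * m (k + j)
      = - ∑ i ∈ Finset.range j, (((k : ℝ) + 1) * ρ.coeff i + t i) * m (k + i) := by
    intro k
    have e := hrec k
    have e2 : ∑ i ∈ Finset.range 5, (((k : ℝ) + 1) * ρ.coeff i + t i) * m (k + i)
        = ∑ i ∈ Finset.range (j + 1), (((k : ℝ) + 1) * ρ.coeff i + t i) * m (k + i) := by
      symm
      refine Finset.sum_subset (fun i hi => ?_) fun i hi hi' => ?_
      · exact Finset.mem_range.2 (by have := Finset.mem_range.1 hi; omega)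
      · have h5 := Finset.mem_range.1 hi
        have h6 : j < i := by
          rw [Finset.mem_range, not_lt] at hi'
          exact hi'
        obtain ⟨z1, z2⟩ := habove i h6 h5
        rw [z1, z2]
        ring
    rw [e2, Finset.sum_range_succ] at e
    linarith
  -- the top index is positive
  have hj1 : 1 ≤ j := by
    by_contra hlt
    have hj0 : j = 0 := by omega
    have e := hrec' 0
    rw [hj0] at e hjne
    simp only [Finset.range_zero, Finset.sum_empty, neg_zero, Nat.cast_zero, zero_add, one_mul,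
      ht, if_true, add_zero, hm, pow_zero] at e
    rcases mul_eq_zero.1 e with e | e
    · exact hjne ⟨e, by simp [ht]⟩
    · exact h1 e
  -- a lower bound of the leading coefficient
  obtain ⟨c, hc, k₀, hck⟩ : ∃ c : ℝ, 0 < c ∧ ∃ k₀ : ℕ, ∀ k : ℕ, k₀ ≤ k →
      c ≤ |((k : ℝ) + 1) * ρ.coeff j + t j| := by
    by_cases hr : ρ.coeff j = 0
    · have htj : t j ≠ 0 := fun h0 => hjne ⟨hr, h0⟩
      refine ⟨|t j|, abs_pos.2 htj, 0, fun k _ => ?_⟩
      rw [hr, mul_zero, zero_add]
    · have hr' : 0 < |ρ.coeff j| := abs_pos.2 hr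
      obtain ⟨k₀, hk₀⟩ := exists_nat_ge ((|t j| + 1) / |ρ.coeff j|)
      refine ⟨1, one_pos, k₀, fun k hk => ?_⟩
      have e1 : |((k : ℝ) + 1) * ρ.coeff j + t j| ≥ |((k : ℝ) + 1) * ρ.coeff j| - |t j| := by
        have := abs_sub_abs_le_abs_sub (((k : ℝ) + 1) * ρ.coeff j) (- t j)
        rw [abs_neg, sub_neg_eq_add] at this
        linarith
      have e2 : |((k : ℝ) + 1) * ρ.coeff j| = ((k : ℝ) + 1) * |ρ.coeff j| := by
        rw [abs_mul, abs_of_nonneg (by positivity : (0 : ℝ) ≤ (k : ℝ) + 1)]
      have e3 : |t j| + 1 ≤ ((k : ℝ) + 1) * |ρ.coeff j| := by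
        rw [div_le_iff₀ hr'] at hk₀
        have : (k₀ : ℝ) ≤ k := by exact_mod_cast hk
        nlinarith
      linarith
  set D : ℝ := (∑ i ∈ Finset.range 5, (|ρ.coeff i| + |t i|)) / c with hD
  refine seq_growth m j k₀ hj1 D (by positivity) fun k hk => ?_
  have e1 := hrec' k
  have e2 := hck k hk
  have e3 : |((k : ℝ) + 1) * ρ.coeff j + t j| * |m (k + j)|
      ≤ ∑ i ∈ Finset.range j, |((k : ℝ) + 1) * ρ.coeff i + t i| * |m (k + i)| := by
    rw [← abs_mul, e1, abs_neg]
    refine (Finset.abs_sum_le_sum_abs _ _).trans (le_of_eq ?_)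
    refine Finset.sum_congr rfl fun i _ => abs_mul _ _
  have e4 : ∀ i ∈ Finset.range j, |((k : ℝ) + 1) * ρ.coeff i + t i| * |m (k + i)|
      ≤ (((k : ℝ) + 1) * (c * D)) * |m (k + i)| := by
    intro i hi
    refine mul_le_mul_of_nonneg_right ?_ (abs_nonneg _)
    have hi5 : i ∈ Finset.range 5 := Finset.mem_range.2 (by have := Finset.mem_range.1 hi; omega)
    have f1 : |ρ.coeff i| + |t i| ≤ c * D := by
      rw [hD, mul_div_cancel₀ _ hc.ne']
      exact Finset.single_le_sum (f := fun i => |ρ.coeff i| + |t i|)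
        (fun i _ => by positivity) hi5
    have f2 : |((k : ℝ) + 1) * ρ.coeff i + t i| ≤ ((k : ℝ) + 1) * |ρ.coeff i| + |t i| := by
      refine (abs_add_le _ _).trans ?_
      rw [abs_mul, abs_of_nonneg (by positivity : (0 : ℝ) ≤ (k : ℝ) + 1)]
    have f3 : |t i| ≤ ((k : ℝ) + 1) * |t i| := by
      have : (0 : ℝ) ≤ k := Nat.cast_nonneg k
      nlinarith [abs_nonneg (t i)]
    have f4 : (0 : ℝ) ≤ (k : ℝ) + 1 := by positivity
    nlinarith
  have e5 := Finset.sum_le_sum e4
  rw [← Finset.mul_sum] at e5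
  have e6 : c * |m (k + j)| ≤ |((k : ℝ) + 1) * ρ.coeff j + t j| * |m (k + j)| :=
    mul_le_mul_of_nonneg_right e2 (abs_nonneg _)
  have e7 : c * |m (k + j)| ≤ c * (D * ((k : ℝ) + 1) * ∑ i ∈ Finset.range j, |m (k + i)|) := by
    refine (e6.trans (e3.trans e5)).trans (le_of_eq ?_)
    ring
  exact le_of_mul_le_mul_left e7 hc

/-- Moments growing like `C ^ n n!` imply exponential integrability. -/
theorem exi_of_growth {φ : Measure ℝ} (hφ : Mom φ) {C : ℝ} (hC : 1 ≤ C)
    (h : ∀ n : ℕ, |J φ (X ^ n)| ≤ C ^ (n + 1) * n.factorial) : Exi φ fun _ => 1 := by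
  have hC0 : 0 < C := by linarith
  refine ⟨1 / (2 * C), by positivity, ?_⟩
  set c : ℝ := 1 / (2 * C) with hc
  have hc0 : 0 < c := by positivity
  have hcosh : ∫⁻ x, ENNReal.ofReal (Real.cosh (c * x)) ∂φ < ⊤ := by
    have e1 : ∀ x : ℝ, ENNReal.ofReal (Real.cosh (c * x))
        = ∑' n : ℕ, ENNReal.ofReal ((c * x) ^ (2 * n) / (2 * n).factorial) := by
      intro x
      have hs := Real.hasSum_cosh (c * x)
      rw [← hs.tsum_eq, ENNReal.ofReal_tsum_of_nonneg _ hs.summable]
      intro n
      have : (0 : ℝ) ≤ (c * x) ^ (2 * n) := by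
        rw [pow_mul]; positivity
      positivity
    simp_rw [e1]
    rw [lintegral_tsum fun n => by fun_prop]
    have e2 : ∀ n : ℕ, ∫⁻ x, ENNReal.ofReal ((c * x) ^ (2 * n) / (2 * n).factorial) ∂φ
        ≤ ENNReal.ofReal (C * (1 / 4) ^ n) := by
      intro n
      rw [← ofReal_integral_eq_lintegral_ofReal]
      · apply ENNReal.ofReal_le_ofReal
        have f1 : ∫ x, (c * x) ^ (2 * n) / ((2 * n).factorial : ℝ) ∂φ
            = c ^ (2 * n) / (2 * n).factorial * J φ (X ^ (2 * n)) := by
          unfold J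
          rw [← integral_const_mul]
          congr 1
          funext x
          rw [mul_pow]
          simp
          ring
        rw [f1]
        have f2 := (le_abs_self _).trans (h (2 * n))
        have f3 : (0 : ℝ) < (2 * n).factorial := by positivity
        calc c ^ (2 * n) / (2 * n).factorial * J φ (X ^ (2 * n))
            ≤ c ^ (2 * n) / (2 * n).factorial * (C ^ (2 * n + 1) * (2 * n).factorial) := by gcongr
          _ = C * (c * C) ^ (2 * n) := by
            rw [mul_pow, pow_succ]
            field_simp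
          _ = C * (1 / 4) ^ n := by
            have : c * C = 1 / 2 := by rw [hc]; field_simp
            rw [this, pow_mul]
            norm_num
      · have := ((hφ (2 * n)).const_mul (c ^ (2 * n))).div_const ((2 * n).factorial : ℝ)
        refine this.congr (Filter.Eventually.of_forall fun x => ?_)
        simp only [mul_pow]
      · refine Filter.Eventually.of_forall fun x => ?_
        have : (0 : ℝ) ≤ (c * x) ^ (2 * n) := by
          rw [pow_mul]; positivity
        simp only [Pi.zero_apply]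
        positivity
    refine (ENNReal.tsum_le_tsum e2).trans_lt ?_
    rw [← ENNReal.ofReal_tsum_of_nonneg (fun n => by positivity)]
    · exact ENNReal.ofReal_lt_top
    · exact (summable_geometric_of_lt_one (by norm_num) (by norm_num)).mul_left C
  have hint : Integrable (fun x => Real.cosh (c * x)) φ := by
    refine ⟨by fun_prop, ?_⟩
    rw [hasFiniteIntegral_iff_ofReal (Filter.Eventually.of_forall fun x => (Real.cosh_pos _).le)]
    exact hcosh
  refine (hint.const_mul 2).mono' (by fun_prop) (Filter.Eventually.of_forall fun x => ?_)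
  rw [one_mul, Real.norm_eq_abs, abs_of_pos (Real.exp_pos _), Real.cosh_eq]
  rcases abs_cases x with ⟨h1, _⟩ | ⟨h1, _⟩
  · rw [h1]
    have := Real.exp_pos (-(c * x))
    linarith
  · rw [h1]
    have := Real.exp_pos (c * x)
    have e : c * -x = -(c * x) := by ring
    rw [e]
    linarith

end Pool.Agent.U592.KR
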