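import Pool.Agent.U592.KR.Sys

/-!
# Local analysis of the system
-/

set_option autoImplicit false

open MeasureTheory Polynomial Set Filter Topology

namespace Pool.Agent.U592.KR

variable {φ : Measure ℝ} {ρ τ ω δ : ℝ[X]} {R T v : ℝ → ℝ}

theorem meas_poly (q : ℝ[X]) : Measurable fun x : ℝ => q.eval x := q.continuous.measurable

theorem Sys.cont (h : Sys φ ρ τ ω δ R T v) : Continuous R := by
  have e : R = fun x => R 0 + ∫ s in (0 : ℝ)..x, T s := by
    funext x
    rw [h.hR x, h.hR 0, ← intervalIntegral.integral_Iic_sub_Iic h.iT.integrableOn h.iT.integrableOn]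
    ring
  rw [e]
  exact continuous_const.add (intervalIntegral.continuous_primitive
    (fun a b => h.iT.intervalIntegrable) 0)

theorem Sys.iR0 (h : Sys φ ρ τ ω δ R T v) : Integrable R := by
  simpa using h.iR 0

theorem Sys.P_eq (h : Sys φ ρ τ ω δ R T v) : P φ (fun x => ρ.eval x) = P volume R := by
  have := h.fin
  ext A hA
  unfold P
  rw [withDensity_apply _ hA, withDensity_apply _ hA]
  rw [← ofReal_integral_eq_lintegral_ofReal (h.mom.int ρ).integrableOn,
    ← ofReal_integral_eq_lintegral_ofReal h.iR0.integrableOn, h.aR A hA]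
  · exact Eventually.of_forall fun x => h.R0 x
  · refine ae_restrict_of_ae ?_
    show ∀ᵐ x ∂φ, (0 : ℝ) ≤ ρ.eval x
    rw [ae_iff]
    refine measure_mono_null (fun x hx => ?_) h.neg
    simpa using hx

theorem Sys.restrict (h : Sys φ ρ τ ω δ R T v) :
    φ.restrict {x | 0 < ρ.eval x} = (P volume fun x => R x / ρ.eval x).restrict {x | 0 < ρ.eval x} := by
  have := h.fin
  set S : Set ℝ := {x | 0 < ρ.eval x} with hS
  have hSm : MeasurableSet S := measurableSet_lt measurable_const (meas_poly ρ)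
  ext A hA
  rw [Measure.restrict_apply hA, Measure.restrict_apply hA]
  have hAS : MeasurableSet (A ∩ S) := hA.inter hSm
  have hm1 : Measurable fun x : ℝ => ENNReal.ofReal (ρ.eval x) := (meas_poly ρ).ennreal_ofReal
  have hm1i : Measurable fun x : ℝ => (ENNReal.ofReal (ρ.eval x))⁻¹ := hm1.inv
  have hm2 : Measurable fun x : ℝ => ENNReal.ofReal (R x) := h.cont.measurable.ennreal_ofReal
  have e1 : φ (A ∩ S) = ∫⁻ x in A ∩ S, (ENNReal.ofReal (ρ.eval x))⁻¹ ∂(P φ fun x => ρ.eval x) := by
    unfold P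
    rw [setLIntegral_withDensity_eq_setLIntegral_mul _ hm1 hm1i hAS]
    rw [← setLIntegral_one]
    refine setLIntegral_congr_fun hAS fun x hx => ?_
    have h1 : 0 < ρ.eval x := hx.2
    simp only [Pi.mul_apply]
    rw [ENNReal.mul_inv_cancel]
    · simpa using h1
    · exact ENNReal.ofReal_ne_top
  rw [e1, h.P_eq]
  unfold P
  rw [setLIntegral_withDensity_eq_setLIntegral_mul _ hm2 hm1i hAS, withDensity_apply _ hAS]
  refine setLIntegral_congr_fun hAS fun x hx => ?_
  have h1 : 0 < ρ.eval x := hx.2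
  simp only [Pi.mul_apply]
  rw [ENNReal.ofReal_div_of_pos h1, div_eq_mul_inv]

/-- Integrals over subsets of `{ρ > 0}`. -/
theorem Sys.setInt (h : Sys φ ρ τ ω δ R T v) {A : Set ℝ} (hA : MeasurableSet A)
    (hAS : ∀ x ∈ A, 0 < ρ.eval x) (f : ℝ → ℝ) :
    ∫ x in A, f x ∂φ = ∫ x in A, f x * (R x / ρ.eval x) := by
  have e1 : φ.restrict A = (P volume fun x => R x / ρ.eval x).restrict A :=
    Measure.restrict_congr_mono (fun x hx => hAS x hx) h.restrict
  have hm : Measurable fun x => R x / ρ.eval x := h.cont.measurable.div (meas_poly ρ)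
  rw [e1]
  unfold P
  rw [restrict_withDensity hA]
  have := int_P (κ := volume.restrict A) hm f
  unfold P at this
  rw [this]
  refine setIntegral_congr_fun hA fun x hx => ?_
  have h1 : 0 ≤ R x / ρ.eval x := div_nonneg (h.R0 x) (hAS x hx).le
  rw [max_eq_left h1, mul_comm]

theorem Sys.intOn (h : Sys φ ρ τ ω δ R T v) {A : Set ℝ} (hA : MeasurableSet A)
    (hAS : ∀ x ∈ A, 0 < ρ.eval x) (f : ℝ → ℝ) (hf : IntegrableOn f A φ) :
    IntegrableOn (fun x => f x * (R x / ρ.eval x)) A := by
  have e1 : φ.restrict A = (P volume fun x => R x / ρ.eval x).restrict A :=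
    Measure.restrict_congr_mono (fun x hx => hAS x hx) h.restrict
  have hm : Measurable fun x => R x / ρ.eval x := h.cont.measurable.div (meas_poly ρ)
  unfold IntegrableOn at hf
  rw [e1] at hf
  unfold P at hf
  rw [restrict_withDensity hA] at hf
  have := (integrable_P (κ := volume.restrict A) hm f).1 hf
  refine (integrable_congr ?_).1 this
  refine (ae_restrict_iff' hA).2 (Eventually.of_forall fun x hx => ?_)
  have h1 : 0 ≤ R x / ρ.eval x := div_nonneg (h.R0 x) (hAS x hx).le
  simp only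
  rw [max_eq_left h1, mul_comm]

theorem Iic_sub {μ : Measure ℝ} {f : ℝ → ℝ} (hf : Integrable f μ) {x y : ℝ} (hxy : x ≤ y) :
    (∫ s in Iic y, f s ∂μ) - ∫ s in Iic x, f s ∂μ = ∫ s in Ioc x y, f s ∂μ := by
  rw [← Iic_union_Ioc_eq_Iic hxy, setIntegral_union (Iic_disjoint_Ioc le_rfl) measurableSet_Ioc
      hf.integrableOn hf.integrableOn]
  ring

theorem Sys.inc (h : Sys φ ρ τ ω δ R T v) (q : ℝ[X]) {x y : ℝ}
    (hS : ∀ t ∈ uIcc x y, 0 < ρ.eval t) :
    (∫ s in Iic y, q.eval s ∂φ) - ∫ s in Iic x, q.eval s ∂φ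
      = ∫ t in x..y, q.eval t * (R t / ρ.eval t) := by
  rcases le_total x y with hxy | hxy
  · rw [Iic_sub (h.mom.int q) hxy, intervalIntegral.integral_of_le hxy,
      h.setInt measurableSet_Ioc fun t ht => hS t ?_]
    rw [uIcc_of_le hxy]
    exact Ioc_subset_Icc_self ht
  · rw [intervalIntegral.integral_of_ge hxy, ← h.setInt measurableSet_Ioc, ← Iic_sub (h.mom.int q) hxy]
    · ring
    · intro t ht
      refine hS t ?_
      rw [uIcc_of_ge hxy]
      exact Ioc_subset_Icc_self ht

theorem isOpen_pos (ρ : ℝ[X]) : IsOpen {x : ℝ | 0 < ρ.eval x} := isOpen_lt continuous_const ρ.continuous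

/-- near a point of an open set the segments stay in the set -/
theorem ev_seg {S : Set ℝ} (hS : IsOpen S) {x : ℝ} (hx : x ∈ S) :
    ∀ᶠ y in 𝓝 x, ∀ t ∈ uIcc x y, t ∈ S := by
  obtain ⟨ε, hε, hb⟩ := Metric.isOpen_iff.1 hS x hx
  filter_upwards [Metric.ball_mem_nhds x hε] with y hy t ht
  apply hb
  rw [Metric.mem_ball, Real.dist_eq] at hy ⊢
  rcases le_total x y with h | h
  · rw [uIcc_of_le h] at ht
    rw [abs_of_nonneg (by linarith)] at hy
    rw [abs_of_nonneg (by linarith [ht.1])]
    linarith [ht.2]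
  · rw [uIcc_of_ge h] at ht
    rw [abs_of_nonpos (by linarith)] at hy
    rw [abs_of_nonpos (by linarith [ht.2])]
    linarith [ht.1]

theorem Sys.contQ (h : Sys φ ρ τ ω δ R T v) {x : ℝ} (hx : 0 < ρ.eval x) :
    ContinuousAt (fun t => R t / ρ.eval t) x :=
  h.cont.continuousAt.div ρ.continuous.continuousAt hx.ne'

theorem hasDeriv_of_inc {F f : ℝ → ℝ} {x : ℝ} (hf : ContinuousAt f x) (hm : Measurable f)
    (hF : ∀ᶠ y in 𝓝 x, F y - F x = ∫ t in x..y, f t) : HasDerivAt F (f x) x := by
  have h1 : HasDerivAt (fun y => ∫ t in x..y, f t) (f x) x :=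
    intervalIntegral.integral_hasDerivAt_right (by simp)
      (hm.stronglyMeasurable.stronglyMeasurableAtFilter) hf
  have h2 : HasDerivAt (fun y => F x + ∫ t in x..y, f t) (f x) x := h1.const_add _
  refine h2.congr_of_eventuallyEq ?_
  filter_upwards [hF] with y hy
  linarith

/-- the polynomial `θ` -/
noncomputable def th (ρ τ ω : ℝ[X]) : ℝ[X] :=
  τ * τ - τ * derivative ρ + ρ * derivative τ - ρ * ω

theorem Sys.meas_v (h : Sys φ ρ τ ω δ R T v) : Measurable v := by
  have e : v = fun x => (-1) * prim φ (fun s => δ.eval s) x := by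
    funext x
    rw [h.hv x, prim_Iic (h.mom.int δ), h.tδ]
    simp
  have := h.fin
  rw [e]
  exact (measurable_prim (meas_poly δ)).const_mul _

theorem Sys.deriv_v (h : Sys φ ρ τ ω δ R T v) {x : ℝ} (hx : 0 < ρ.eval x) :
    HasDerivAt v (-(δ.eval x * (R x / ρ.eval x))) x := by
  have := hasDeriv_of_inc (F := v) (f := fun t => -(δ.eval t * (R t / ρ.eval t))) (x := x)
    (δ.continuous.continuousAt.mul (h.contQ hx)).neg
    ((meas_poly δ).mul (h.cont.measurable.div (meas_poly ρ))).neg ?_
  · exact this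
  · filter_upwards [ev_seg (isOpen_pos ρ) hx] with y hy
    rw [intervalIntegral.integral_neg, ← h.inc δ hy, h.hv y, h.hv x]
    ring

theorem Sys.v_inc (h : Sys φ ρ τ ω δ R T v) (x y : ℝ) :
    (∫ s in Iic y, v s) - ∫ s in Iic x, v s = ∫ t in x..y, v t :=
  intervalIntegral.integral_Iic_sub_Iic h.iv.integrableOn h.iv.integrableOn

theorem Sys.R_inc (h : Sys φ ρ τ ω δ R T v) (x y : ℝ) :
    R y - R x = ∫ t in x..y, T t := by
  rw [h.hR y, h.hR x]
  exact intervalIntegral.integral_Iic_sub_Iic h.iT.integrableOn h.iT.integrableOn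

theorem Sys.deriv_T (h : Sys φ ρ τ ω δ R T v) {x : ℝ} (hx : 0 < ρ.eval x) :
    HasDerivAt T (ω.eval x * (R x / ρ.eval x) + v x) x := by
  have := hasDeriv_of_inc (F := T) (f := fun t => ω.eval t * (R t / ρ.eval t) + v t) (x := x)
    ((ω.continuous.continuousAt.mul (h.contQ hx)).add (h.deriv_v hx).continuousAt)
    (((meas_poly ω).mul (h.cont.measurable.div (meas_poly ρ))).add h.meas_v) ?_
  · exact this
  · filter_upwards [ev_seg (isOpen_pos ρ) hx] with y hy
    rw [intervalIntegral.integral_add, ← h.inc ω hy, ← h.v_inc, h.hT y, h.hT x]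
    · ring
    · refine ContinuousOn.intervalIntegrable ?_
      intro t ht
      exact (ω.continuous.continuousAt.mul (h.contQ (hy t ht))).continuousWithinAt
    · exact h.iv.intervalIntegrable

theorem Sys.meas_T (h : Sys φ ρ τ ω δ R T v) : Measurable T := by
  have fin := h.fin
  have e1 : Measurable fun x => ∫ s in Iic x, ω.eval s ∂φ := by
    have e : (fun x => ∫ s in Iic x, ω.eval s ∂φ)
        = fun x => prim φ (fun s => ω.eval s) x + (if x < 0 then 0 else ∫ s, ω.eval s ∂φ) := by
      funext x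
      rw [prim_Iic (h.mom.int ω)]
      ring
    rw [e]
    exact (measurable_prim (meas_poly ω)).add
      (Measurable.ite measurableSet_Iio measurable_const measurable_const)
  have e2 : Measurable fun x => ∫ s in Iic x, v s := by
    have e : (fun x => ∫ s in Iic x, v s)
        = fun x => prim volume v x + (if x < 0 then 0 else ∫ s, v s) := by
      funext x
      rw [prim_Iic h.iv]
      ring
    rw [e]
    exact (measurable_prim h.meas_v).add
      (Measurable.ite measurableSet_Iio measurable_const measurable_const)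
  have e : T = fun x => (∫ s in Iic x, ω.eval s ∂φ) + ∫ s in Iic x, v s := by
    funext x; exact h.hT x
  rw [e]
  exact e1.add e2

theorem Sys.deriv_R (h : Sys φ ρ τ ω δ R T v) {x : ℝ} (hx : 0 < ρ.eval x) :
    HasDerivAt R (T x) x :=
  hasDeriv_of_inc (h.deriv_T hx).continuousAt h.meas_T (Eventually.of_forall fun y => h.R_inc x y)

theorem Sys.T_eq (h : Sys φ ρ τ ω δ R T v) {x : ℝ} (hx : 0 < ρ.eval x) :
    T x = τ.eval x * (R x / ρ.eval x) := by
  have := hasDeriv_of_inc (F := R) (f := fun t => τ.eval t * (R t / ρ.eval t)) (x := x)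
    (τ.continuous.continuousAt.mul (h.contQ hx))
    ((meas_poly τ).mul (h.cont.measurable.div (meas_poly ρ))) ?_
  · exact (h.deriv_R hx).unique this
  · filter_upwards [ev_seg (isOpen_pos ρ) hx] with y hy
    rw [h.R_inc x y]
    rcases le_total x y with hxy | hxy
    · rw [intervalIntegral.integral_of_le hxy, intervalIntegral.integral_of_le hxy,
        ← h.setInt measurableSet_Ioc fun t ht => hy t ?_]
      · exact (h.aT _ measurableSet_Ioc).symm
      · rw [uIcc_of_le hxy]
        exact Ioc_subset_Icc_self ht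
    · rw [intervalIntegral.integral_of_ge hxy, intervalIntegral.integral_of_ge hxy,
        ← h.setInt measurableSet_Ioc fun t ht => hy t ?_]
      · rw [h.aT _ measurableSet_Ioc]
      · rw [uIcc_of_ge hxy]
        exact Ioc_subset_Icc_self ht

theorem Sys.deriv_R' (h : Sys φ ρ τ ω δ R T v) {x : ℝ} (hx : 0 < ρ.eval x) :
    HasDerivAt R (τ.eval x * (R x / ρ.eval x)) x := by
  rw [← h.T_eq hx]
  exact h.deriv_R hx

theorem Sys.v_eq (h : Sys φ ρ τ ω δ R T v) {x : ℝ} (hx : 0 < ρ.eval x) :
    v x = (th ρ τ ω).eval x * R x / ρ.eval x ^ 2 := by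
  have d1 := h.deriv_T hx
  have d2 : HasDerivAt (fun t => τ.eval t * (R t / ρ.eval t))
      ((derivative τ).eval x * (R x / ρ.eval x) + τ.eval x *
        ((τ.eval x * (R x / ρ.eval x) * ρ.eval x - R x * (derivative ρ).eval x) / ρ.eval x ^ 2)) x :=
    (τ.hasDerivAt x).mul ((h.deriv_R' hx).div (ρ.hasDerivAt x) hx.ne')
  have e : T =ᶠ[𝓝 x] fun t => τ.eval t * (R t / ρ.eval t) := by
    filter_upwards [(isOpen_pos ρ).mem_nhds hx] with t ht
    exact h.T_eq ht
  have e2 := (d1.congr_of_eventuallyEq e.symm).unique d2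
  have e3 : v x = (derivative τ).eval x * (R x / ρ.eval x) + τ.eval x *
        ((τ.eval x * (R x / ρ.eval x) * ρ.eval x - R x * (derivative ρ).eval x) / ρ.eval x ^ 2)
        - ω.eval x * (R x / ρ.eval x) := by linarith
  rw [e3]
  unfold th
  simp only [eval_sub, eval_add, eval_mul]
  field_simp
  ring

/-- the polynomial identity -/
theorem Sys.cpoly (h : Sys φ ρ τ ω δ R T v) {x₀ : ℝ} (hx : 0 < ρ.eval x₀) (hR : 0 < R x₀) :
    ρ * derivative (th ρ τ ω) - 2 * derivative ρ * th ρ τ ω + τ * th ρ τ ω + δ * ρ * ρ = 0 := by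
  set U : Set ℝ := {x | 0 < ρ.eval x} ∩ {x | 0 < R x} with hU
  have hUo : IsOpen U := (isOpen_pos ρ).inter (isOpen_lt continuous_const h.cont)
  have hroot : ∀ x ∈ U, (ρ * derivative (th ρ τ ω) - 2 * derivative ρ * th ρ τ ω
      + τ * th ρ τ ω + δ * ρ * ρ).eval x = 0 := by
    intro x hxU
    have hx : 0 < ρ.eval x := hxU.1
    have hR : 0 < R x := hxU.2
    have d1 := h.deriv_v hx
    have d2 : HasDerivAt (fun t => (th ρ τ ω).eval t * R t / ρ.eval t ^ 2)
        ((((derivative (th ρ τ ω)).eval x * R x + (th ρ τ ω).eval x *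
          (τ.eval x * (R x / ρ.eval x))) * ρ.eval x ^ 2
          - (th ρ τ ω).eval x * R x * ((2 : ℕ) * ρ.eval x ^ (2 - 1) * (derivative ρ).eval x))
          / (ρ.eval x ^ 2) ^ 2) x :=
      (((th ρ τ ω).hasDerivAt x).mul (h.deriv_R' hx)).div ((ρ.hasDerivAt x).pow 2)
        (by positivity)
    have e : v =ᶠ[𝓝 x] fun t => (th ρ τ ω).eval t * R t / ρ.eval t ^ 2 := by
      filter_upwards [(isOpen_pos ρ).mem_nhds hx] with t ht
      exact h.v_eq ht
    have e2 := (d1.congr_of_eventuallyEq e.symm).unique d2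
    field_simp at e2
    simp only [eval_sub, eval_add, eval_mul, eval_ofNat]
    have e3 : eval x ρ * (eval x ρ * eval x (derivative (th ρ τ ω)) - 2 * eval x (derivative ρ) * eval x (th ρ τ ω)
      + eval x τ * eval x (th ρ τ ω) + eval x δ * eval x ρ * eval x ρ) = 0 := by
      push_cast at e2
      norm_num at e2
      linear_combination (-1) * e2
    rcases mul_eq_zero.1 e3 with e4 | e4
    · exact absurd e4 hx.ne'
    · exact e4
  refine Polynomial.eq_zero_of_infinite_isRoot _ (Set.Infinite.mono (fun x hxU => hroot x hxU) ?_)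
  exact infinite_of_mem_nhds x₀ (hUo.mem_nhds ⟨hx, hR⟩)

end Pool.Agent.U592.KR
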