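import Pool.Agent.U592.KR.Loc

/-!
# Local analysis of the system, part 2
-/

set_option autoImplicit false

open MeasureTheory Polynomial Set Filter Topology

namespace Pool.Agent.U592.KR

variable {φ : Measure ℝ} {ρ τ ω δ : ℝ[X]} {R T v : ℝ → ℝ}

theorem Sys.sol (h : Sys φ ρ τ ω δ R T v) {s : Set ℝ} (hs : IsOpen s) (hp : IsPreconnected s)
    (hpos : ∀ x ∈ s, 0 < ρ.eval x) (L : ℝ → ℝ)
    (hL : ∀ x ∈ s, HasDerivAt L (τ.eval x / ρ.eval x) x) {x y : ℝ} (hx : x ∈ s) (hy : y ∈ s) :
    R y = R x * Real.exp (L y - L x) := by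
  have hd : ∀ t ∈ s, HasDerivAt (fun t => R t * Real.exp (- L t)) 0 t := by
    intro t ht
    have h1 := (h.deriv_R' (hpos t ht)).mul ((hL t ht).neg.exp)
    refine h1.congr_deriv ?_
    have := (hpos t ht).ne'
    simp only [Pi.neg_apply]
    field_simp
    ring
  have hc := hs.is_const_of_deriv_eq_zero hp
    (fun t ht => (hd t ht).differentiableAt.differentiableWithinAt)
    (fun t ht => (hd t ht).deriv) hx hy
  have e : R y = R y * Real.exp (-L y) * Real.exp (L y) := by
    rw [mul_assoc, ← Real.exp_add]; simp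
  rw [e, ← hc, mul_assoc, ← Real.exp_add]
  congr 2
  ring

theorem Sys.pos_on (h : Sys φ ρ τ ω δ R T v) {s : Set ℝ} (hs : IsOpen s) (hp : IsPreconnected s)
    (hpos : ∀ x ∈ s, 0 < ρ.eval x) {x₀ : ℝ} (hx₀ : x₀ ∈ s) (hR : 0 < R x₀) :
    ∀ x ∈ s, 0 < R x := by
  intro x hx
  have hoc := hp.ordConnected
  have hcont : ∀ t ∈ s, ContinuousAt (fun t => τ.eval t / ρ.eval t) t := fun t ht =>
    τ.continuous.continuousAt.div ρ.continuous.continuousAt (hpos t ht).ne'
  have hL : ∀ x ∈ s, HasDerivAt (fun x => ∫ t in x₀..x, τ.eval t / ρ.eval t)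
      (τ.eval x / ρ.eval x) x := by
    intro x hx
    refine intervalIntegral.integral_hasDerivAt_right ?_ ?_ (hcont x hx)
    · refine ContinuousOn.intervalIntegrable fun t ht => ?_
      exact (hcont t (hoc.uIcc_subset hx₀ hx ht)).continuousWithinAt
    · exact ((meas_poly τ).div (meas_poly ρ)).stronglyMeasurable.stronglyMeasurableAtFilter
  rw [h.sol hs hp hpos _ hL hx₀ hx]
  positivity

theorem Sys.R_neg (h : Sys φ ρ τ ω δ R T v) {x : ℝ} (hx : ρ.eval x < 0) : R x = 0 := by
  by_contra hne
  have hRx : 0 < R x := lt_of_le_of_ne (h.R0 x) (Ne.symm hne)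
  set W : Set ℝ := {x | ρ.eval x < 0} ∩ {x | 0 < R x} with hW
  have hWo : IsOpen W := (isOpen_lt ρ.continuous continuous_const).inter
    (isOpen_lt continuous_const h.cont)
  have e := congrArg (fun μ => μ W) h.P_eq
  simp only [P] at e
  rw [withDensity_apply _ hWo.measurableSet, withDensity_apply _ hWo.measurableSet] at e
  have e1 : ∫⁻ x in W, ENNReal.ofReal (ρ.eval x) ∂φ = 0 := by
    rw [setLIntegral_congr_fun (g := fun _ => 0) hWo.measurableSet]
    · simp
    · intro t ht
      have : ρ.eval t < 0 := ht.1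
      simp [this.le]
  rw [e1] at e
  have e2 := (lintegral_eq_zero_iff h.cont.measurable.ennreal_ofReal).1 e.symm
  have e3 : ∀ᵐ t ∂(volume.restrict W), False := by
    filter_upwards [e2, ae_restrict_mem hWo.measurableSet] with t h1 h2
    have : 0 < R t := h2.2
    simp only [Pi.zero_apply, ENNReal.ofReal_eq_zero] at h1
    linarith
  have e6 := ae_iff.1 e3
  simp only [not_false_eq_true, Set.ofPred_true, Measure.restrict_apply_univ] at e6
  exact (hWo.measure_pos volume ⟨x, hx, hRx⟩).ne' e6

theorem Sys.inc_null (h : Sys φ ρ τ ω δ R T v) (q : ℝ[X]) {x y : ℝ}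
    (hS : ∀ t ∈ uIcc x y, ρ.eval t < 0) :
    (∫ s in Iic y, q.eval s ∂φ) - ∫ s in Iic x, q.eval s ∂φ = 0 := by
  rcases le_total x y with hxy | hxy
  · rw [Iic_sub (h.mom.int q) hxy]
    refine setIntegral_measure_zero _ (measure_mono_null (fun t ht => ?_) h.neg)
    refine hS t ?_
    rw [uIcc_of_le hxy]
    exact Ioc_subset_Icc_self ht
  · have : (∫ s in Iic x, q.eval s ∂φ) - ∫ s in Iic y, q.eval s ∂φ = 0 := by
      rw [Iic_sub (h.mom.int q) hxy]
      refine setIntegral_measure_zero _ (measure_mono_null (fun t ht => ?_) h.neg)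
      refine hS t ?_
      rw [uIcc_of_ge hxy]
      exact Ioc_subset_Icc_self ht
    linarith

theorem Sys.neg_pt (h : Sys φ ρ τ ω δ R T v) {x : ℝ} (hx : ρ.eval x < 0) :
    T x = 0 ∧ v x = 0 := by
  have hU : IsOpen {x : ℝ | ρ.eval x < 0} := isOpen_lt ρ.continuous continuous_const
  -- the value of `T`
  have hT0 : ∀ x : ℝ, ρ.eval x < 0 → T x = 0 := by
    intro x hx
    have hinc : ∀ᶠ y in 𝓝 x, T y - T x = ∫ t in x..y, v t := by
      filter_upwards [ev_seg hU hx] with y hy
      rw [h.hT y, h.hT x, ← h.v_inc]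
      have := h.inc_null ω hy
      linarith
    have hcont : ContinuousAt T x := by
      have h1 : ContinuousAt (fun y => T x + ∫ t in x..y, v t) x :=
        (continuous_const.add (intervalIntegral.continuous_primitive
          (fun a b => h.iv.intervalIntegrable) x)).continuousAt
      refine h1.congr ?_
      filter_upwards [hinc] with y hy
      linarith
    have hd : HasDerivAt R (T x) x :=
      hasDeriv_of_inc hcont h.meas_T (Eventually.of_forall fun y => h.R_inc x y)
    have hz : R =ᶠ[𝓝 x] fun _ => 0 := by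
      filter_upwards [hU.mem_nhds hx] with y hy
      exact h.R_neg hy
    exact hd.unique ((hasDerivAt_const x (0 : ℝ)).congr_of_eventuallyEq hz)
  refine ⟨hT0 x hx, ?_⟩
  have hv : v =ᶠ[𝓝 x] fun _ => v x := by
    filter_upwards [ev_seg hU hx] with y hy
    rw [h.hv y, h.hv x]
    have := h.inc_null δ hy
    linarith
  have hcv : ContinuousAt v x := (continuousAt_const (y := v x)).congr hv.symm
  have hinc : ∀ᶠ y in 𝓝 x, T y - T x = ∫ t in x..y, v t := by
    filter_upwards [ev_seg hU hx] with y hy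
    rw [h.hT y, h.hT x, ← h.v_inc]
    have := h.inc_null ω hy
    linarith
  have hd : HasDerivAt T (v x) x := hasDeriv_of_inc hcv h.meas_v hinc
  have hz : T =ᶠ[𝓝 x] fun _ => 0 := by
    filter_upwards [hU.mem_nhds hx] with y hy
    exact hT0 y hy
  exact hd.unique ((hasDerivAt_const x (0 : ℝ)).congr_of_eventuallyEq hz)

/-- jumps -/
theorem Sys.jump (h : Sys φ ρ τ ω δ R T v) {x a : ℝ} (hxa : x < a) (hφ : φ (Ioo x a) = 0)
    (hT : T x = 0) (hv : ∀ y ∈ Ico x a, v y = 0) :
    T a = ω.eval a * φ.real {a} ∧ v a = -(δ.eval a * φ.real {a}) := by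
  have key : ∀ q : ℝ[X], ∫ s in Ioc x a, q.eval s ∂φ = q.eval a * φ.real {a} := by
    intro q
    have e : Ioc x a =ᵐ[φ] ({a} : Set ℝ) := by
      have h1 : ∀ᵐ t ∂φ, t ∉ Ioo x a := by
        rw [ae_iff]
        have e0 : {t : ℝ | ¬ t ∉ Ioo x a} = Ioo x a := by
          ext t; simp
        rw [e0]; exact hφ
      filter_upwards [h1] with t ht
      apply propext
      constructor
      · intro h2
        have h3 : t ∈ Ioc x a := h2
        rcases h3.2.lt_or_eq with h4 | h4
        · exact absurd ⟨h3.1, h4⟩ ht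
        · exact h4
      · intro h2
        have h3 : t = a := h2
        subst h3
        exact ⟨hxa, le_rfl⟩
    rw [setIntegral_congr_set e]
    rw [integral_singleton]
    simp [mul_comm]
  constructor
  · have e1 : T a - T x = (∫ s in Ioc x a, ω.eval s ∂φ) + ∫ s in Ioc x a, v s := by
      rw [h.hT a, h.hT x, ← Iic_sub (h.mom.int ω) hxa.le, ← Iic_sub h.iv hxa.le]
      ring
    have e2 : ∫ s in Ioc x a, v s = 0 := by
      rw [← integral_Ico_eq_integral_Ioc]
      rw [setIntegral_congr_fun (g := fun _ => 0) measurableSet_Ico fun t ht => hv t ht]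
      simp
    rw [e2, key, hT] at e1
    linarith
  · have e1 : v a - v x = - ∫ s in Ioc x a, δ.eval s ∂φ := by
      rw [h.hv a, h.hv x, ← Iic_sub (h.mom.int δ) hxa.le]
      ring
    rw [key, hv x ⟨le_rfl, hxa⟩] at e1
    linarith

theorem bdd_poly (q : ℝ[X]) (a b : ℝ) : ∃ M : ℝ, 0 ≤ M ∧ ∀ x ∈ Icc a b, |q.eval x| ≤ M := by
  obtain ⟨M, hM⟩ := isCompact_Icc.exists_bound_of_continuousOn (s := Icc a b)
    (f := fun x => q.eval x) q.continuous.continuousOn
  exact ⟨max M 0, le_max_right _ _, fun x hx => (hM x hx).trans (le_max_left _ _)⟩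

/-- simple roots -/
theorem Sys.simple (h : Sys φ ρ τ ω δ R T v) {a b : ℝ} (hab : a < b)
    (hpos : ∀ x ∈ Ioo a b, 0 < ρ.eval x) (ha : ρ.eval a = 0)
    (hd : (derivative ρ).eval a ≠ 0) : ∀ x ∈ Ioo a b, R x = 0 := by
  have fin := h.fin
  obtain ⟨q, hq⟩ := dvd_iff_isRoot.2 (show ρ.IsRoot a from ha)
  have hqe : ∀ x, ρ.eval x = (x - a) * q.eval x := fun x => by rw [hq]; simp
  have hqa : (derivative ρ).eval a = q.eval a := by
    rw [hq]; simp
  have hqpos : 0 < q.eval a := by
    have h1 : 0 ≤ q.eval a := by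
      have ht : Tendsto (fun x => q.eval x) (𝓝[>] a) (𝓝 (q.eval a)) :=
        (q.continuous.continuousAt (x := a)).mono_left nhdsWithin_le_nhds
      refine ge_of_tendsto ht ?_
      filter_upwards [Ioo_mem_nhdsGT hab] with x hx
      have h2 := hpos x hx
      rw [hqe] at h2
      by_contra hlt
      rw [not_le] at hlt
      have := mul_neg_of_pos_of_neg (sub_pos.2 hx.1) hlt
      linarith
    rw [hqa] at hd
    exact lt_of_le_of_ne h1 (Ne.symm hd)
  set k : ℝ := q.eval a / 2 with hk
  have hk0 : 0 < k := by positivity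
  obtain ⟨ε, hε, hε'⟩ : ∃ ε > 0, ∀ x, |x - a| < ε → k < q.eval x := by
    have hev : ∀ᶠ x in 𝓝 a, k < q.eval x :=
      q.continuous.continuousAt.eventually (lt_mem_nhds (by rw [hk]; linarith))
    obtain ⟨ε, hε, hb⟩ := Metric.eventually_nhds_iff.1 hev
    exact ⟨ε, hε, fun x hx => hb (by rwa [Real.dist_eq])⟩
  have hneg : ∀ x ∈ Ioo (a - ε) a, ρ.eval x < 0 := by
    intro x hx
    rw [hqe]
    have h1 : 0 < q.eval x := hk0.trans (hε' x (by rw [abs_of_neg (by linarith [hx.2])]; linarith [hx.1]))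
    exact mul_neg_of_neg_of_pos (by linarith [hx.2]) h1
  have hRa : R a = 0 := by
    have ht : Tendsto R (𝓝[<] a) (𝓝 (R a)) := h.cont.continuousAt.mono_left nhdsWithin_le_nhds
    refine tendsto_nhds_unique ht (tendsto_const_nhds.congr' ?_)
    filter_upwards [Ioo_mem_nhdsLT (show a - ε < a by linarith)] with x hx
    exact (h.R_neg (hneg x hx)).symm
  obtain ⟨jT, jv⟩ := h.jump (x := a - ε / 2) (a := a) (by linarith)
    (measure_mono_null (fun t ht => hneg t ⟨by linarith [ht.1], ht.2⟩) h.neg)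
    (h.neg_pt (hneg _ ⟨by linarith, by linarith⟩)).1
    (fun y hy => (h.neg_pt (hneg y ⟨by linarith [hy.1], hy.2⟩)).2)
  -- it suffices to find a right neighbourhood where `R` vanishes
  suffices hsuff : ∃ x₁, a < x₁ ∧ x₁ < b ∧ R x₁ = 0 by
    obtain ⟨x₁, h1, h2, h3⟩ := hsuff
    intro x hx
    by_contra hne
    have hRx : 0 < R x := lt_of_le_of_ne (h.R0 x) (Ne.symm hne)
    have := h.pos_on isOpen_Ioo isPreconnected_Ioo hpos hx hRx x₁ ⟨h1, h2⟩
    linarith
  by_cases hτ : τ.eval a = 0
  · obtain ⟨τ₂, hτ₂⟩ := dvd_iff_isRoot.2 (show τ.IsRoot a from hτ)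
    have hτe : ∀ x, τ.eval x = (x - a) * τ₂.eval x := fun x => by rw [hτ₂]; simp
    obtain ⟨M₂, hM₂, hM₂'⟩ := bdd_poly τ₂ a b
    set x₁ : ℝ := a + min (ε / 2) ((b - a) / 2) with hx₁
    have hm : 0 < min (ε / 2) ((b - a) / 2) := lt_min (by linarith) (by linarith)
    have hm1 : min (ε / 2) ((b - a) / 2) ≤ ε / 2 := min_le_left _ _
    have hm2 : min (ε / 2) ((b - a) / 2) ≤ (b - a) / 2 := min_le_right _ _
    refine ⟨x₁, by linarith, by linarith, ?_⟩
    set M : ℝ := M₂ / k with hM
    have hanti : AntitoneOn (fun x => R x * Real.exp (-(M * x))) (Icc a x₁) := by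
      refine antitoneOn_of_deriv_nonpos (convex_Icc _ _) ?_ ?_ ?_
      · exact (h.cont.mul (by fun_prop)).continuousOn
      · intro x hx
        rw [interior_Icc] at hx
        have hx' : 0 < ρ.eval x := hpos x ⟨hx.1, by linarith [hx.2]⟩
        exact ((h.deriv_R' hx').mul
          ((((hasDerivAt_id x).const_mul M).neg).exp)).differentiableAt.differentiableWithinAt
      · intro x hx
        rw [interior_Icc] at hx
        have hx' : 0 < ρ.eval x := hpos x ⟨hx.1, by linarith [hx.2]⟩
        have hd := (h.deriv_R' hx').mul ((((hasDerivAt_id x).const_mul M).neg).exp)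
        have e := hd.deriv
        have e' : deriv (fun x => R x * Real.exp (-(M * x))) x
          = (τ.eval x * (R x / ρ.eval x)) * Real.exp (-(M * x))
            + R x * (Real.exp (-(M * x)) * -(M * 1)) := e
        rw [e']
        have hxa : 0 < x - a := by linarith [hx.1]
        have hq1 : k < q.eval x := hε' x (by rw [abs_of_pos hxa]; linarith [hx.2])
        have e2 : τ.eval x * (R x / ρ.eval x) = R x * (τ₂.eval x / q.eval x) := by
          rw [hqe, hτe]
          have := (hk0.trans hq1).ne'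
          field_simp
        have e3 : τ₂.eval x / q.eval x ≤ M := by
          rw [hM, div_le_div_iff₀ (hk0.trans hq1) hk0]
          have h1 := (le_abs_self _).trans (hM₂' x ⟨hx.1.le, by linarith [hx.2]⟩)
          nlinarith
        rw [e2]
        have h3 := h.R0 x
        have h4 := Real.exp_pos (-(M * x))
        have h5 : R x * (τ₂.eval x / q.eval x) * Real.exp (-(M * x))
            + R x * (Real.exp (-(M * x)) * -(M * 1))
            = (R x * Real.exp (-(M * x))) * (τ₂.eval x / q.eval x - M) := by ring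
        rw [h5]
        exact mul_nonpos_of_nonneg_of_nonpos (by positivity) (by linarith)
    have h1 := hanti (left_mem_Icc.2 (by linarith)) (right_mem_Icc.2 (by linarith)) (by linarith : a ≤ x₁)
    simp only [hRa, zero_mul] at h1
    have h2 := Real.exp_pos (-(M * x₁))
    have h3 := h.R0 x₁
    by_contra hne
    have : 0 < R x₁ := lt_of_le_of_ne h3 (Ne.symm hne)
    have := mul_pos this h2
    linarith
  · -- no atom
    have hm0 : φ.real {a} = 0 := by
      have e := h.aT {a} (measurableSet_singleton a)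
      rw [integral_singleton, integral_singleton] at e
      simp only [smul_eq_mul] at e
      have : volume.real ({a} : Set ℝ) = 0 := by simp [Measure.real]
      rw [this, zero_mul] at e
      rcases mul_eq_zero.1 e with e | e
      · exact e
      · exact absurd e hτ
    rw [hm0, mul_zero] at jT jv
    rw [neg_zero] at jv
    obtain ⟨W, hW0, hW⟩ := bdd_poly ω a (a + 1)
    obtain ⟨D, hD0, hD⟩ := bdd_poly δ a (a + 1)
    set r : ℝ := min (min (ε / 2) ((b - a) / 2)) (min 1 (k / (2 * (W + D + 1)))) with hr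
    have hr0 : 0 < r := by
      refine lt_min (lt_min (by linarith) (by linarith)) (lt_min one_pos (by positivity))
    have r1 : r ≤ ε / 2 := (min_le_left _ _).trans (min_le_left _ _)
    have r2 : r ≤ (b - a) / 2 := (min_le_left _ _).trans (min_le_right _ _)
    have r3 : r ≤ 1 := (min_le_right _ _).trans (min_le_left _ _)
    have r4 : r ≤ k / (2 * (W + D + 1)) := (min_le_right _ _).trans (min_le_right _ _)
    set x₁ : ℝ := a + r with hx₁
    set N : ℝ := φ.real (Ioc a x₁) with hN
    have hN0 : 0 ≤ N := measureReal_nonneg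
    have hmono : ∀ s ∈ Ioc a x₁, φ.real (Ioc a s) ≤ N := fun s hs =>
      measureReal_mono (Ioc_subset_Ioc_right hs.2) (measure_ne_top _ _)
    have bq : ∀ (p : ℝ[X]) (B : ℝ), 0 ≤ B → (∀ x ∈ Icc a (a + 1), |p.eval x| ≤ B) →
        ∀ s ∈ Ioc a x₁, |∫ t in Ioc a s, p.eval t ∂φ| ≤ B * N := by
      intro p B hB0 hB s hs
      have h1 : ‖∫ t in Ioc a s, p.eval t ∂φ‖ ≤ B * φ.real (Ioc a s) := by
        refine norm_setIntegral_le_of_norm_le_const (measure_lt_top _ _) fun x hx => ?_
        exact hB x ⟨hx.1.le, by linarith [hx.2, hs.2]⟩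
      exact h1.trans (mul_le_mul_of_nonneg_left (hmono s hs) hB0)
    have bv : ∀ s ∈ Ioc a x₁, |v s| ≤ D * N := by
      intro s hs
      have e1 : v s = v a - ∫ t in Ioc a s, δ.eval t ∂φ := by
        rw [h.hv s, h.hv a, ← Iic_sub (h.mom.int δ) hs.1.le]
        ring
      rw [e1, jv, zero_sub, abs_neg]
      exact bq δ D hD0 hD s hs
    have bT : ∀ s ∈ Ioc a x₁, |T s| ≤ (W + D) * N := by
      intro s hs
      have e1 : T s = T a + (∫ t in Ioc a s, ω.eval t ∂φ) + ∫ t in Ioc a s, v t := by
        rw [h.hT s, h.hT a, ← Iic_sub (h.mom.int ω) hs.1.le, ← Iic_sub h.iv hs.1.le]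
        ring
      rw [e1, jT, zero_add]
      have e2 : |∫ t in Ioc a s, v t| ≤ D * N := by
        have h1 : ‖∫ t in Ioc a s, v t‖ ≤ (D * N) * volume.real (Ioc a s) := by
          refine norm_setIntegral_le_of_norm_le_const measure_Ioc_lt_top fun x hx => ?_
          exact bv x ⟨hx.1, hx.2.trans hs.2⟩
        have h2 : volume.real (Ioc a s) ≤ 1 := by
          rw [Real.volume_real_Ioc_of_le hs.1.le]
          linarith [hs.2]
        refine h1.trans ?_
        nlinarith [mul_nonneg hD0 hN0]
      have e3 := bq ω W hW0 hW s hs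
      calc _ ≤ |∫ t in Ioc a s, ω.eval t ∂φ| + |∫ t in Ioc a s, v t| := abs_add_le _ _
        _ ≤ (W + D) * N := by linarith
    have bR : ∀ s ∈ Ioc a x₁, R s ≤ (s - a) * ((W + D) * N) := by
      intro s hs
      have e1 : R s = ∫ t in Ioc a s, T t := by
        have := h.R_inc a s
        rw [hRa, sub_zero, intervalIntegral.integral_of_le hs.1.le] at this
        exact this
      have h1 : ‖∫ t in Ioc a s, T t‖ ≤ ((W + D) * N) * volume.real (Ioc a s) := by
        refine norm_setIntegral_le_of_norm_le_const measure_Ioc_lt_top fun x hx => ?_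
        exact bT x ⟨hx.1, hx.2.trans hs.2⟩
      rw [Real.volume_real_Ioc_of_le hs.1.le] at h1
      rw [e1]
      refine (le_abs_self _).trans (h1.trans (le_of_eq (mul_comm _ _)))
    have hNN : N ≤ N / 2 := by
      have e1 : N = ∫ t in Ioc a x₁, (1 : ℝ) * (R t / ρ.eval t) := by
        rw [← h.setInt measurableSet_Ioc]
        · simp [hN, Measure.real]
        · intro x hx
          exact hpos x ⟨hx.1, by linarith [hx.2]⟩
      have h1 : ‖∫ t in Ioc a x₁, (1 : ℝ) * (R t / ρ.eval t)‖
          ≤ ((W + D) * N / k) * volume.real (Ioc a x₁) := by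
        refine norm_setIntegral_le_of_norm_le_const measure_Ioc_lt_top fun x hx => ?_
        have hxa : 0 < x - a := by linarith [hx.1]
        have hq1 : k < q.eval x := hε' x (by rw [abs_of_pos hxa]; linarith [hx.2])
        have hρx : 0 < ρ.eval x := hpos x ⟨hx.1, by linarith [hx.2]⟩
        rw [one_mul, Real.norm_eq_abs, abs_of_nonneg (div_nonneg (h.R0 x) hρx.le),
          div_le_div_iff₀ hρx hk0]
        have h2 := bR x hx
        have h3 : (x - a) * k ≤ ρ.eval x := by
          rw [hqe]
          exact mul_le_mul_of_nonneg_left hq1.le hxa.le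
        have h4 : 0 ≤ (W + D) * N := by positivity
        calc R x * k ≤ ((x - a) * ((W + D) * N)) * k := by gcongr
          _ = ((W + D) * N) * ((x - a) * k) := by ring
          _ ≤ ((W + D) * N) * ρ.eval x := by gcongr
      rw [Real.volume_real_Ioc_of_le (by linarith), show x₁ - a = r by rw [hx₁]; ring] at h1
      have h5 : (W + D) * N / k * r ≤ N / 2 := by
        have h6 : (W + D) * N / k * r ≤ (W + D) * N / k * (k / (2 * (W + D + 1))) := by
          gcongr
        refine h6.trans ?_
        have h7 : (W + D) * N / k * (k / (2 * (W + D + 1))) = ((W + D) / (W + D + 1)) * (N / 2) := by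
          field_simp
        rw [h7]
        have h8 : (W + D) / (W + D + 1) ≤ 1 := by
          rw [div_le_one (by positivity)]
          linarith
        have : 0 ≤ N / 2 := by positivity
        nlinarith
      calc N = ∫ t in Ioc a x₁, (1 : ℝ) * (R t / ρ.eval t) := e1
        _ ≤ ‖∫ t in Ioc a x₁, (1 : ℝ) * (R t / ρ.eval t)‖ := le_abs_self _
        _ ≤ _ := h1.trans h5
    have hNz : N = 0 := by linarith
    refine ⟨x₁, by linarith, by linarith, ?_⟩
    have := bR x₁ ⟨by linarith, le_rfl⟩
    rw [hNz, mul_zero, mul_zero] at this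
    exact le_antisymm this (h.R0 _)

/-- behaviour at infinity -/
theorem Sys.inf (h : Sys φ ρ τ ω δ R T v) {X₀ : ℝ} (hX : 0 < X₀) (M : ℕ)
    (hpos : ∀ x, X₀ < x → 0 < ρ.eval x)
    (hτ : ∀ x, X₀ < x → -(M : ℝ) * ρ.eval x ≤ x * τ.eval x) : ∀ x, X₀ < x → R x = 0 := by
  intro x₂ hx₂
  by_contra hne
  have hRx : 0 < R x₂ := lt_of_le_of_ne (h.R0 x₂) (Ne.symm hne)
  have hRp := h.pos_on isOpen_Ioi isPreconnected_Ioi (s := Ioi X₀) hpos hx₂ hRx
  have hmono : MonotoneOn (fun x => x ^ (M + 1) * R x) (Ici x₂) := by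
    refine monotoneOn_of_deriv_nonneg (convex_Ici _) ?_ ?_ ?_
    · exact ((continuous_pow _).mul h.cont).continuousOn
    · intro x hx
      rw [interior_Ici] at hx
      have hx' : 0 < ρ.eval x := hpos x (hx₂.trans hx)
      exact ((hasDerivAt_pow (M + 1) x).mul (h.deriv_R' hx')).differentiableAt.differentiableWithinAt
    · intro x hx
      rw [interior_Ici] at hx
      have hxX : X₀ < x := hx₂.trans hx
      have hx' : 0 < ρ.eval x := hpos x hxX
      have hd := (hasDerivAt_pow (M + 1) x).mul (h.deriv_R' hx')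
      have e := hd.deriv
      have e' : deriv (fun x => x ^ (M + 1) * R x) x
          = (((M + 1 : ℕ) : ℝ) * x ^ M) * R x + x ^ (M + 1) * (τ.eval x * (R x / ρ.eval x)) := e
      rw [e']
      have e2 : (((M + 1 : ℕ) : ℝ) * x ^ M) * R x + x ^ (M + 1) * (τ.eval x * (R x / ρ.eval x))
          = x ^ M * (R x / ρ.eval x) * (x * τ.eval x + (M + 1) * ρ.eval x) := by
        push_cast
        field_simp
        ring
      rw [e2]
      have h1 := hτ x hxX
      have h2 : 0 ≤ R x / ρ.eval x := div_nonneg (h.R0 x) hx'.le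
      have h3 : 0 < x := hX.trans hxX
      have h4 : 0 ≤ x * τ.eval x + (M + 1) * ρ.eval x := by nlinarith
      positivity
  set c : ℝ := x₂ ^ (M + 1) * R x₂ with hc
  have hc0 : 0 < c := by
    have : 0 < x₂ := hX.trans hx₂
    positivity
  have hi : IntegrableOn (fun _ : ℝ => c) (Ioi x₂) := by
    refine (h.iR (M + 1)).integrableOn.mono' measurable_const.aestronglyMeasurable ?_
    refine (ae_restrict_iff' measurableSet_Ioi).2 (Eventually.of_forall fun x hx => ?_)
    rw [Real.norm_eq_abs, abs_of_pos hc0]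
    have hx' : x₂ ≤ x := le_of_lt hx
    exact hmono self_mem_Ici hx' hx'
  rw [integrableOn_const_iff (by simp)] at hi
  simp only [Real.volume_Ioi, lt_self_iff_false, or_false] at hi
  exact hc0.ne' (by simpa using hi)

end Pool.Agent.U592.KR
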