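import Pool.Agent.U592.KR.Loc2

/-!
# Atoms at the end points; degree and root lemmas
-/

set_option autoImplicit false

open MeasureTheory Polynomial Set Filter Topology

namespace Pool.Agent.U592.KR

variable {φ : Measure ℝ} {ρ τ ω δ : ℝ[X]} {R T v : ℝ → ℝ}

/-- the polynomial `θ / (x - a) ^ 2` -/
noncomputable def th' (a : ℝ) (q τ₁ ω : ℝ[X]) : ℝ[X] :=
  τ₁ * τ₁ - τ₁ * (2 * q + (X - C a) * derivative q)
    + q * (τ₁ + (X - C a) * derivative τ₁) - q * ω

theorem th_eq (a : ℝ) (q τ₁ ω : ℝ[X]) :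
    th ((X - C a) ^ 2 * q) ((X - C a) * τ₁) ω = (X - C a) ^ 2 * th' a q τ₁ ω := by
  unfold th th'
  have e1 : derivative ((X - C a) ^ 2 * q) = 2 * (X - C a) * q + (X - C a) ^ 2 * derivative q := by
    rw [derivative_mul]
    simp [derivative_pow, map_ofNat]
  have e2 : derivative ((X - C a) * τ₁) = τ₁ + (X - C a) * derivative τ₁ := by
    rw [derivative_mul]
    simp
  rw [e1, e2]
  ring

theorem tendsto_Ioc {F : ℝ → ℝ} {a c : ℝ} (hac : a < c) (hF : IntegrableOn F (Ioc a c)) :
    Tendsto (fun x => ∫ t in Ioc a x, F t) (𝓝[>] a) (𝓝 0) := by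
  set G : ℝ → ℝ := (Ioc a c).indicator F with hG
  have hGi : Integrable G := (integrable_indicator_iff measurableSet_Ioc).2 hF
  have hc : Continuous fun x => ∫ t in a..x, G t :=
    intervalIntegral.continuous_primitive (fun a b => hGi.intervalIntegrable) a
  have h0 : Tendsto (fun x => ∫ t in a..x, G t) (𝓝[>] a) (𝓝 0) := by
    have := (hc.continuousAt (x := a)).mono_left (nhdsWithin_le_nhds (s := Ioi a))
    simpa only [intervalIntegral.integral_same] using this
  refine h0.congr' ?_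
  filter_upwards [Ioo_mem_nhdsGT hac] with x hx
  rw [intervalIntegral.integral_of_le hx.1.le]
  refine setIntegral_congr_fun measurableSet_Ioc fun t ht => ?_
  show (Ioc a c).indicator F t = F t
  exact indicator_of_mem (show t ∈ Ioc a c from ⟨ht.1, ht.2.trans hx.2.le⟩) F

/-- Right continuity. -/
theorem Sys.right_lim (h : Sys φ ρ τ ω δ R T v) {a b : ℝ} (hab : a < b)
    (hpos : ∀ x ∈ Ioo a b, 0 < ρ.eval x) :
    Tendsto v (𝓝[>] a) (𝓝 (v a)) ∧ Tendsto T (𝓝[>] a) (𝓝 (T a)) := by
  set c : ℝ := (a + b) / 2 with hc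
  have hac : a < c := by rw [hc]; linarith
  have hcb : c < b := by rw [hc]; linarith
  have key : ∀ q : ℝ[X], Tendsto (fun x => ∫ t in Ioc a x, q.eval t ∂φ) (𝓝[>] a) (𝓝 0) := by
    intro q
    have h1 : IntegrableOn (fun t => q.eval t * (R t / ρ.eval t)) (Ioc a c) :=
      h.intOn measurableSet_Ioc (fun x hx => hpos x ⟨hx.1, hx.2.trans_lt hcb⟩) _
        (h.mom.int q).integrableOn
    refine (tendsto_Ioc hac h1).congr' ?_
    filter_upwards [Ioo_mem_nhdsGT hac] with x hx
    exact (h.setInt measurableSet_Ioc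
      (fun t ht => hpos t ⟨ht.1, (ht.2.trans hx.2.le).trans_lt hcb⟩) _).symm
  have hv : Tendsto v (𝓝[>] a) (𝓝 (v a)) := by
    have h1 : Tendsto (fun x => v a - ∫ t in Ioc a x, δ.eval t ∂φ) (𝓝[>] a) (𝓝 (v a - 0)) :=
      (key δ).const_sub _
    rw [sub_zero] at h1
    refine h1.congr' ?_
    filter_upwards [self_mem_nhdsWithin] with x hx
    have hx' : a ≤ x := le_of_lt hx
    rw [h.hv a, h.hv x, ← Iic_sub (h.mom.int δ) hx']
    ring
  refine ⟨hv, ?_⟩
  have h1 : Tendsto (fun x => T a + ((∫ t in Ioc a x, ω.eval t ∂φ) + ∫ t in Ioc a x, v t))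
      (𝓝[>] a) (𝓝 (T a + (0 + 0))) :=
    ((key ω).add (tendsto_Ioc hac h.iv.integrableOn)).const_add _
  rw [add_zero, add_zero] at h1
  refine h1.congr' ?_
  filter_upwards [self_mem_nhdsWithin] with x hx
  have hx' : a ≤ x := le_of_lt hx
  rw [h.hT a, h.hT x, ← Iic_sub (h.mom.int ω) hx', ← Iic_sub h.iv hx']
  ring

theorem lin_poly {δ : ℝ[X]} (hd : δ.natDegree ≤ 1) {a : ℝ} (ha : δ.eval a = 0) :
    ∀ x, δ.eval x = δ.coeff 1 * (x - a) := by
  intro x
  have h1 : ∀ y, δ.eval y = δ.coeff 1 * y + δ.coeff 0 := by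
    intro y
    conv_lhs => rw [eq_X_add_C_of_natDegree_le_one hd]
    simp
  have h2 := h1 a
  rw [h1 x]
  rw [ha] at h2
  linarith

theorem Sys.left_vals (h : Sys φ ρ τ ω δ R T v) {a : ℝ} (hφ : φ (Iio a) = 0) :
    T a = ω.eval a * φ.real {a} ∧ v a = -(δ.eval a * φ.real {a}) := by
  have hz : ∀ (q : ℝ[X]) (x : ℝ), x < a → ∫ s in Iic x, q.eval s ∂φ = 0 := by
    intro q x hx
    exact setIntegral_measure_zero _ (measure_mono_null (fun t ht => lt_of_le_of_lt ht hx) hφ)
  have hv : ∀ x, x < a → v x = 0 := by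
    intro x hx
    rw [h.hv, hz δ x hx]; simp
  refine h.jump (x := a - 1) (by linarith) (measure_mono_null (fun t ht => ht.2) hφ) ?_ ?_
  · rw [h.hT, hz ω _ (by linarith)]
    rw [setIntegral_congr_fun (g := fun _ => 0) measurableSet_Iic fun t ht =>
      hv t (lt_of_le_of_lt ht (by linarith : a - 1 < a))]
    simp
  · intro y hy
    exact hv y hy.2

/-- An atom at a double root at the left end of the support. -/
theorem Sys.mass (h : Sys φ ρ τ ω δ R T v) {a b : ℝ} (hab : a < b) (hφ : φ (Iio a) = 0)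
    (hm : φ.real {a} ≠ 0) (hφ2 : φ (Ioi a) ≠ 0) (q τ₁ : ℝ[X]) (hρ : ρ = (X - C a) ^ 2 * q)
    (hq : 0 < q.eval a) (hτ : τ = (X - C a) * τ₁) (P : ℝ) (hP : τ₁.eval a = P * q.eval a)
    (hP1 : 1 < P) (g : ℝ → ℝ) (hg : Tendsto g (𝓝[>] a) (𝓝 (g a))) (hga : 0 < g a)
    (hR : ∀ x ∈ Ioo a b, R x = (x - a) ^ P * g x) (hpos : ∀ x ∈ Ioo a b, 0 < ρ.eval x) :
    P = 2 ∧ ω.eval a = 0 ∧ -(δ.eval a * φ.real {a}) = 2 * g a := by
  have fin := h.fin
  obtain ⟨jT, jv⟩ := h.left_vals hφ
  obtain ⟨lv, lT⟩ := h.right_lim hab hpos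
  have tq : ∀ p : ℝ[X], Tendsto (fun x => p.eval x) (𝓝[>] a) (𝓝 (p.eval a)) := fun p =>
    (p.continuous.continuousAt (x := a)).mono_left nhdsWithin_le_nhds
  have hρe : ∀ x, ρ.eval x = (x - a) ^ 2 * q.eval x := fun x => by rw [hρ]; simp
  have hτe : ∀ x, τ.eval x = (x - a) * τ₁.eval x := fun x => by rw [hτ]; simp
  have hqx : ∀ x ∈ Ioo a b, 0 < q.eval x := by
    intro x hx
    have h1 := hpos x hx
    rw [hρe] at h1
    have h2 : 0 < (x - a) ^ 2 := by have := hx.1; have : 0 < x - a := by linarith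
                                    positivity
    by_contra hlt
    rw [not_lt] at hlt
    have := mul_nonpos_of_nonneg_of_nonpos h2.le hlt
    linarith
  have tpow : ∀ s : ℝ, 0 < s → Tendsto (fun x => (x - a) ^ s) (𝓝[>] a) (𝓝 0) := by
    intro s hs
    have h1 : ContinuousAt (fun x : ℝ => (x - a) ^ s) a := by
      refine ContinuousAt.rpow_const (by fun_prop) (Or.inr hs.le)
    have h2 := h1.mono_left (nhdsWithin_le_nhds (s := Ioi a))
    simpa [Real.zero_rpow hs.ne'] using h2
  -- `T` tends to zero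
  have hT0 : T a = 0 := by
    have h1 : Tendsto (fun x => τ₁.eval x * ((x - a) ^ (P - 1) * g x) / q.eval x) (𝓝[>] a)
        (𝓝 (τ₁.eval a * (0 * g a) / q.eval a)) :=
      ((tq τ₁).mul ((tpow (P - 1) (by linarith)).mul hg)).div (tq q) hq.ne'
    have h2 : T =ᶠ[𝓝[>] a] fun x => τ₁.eval x * ((x - a) ^ (P - 1) * g x) / q.eval x := by
      filter_upwards [Ioo_mem_nhdsGT hab] with x hx
      have hxa : 0 < x - a := by linarith [hx.1]
      rw [h.T_eq (hpos x hx), hR x hx, hρe, hτe]
      have e1 : (x - a) ^ P = (x - a) ^ (P - 1) * (x - a) := by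
        rw [← Real.rpow_add_one hxa.ne']; congr 1; ring
      rw [e1]
      have := (hqx x hx).ne'
      field_simp
    have h3 := tendsto_nhds_unique (lT.congr' h2) h1
    rw [h3]; simp
  have hωa : ω.eval a = 0 := by
    rw [hT0] at jT
    rcases mul_eq_zero.1 jT.symm with h1 | h1
    · exact h1
    · exact absurd h1 hm
  suffices hs : P = 2 ∧ -(δ.eval a * φ.real {a}) = 2 * g a from ⟨hs.1, hωa, hs.2⟩
  -- the formula for `v`
  have hva : ∀ x ∈ Ioo a b, v x
      = (th' a q τ₁ ω).eval x * ((x - a) ^ (P - 2) * g x) / q.eval x ^ 2 := by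
    intro x hx
    have hxa : 0 < x - a := by linarith [hx.1]
    rw [h.v_eq (hpos x hx), hR x hx]
    have e0 : (th ρ τ ω).eval x = (x - a) ^ 2 * (th' a q τ₁ ω).eval x := by
      rw [hρ, hτ, th_eq]; simp
    have e1 : (x - a) ^ P = (x - a) ^ (P - 2) * (x - a) ^ 2 := by
      rw [← Real.rpow_natCast, ← Real.rpow_add hxa]; congr 1; push_cast; ring
    rw [e0, hρe, e1]
    have := (hqx x hx).ne'
    field_simp
  have hth : (th' a q τ₁ ω).eval a = q.eval a ^ 2 * (P * (P - 1)) := by
    unfold th'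
    simp only [eval_sub, eval_add, eval_mul, eval_X, eval_C, sub_self, zero_mul, add_zero,
      eval_ofNat, hP, hωa]
    ring
  have hthpos : 0 < (th' a q τ₁ ω).eval a := by
    rw [hth]
    have : 0 < P - 1 := by linarith
    have : 0 < P := by linarith
    positivity
  have hlim : Tendsto (fun x => (th' a q τ₁ ω).eval x * g x / q.eval x ^ 2) (𝓝[>] a)
      (𝓝 ((th' a q τ₁ ω).eval a * g a / q.eval a ^ 2)) :=
    ((tq _).mul hg).div ((tq q).pow 2) (by positivity)
  have hlpos : 0 < (th' a q τ₁ ω).eval a * g a / q.eval a ^ 2 := by positivity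
  rcases lt_trichotomy P 2 with hP2 | hP2 | hP2
  · exfalso
    have h1 : Tendsto (fun x => (x - a) ^ (2 - P) * v x) (𝓝[>] a) (𝓝 (0 * v a)) :=
      (tpow (2 - P) (by linarith)).mul lv
    have h2 : (fun x => (x - a) ^ (2 - P) * v x) =ᶠ[𝓝[>] a]
        fun x => (th' a q τ₁ ω).eval x * g x / q.eval x ^ 2 := by
      filter_upwards [Ioo_mem_nhdsGT hab] with x hx
      have hxa : 0 < x - a := by linarith [hx.1]
      rw [hva x hx]
      have e1 : (x - a) ^ (2 - P) * (x - a) ^ (P - 2) = 1 := by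
        rw [← Real.rpow_add hxa]; simp
      calc (x - a) ^ (2 - P) * ((th' a q τ₁ ω).eval x * ((x - a) ^ (P - 2) * g x) / q.eval x ^ 2)
          = ((x - a) ^ (2 - P) * (x - a) ^ (P - 2)) * ((th' a q τ₁ ω).eval x * g x / q.eval x ^ 2) := by
            ring
        _ = _ := by rw [e1, one_mul]
    have h3 := tendsto_nhds_unique (h1.congr' h2) hlim
    rw [zero_mul] at h3
    exact hlpos.ne h3
  · refine ⟨hP2, ?_⟩
    have h2 : v =ᶠ[𝓝[>] a] fun x => (th' a q τ₁ ω).eval x * g x / q.eval x ^ 2 := by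
      filter_upwards [Ioo_mem_nhdsGT hab] with x hx
      rw [hva x hx, hP2]
      simp
    have h3 := tendsto_nhds_unique (lv.congr' h2) hlim
    rw [← jv, h3, hth, hP2]
    have := hq.ne'
    field_simp
    norm_num
  · exfalso
    -- `v a = 0`
    have h1 : Tendsto (fun x => (x - a) ^ (P - 2) * ((th' a q τ₁ ω).eval x * g x / q.eval x ^ 2))
        (𝓝[>] a) (𝓝 (0 * ((th' a q τ₁ ω).eval a * g a / q.eval a ^ 2))) :=
      (tpow (P - 2) (by linarith)).mul hlim
    have h2 : v =ᶠ[𝓝[>] a]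
        fun x => (x - a) ^ (P - 2) * ((th' a q τ₁ ω).eval x * g x / q.eval x ^ 2) := by
      filter_upwards [Ioo_mem_nhdsGT hab] with x hx
      rw [hva x hx]
      ring
    have h3 := tendsto_nhds_unique (lv.congr' h2) h1
    rw [zero_mul] at h3
    rw [h3] at jv
    have hδa : δ.eval a = 0 := by
      rcases mul_eq_zero.1 (neg_eq_zero.1 jv.symm) with h4 | h4
      · exact h4
      · exact absurd h4 hm
    have hlin := lin_poly h.dδ hδa
    have hc1 : δ.coeff 1 = 0 := by
      have e := h.tδ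
      have e2 : ∫ s, δ.eval s ∂φ = δ.coeff 1 * ∫ s, (s - a) ∂φ := by
        rw [← integral_const_mul]
        congr 1
        funext s
        exact hlin s
      rw [e2] at e
      rcases mul_eq_zero.1 e with h4 | h4
      · exact h4
      · exfalso
        have hnn : 0 ≤ᵐ[φ] fun s => s - a := by
          have : ∀ᵐ s ∂φ, a ≤ s := by
            rw [ae_iff]
            refine measure_mono_null (fun t ht => ?_) hφ
            simpa using ht
          filter_upwards [this] with s hs
          simpa using hs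
        have hi : Integrable (fun s : ℝ => s - a) φ := by
          have := h.mom.int (X - C a)
          simpa using this
        rw [integral_eq_zero_iff_of_nonneg_ae hnn hi] at h4
        apply hφ2
        rw [EventuallyEq, ae_iff] at h4
        refine measure_mono_null (fun t ht => ?_) h4
        have : a < t := ht
        simp only [Pi.zero_apply, mem_ofPred_eq]
        intro h5
        linarith
    have hvz : ∀ x, v x = 0 := by
      intro x
      rw [h.hv]
      have : ∀ s, δ.eval s = 0 := by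
        intro s; rw [hlin, hc1, zero_mul]
      simp [this]
    have h5 : (fun x => (th' a q τ₁ ω).eval x * g x / q.eval x ^ 2) =ᶠ[𝓝[>] a] fun _ => 0 := by
      filter_upwards [Ioo_mem_nhdsGT hab] with x hx
      have hxa : 0 < x - a := by linarith [hx.1]
      have e := hva x hx
      rw [hvz x] at e
      have e2 : (x - a) ^ (P - 2) * ((th' a q τ₁ ω).eval x * g x / q.eval x ^ 2) = 0 := by
        rw [e]; ring
      rcases mul_eq_zero.1 e2 with h6 | h6
      · exact absurd h6 (Real.rpow_pos_of_pos hxa _).ne'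
      · exact h6
    have h6 := tendsto_nhds_unique (hlim.congr' h5) tendsto_const_nhds
    exact hlpos.ne' h6

/-- multiple roots of `ρ` are roots of `τ` -/
theorem root_of_cpoly (hc : ρ * derivative (th ρ τ ω) - 2 * derivative ρ * th ρ τ ω
    + τ * th ρ τ ω + δ * ρ * ρ = 0) {a : ℝ} (h0 : ρ.eval a = 0)
    (h1 : (derivative ρ).eval a = 0) : τ.eval a = 0 := by
  have e := congrArg (fun p => p.eval a) hc
  have e2 : (th ρ τ ω).eval a = τ.eval a ^ 2 := by
    unfold th
    simp only [eval_sub, eval_add, eval_mul, h0, h1]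
    ring
  simp only [eval_sub, eval_add, eval_mul, h0, h1, e2, eval_zero] at e
  have e3 : τ.eval a ^ 3 = 0 := by
    have : τ.eval a ^ 3 = τ.eval a * τ.eval a ^ 2 := by ring
    rw [this]; linarith
  exact pow_eq_zero_iff (by norm_num) |>.1 e3

theorem nd_der {p : ℝ[X]} {n : ℕ} (h : p.natDegree ≤ n + 1) : (derivative p).natDegree ≤ n :=
  (natDegree_derivative_le p).trans (by omega)

theorem deg_a (hc : ρ * derivative (th ρ τ ω) - 2 * derivative ρ * th ρ τ ω
    + τ * th ρ τ ω + δ * ρ * ρ = 0) (hρ : ρ.natDegree ≤ 3) (hτ : τ.natDegree ≤ 3)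
    (hω : ω.natDegree ≤ 2) (hδ : δ.natDegree ≤ 1) : τ.coeff 3 = 0 := by
  have dρ : (derivative ρ).natDegree ≤ 2 := nd_der hρ
  have dτ : (derivative τ).natDegree ≤ 2 := nd_der hτ
  have m1 : (τ * derivative ρ).natDegree ≤ 5 := natDegree_mul_le.trans (by omega)
  have m2 : (ρ * derivative τ).natDegree ≤ 5 := natDegree_mul_le.trans (by omega)
  have m3 : (ρ * ω).natDegree ≤ 5 := natDegree_mul_le.trans (by omega)
  have m4 : (τ * τ).natDegree ≤ 6 := natDegree_mul_le.trans (by omega)
  have dth : (th ρ τ ω).natDegree ≤ 6 := by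
    unfold th
    refine (natDegree_sub_le _ _).trans (max_le ((natDegree_add_le _ _).trans (max_le
      ((natDegree_sub_le _ _).trans (max_le ?_ ?_)) ?_)) ?_) <;> omega
  have cth : (th ρ τ ω).coeff 6 = τ.coeff 3 * τ.coeff 3 := by
    unfold th
    rw [coeff_sub, coeff_add, coeff_sub, coeff_eq_zero_of_natDegree_lt (by omega : (τ * derivative ρ).natDegree < 6),
      coeff_eq_zero_of_natDegree_lt (by omega : (ρ * derivative τ).natDegree < 6),
      coeff_eq_zero_of_natDegree_lt (by omega : (ρ * ω).natDegree < 6),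
      show (6 : ℕ) = 3 + 3 from rfl, coeff_mul_add_eq_of_natDegree_le hτ hτ]
    ring
  have dth' : (derivative (th ρ τ ω)).natDegree ≤ 5 := nd_der dth
  have n1 : (ρ * derivative (th ρ τ ω)).natDegree ≤ 8 := natDegree_mul_le.trans (by omega)
  have n2 : (2 * derivative ρ * th ρ τ ω).natDegree ≤ 8 := by
    have e : (2 * derivative ρ * th ρ τ ω : ℝ[X]) = C 2 * (derivative ρ * th ρ τ ω) := by
      rw [map_ofNat]; ring
    rw [e]
    exact (natDegree_C_mul_le _ _).trans (natDegree_mul_le.trans (by omega))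
  have n3 : (δ * ρ * ρ).natDegree ≤ 7 := natDegree_mul_le.trans (by
    have := natDegree_mul_le (p := δ) (q := ρ); omega)
  have e := congrArg (fun p => p.coeff 9) hc
  simp only [coeff_add, coeff_sub, coeff_zero] at e
  rw [coeff_eq_zero_of_natDegree_lt (by omega : (ρ * derivative (th ρ τ ω)).natDegree < 9),
    coeff_eq_zero_of_natDegree_lt (by omega : (2 * derivative ρ * th ρ τ ω).natDegree < 9),
    coeff_eq_zero_of_natDegree_lt (by omega : (δ * ρ * ρ).natDegree < 9),
    show (9 : ℕ) = 3 + 6 from rfl, coeff_mul_add_eq_of_natDegree_le hτ dth, cth] at e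
  have e3 : τ.coeff 3 ^ 3 = 0 := by
    have : τ.coeff 3 ^ 3 = τ.coeff 3 * (τ.coeff 3 * τ.coeff 3) := by ring
    rw [this]; linarith
  exact pow_eq_zero_iff (by norm_num) |>.1 e3

theorem deg_b (hc : ρ * derivative (th ρ τ ω) - 2 * derivative ρ * th ρ τ ω
    + τ * th ρ τ ω + δ * ρ * ρ = 0) (hρ : ρ.natDegree ≤ 1) (hτ : τ.natDegree ≤ 2)
    (hω : ω.natDegree ≤ 2) (hδ : δ.natDegree ≤ 1) : τ.coeff 2 = 0 := by
  have dρ : (derivative ρ).natDegree ≤ 0 := nd_der hρ
  have dτ : (derivative τ).natDegree ≤ 1 := nd_der hτ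
  have m1 : (τ * derivative ρ).natDegree ≤ 3 := natDegree_mul_le.trans (by omega)
  have m2 : (ρ * derivative τ).natDegree ≤ 3 := natDegree_mul_le.trans (by omega)
  have m3 : (ρ * ω).natDegree ≤ 3 := natDegree_mul_le.trans (by omega)
  have m4 : (τ * τ).natDegree ≤ 4 := natDegree_mul_le.trans (by omega)
  have dth : (th ρ τ ω).natDegree ≤ 4 := by
    unfold th
    refine (natDegree_sub_le _ _).trans (max_le ((natDegree_add_le _ _).trans (max_le
      ((natDegree_sub_le _ _).trans (max_le ?_ ?_)) ?_)) ?_) <;> omega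
  have cth : (th ρ τ ω).coeff 4 = τ.coeff 2 * τ.coeff 2 := by
    unfold th
    rw [coeff_sub, coeff_add, coeff_sub, coeff_eq_zero_of_natDegree_lt (by omega : (τ * derivative ρ).natDegree < 4),
      coeff_eq_zero_of_natDegree_lt (by omega : (ρ * derivative τ).natDegree < 4),
      coeff_eq_zero_of_natDegree_lt (by omega : (ρ * ω).natDegree < 4),
      show (4 : ℕ) = 2 + 2 from rfl, coeff_mul_add_eq_of_natDegree_le hτ hτ]
    ring
  have dth' : (derivative (th ρ τ ω)).natDegree ≤ 3 := nd_der dth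
  have n1 : (ρ * derivative (th ρ τ ω)).natDegree ≤ 5 := natDegree_mul_le.trans (by omega)
  have n2 : (2 * derivative ρ * th ρ τ ω).natDegree ≤ 5 := by
    have e : (2 * derivative ρ * th ρ τ ω : ℝ[X]) = C 2 * (derivative ρ * th ρ τ ω) := by
      rw [map_ofNat]; ring
    rw [e]
    exact (natDegree_C_mul_le _ _).trans (natDegree_mul_le.trans (by omega))
  have n3 : (δ * ρ * ρ).natDegree ≤ 5 := natDegree_mul_le.trans (by
    have := natDegree_mul_le (p := δ) (q := ρ); omega)
  have e := congrArg (fun p => p.coeff 6) hc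
  simp only [coeff_add, coeff_sub, coeff_zero] at e
  rw [coeff_eq_zero_of_natDegree_lt (by omega : (ρ * derivative (th ρ τ ω)).natDegree < 6),
    coeff_eq_zero_of_natDegree_lt (by omega : (2 * derivative ρ * th ρ τ ω).natDegree < 6),
    coeff_eq_zero_of_natDegree_lt (by omega : (δ * ρ * ρ).natDegree < 6),
    show (6 : ℕ) = 2 + 4 from rfl, coeff_mul_add_eq_of_natDegree_le hτ dth, cth] at e
  have e3 : τ.coeff 2 ^ 3 = 0 := by
    have : τ.coeff 2 ^ 3 = τ.coeff 2 * (τ.coeff 2 * τ.coeff 2) := by ring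
    rw [this]; linarith
  exact pow_eq_zero_iff (by norm_num) |>.1 e3

end Pool.Agent.U592.KR
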