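import Pool.Agent.U592.KR.Refl

/-!
# The model measures and the conclusion
-/

set_option autoImplicit false

open MeasureTheory Polynomial Set Filter Topology

namespace Pool.Agent.U592.KR

/-- the classical and Krall type measures -/
def Listed (μ : Measure ℝ) : Prop :=
  ((∃ α β : ℝ, -1 < α ∧ -1 < β ∧
          μ = MeasureTheory.volume.withDensity (fun x : ℝ => ENNReal.ofReal
            ((Set.Icc (-1 : ℝ) 1).indicator (fun y : ℝ => (1 - y) ^ α * (1 + y) ^ β) x)))
        ∨ (∃ α : ℝ, -1 < α ∧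
          μ = MeasureTheory.volume.withDensity (fun x : ℝ => ENNReal.ofReal
            ((Set.Ioi (0 : ℝ)).indicator (fun y : ℝ => y ^ α * Real.exp (-y)) x)))
        ∨ (μ = MeasureTheory.volume.withDensity (fun x : ℝ => ENNReal.ofReal
            (Real.exp (-(x ^ 2)))))
        ∨ (∃ A : ℝ, 0 < A ∧
          μ = MeasureTheory.volume.restrict (Set.Icc (-1 : ℝ) 1)
            + ENNReal.ofReal (1 / A) • (MeasureTheory.Measure.dirac (-1 : ℝ)
                + MeasureTheory.Measure.dirac (1 : ℝ)))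
        ∨ (∃ R : ℝ, 0 < R ∧
          μ = MeasureTheory.volume.withDensity (fun x : ℝ => ENNReal.ofReal
            ((Set.Ioi (0 : ℝ)).indicator (fun y : ℝ => Real.exp (-y)) x))
            + ENNReal.ofReal (1 / R) • MeasureTheory.Measure.dirac (0 : ℝ))
        ∨ (∃ α M : ℝ, -1 < α ∧ 0 < M ∧
          μ = MeasureTheory.volume.withDensity (fun x : ℝ => ENNReal.ofReal
            ((Set.Ico (0 : ℝ) 1).indicator (fun y : ℝ => (1 - y) ^ α) x))
            + ENNReal.ofReal (1 / M) • MeasureTheory.Measure.dirac (0 : ℝ)))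

/-- `φ` is, on polynomials, an affine image of a listed measure up to a factor -/
def Concl (φ : Measure ℝ) : Prop :=
  ∃ μ : Measure ℝ, Listed μ ∧ ∃ A B K : ℝ, A ≠ 0 ∧ K ≠ 0 ∧
    ∀ f : ℝ[X], J φ f = K * J μ (f.comp (C A * X + C B))

theorem Concl.of_rm {φ : Measure ℝ} (h : Concl (rm φ)) : Concl φ := by
  obtain ⟨μ, hμ, A, B, K, hA, hK, hf⟩ := h
  refine ⟨μ, hμ, -A, -B, K, by simpa using hA, hK, fun f => ?_⟩
  have := hf (rp f)
  rw [J_rm, rp_rp] at this
  rw [this]
  congr 2
  unfold rp
  rw [comp_assoc]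
  congr 1
  simp
  ring

theorem cov {A : ℝ} (hA : 0 < A) (B : ℝ) (G : ℝ → ℝ) : ∫ x, G x = A * ∫ y, G (A * y + B) := by
  have h1 := Measure.integral_comp_mul_left (fun y => G (y + B)) A
  rw [h1, integral_add_right_eq_self, smul_eq_mul, abs_of_pos (inv_pos.2 hA), ← mul_assoc,
    mul_inv_cancel₀ hA.ne', one_mul]

theorem cov_set {A : ℝ} (hA : 0 < A) (B : ℝ) {S S' : Set ℝ} (hS : MeasurableSet S)
    (hS' : MeasurableSet S') (hSS : ∀ y, y ∈ S' ↔ A * y + B ∈ S) (G : ℝ → ℝ) :
    ∫ x in S, G x = A * ∫ y in S', G (A * y + B) := by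
  rw [← integral_indicator hS, cov hA B, ← integral_indicator hS']
  congr 1
  refine integral_congr_ae (Eventually.of_forall fun y => ?_)
  show S.indicator G (A * y + B) = S'.indicator (fun y => G (A * y + B)) y
  by_cases h : y ∈ S'
  · rw [indicator_of_mem h, indicator_of_mem ((hSS y).1 h)]
  · rw [indicator_of_notMem h, indicator_of_notMem fun h' => h ((hSS y).2 h')]

theorem J_ind {S : Set ℝ} (hS : MeasurableSet S) (w : ℝ → ℝ) (hw : Measurable w)
    (hw0 : ∀ x ∈ S, 0 ≤ w x) (f : ℝ[X]) :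
    J (volume.withDensity fun x => ENNReal.ofReal (S.indicator w x)) f
      = ∫ x in S, w x * f.eval x := by
  have := int_P (κ := volume) (hw.indicator hS) fun x => f.eval x
  unfold P at this
  unfold J
  rw [this, ← integral_indicator hS]
  refine integral_congr_ae (Eventually.of_forall fun x => ?_)
  show max (S.indicator w x) 0 * f.eval x = S.indicator (fun x => w x * f.eval x) x
  by_cases h : x ∈ S
  · rw [indicator_of_mem h, indicator_of_mem h, max_eq_left (hw0 x h)]
  · rw [indicator_of_notMem h, indicator_of_notMem h]; simp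

theorem int_ind {S : Set ℝ} (hS : MeasurableSet S) (w : ℝ → ℝ) (hw : Measurable w)
    (hw0 : ∀ x ∈ S, 0 ≤ w x) (g : ℝ → ℝ) (hi : IntegrableOn (fun x => w x * g x) S) :
    Integrable g (volume.withDensity fun x => ENNReal.ofReal (S.indicator w x)) := by
  have := integrable_P (κ := volume) (hw.indicator hS) g
  unfold P at this
  rw [this]
  refine (integrable_congr (Eventually.of_forall fun x => ?_)).1 ((integrable_indicator_iff hS).2 hi)
  show S.indicator (fun x => w x * g x) x = max (S.indicator w x) 0 * g x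
  by_cases h : x ∈ S
  · rw [indicator_of_mem h, indicator_of_mem h, max_eq_left (hw0 x h)]
  · rw [indicator_of_notMem h, indicator_of_notMem h]; simp

theorem comp_ev (f : ℝ[X]) (A B y : ℝ) : (f.comp (C A * X + C B)).eval y = f.eval (A * y + B) := by
  simp [eval_comp]

/-- Jacobi -/
theorem concl_jacobi {φ : Measure ℝ} {a b k p q : ℝ} (hab : a < b) (hk : 0 < k) (hp : -1 < p)
    (hq : -1 < q) (h : ∀ f : ℝ[X], J φ f
      = ∫ x in Ioo a b, f.eval x * (k * ((x - a) ^ p * (b - x) ^ q))) : Concl φ := by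
  set A : ℝ := (b - a) / 2 with hA
  have hA0 : 0 < A := by rw [hA]; linarith
  set B : ℝ := (a + b) / 2 with hB
  refine ⟨_, Or.inl ⟨q, p, hq, hp, rfl⟩, A, B, A * (k * (A ^ p * A ^ q)), hA0.ne', by positivity,
    fun f => ?_⟩
  rw [h, cov_set hA0 B measurableSet_Ioo (S' := Ioo (-1 : ℝ) 1) measurableSet_Ioo,
    J_ind measurableSet_Icc _ (by fun_prop), integral_Icc_eq_integral_Ioo, mul_assoc A,
    ← integral_const_mul (k * (A ^ p * A ^ q))]
  · congr 1
    refine setIntegral_congr_fun measurableSet_Ioo fun y hy => ?_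
    beta_reduce
    have e1 : A * y + B - a = A * (1 + y) := by rw [hA, hB]; ring
    have e2 : b - (A * y + B) = A * (1 - y) := by rw [hA, hB]; ring
    rw [comp_ev, e1, e2, Real.mul_rpow hA0.le (by linarith [hy.1]),
      Real.mul_rpow hA0.le (by linarith [hy.2])]
    ring
  · intro x hx
    exact mul_nonneg (Real.rpow_nonneg (by linarith [hx.2]) _) (Real.rpow_nonneg (by linarith [hx.1]) _)
  · intro y
    constructor
    · rintro ⟨h1, h2⟩
      constructor <;> rw [hA, hB] <;> nlinarith
    · rintro ⟨h1, h2⟩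
      rw [hA, hB] at h1 h2
      constructor <;> nlinarith

/-- Laguerre -/
theorem concl_laguerre {φ : Measure ℝ} {a k p κ : ℝ} (hκ : 0 < κ) (hk : 0 < k) (hp : -1 < p)
    (h : ∀ f : ℝ[X], J φ f
      = ∫ x in Ioi a, f.eval x * (k * ((x - a) ^ p * Real.exp (-(κ * (x - a)))))) : Concl φ := by
  have hA0 : 0 < κ⁻¹ := inv_pos.2 hκ
  refine ⟨_, Or.inr (Or.inl ⟨p, hp, rfl⟩), κ⁻¹, a, κ⁻¹ * (k * κ⁻¹ ^ p), hA0.ne', by positivity,
    fun f => ?_⟩
  rw [h, cov_set hA0 a measurableSet_Ioi (S' := Ioi 0) measurableSet_Ioi,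
    J_ind measurableSet_Ioi _ (by fun_prop), mul_assoc κ⁻¹,
    ← integral_const_mul (k * κ⁻¹ ^ p)]
  · congr 1
    refine setIntegral_congr_fun measurableSet_Ioi fun y hy => ?_
    have hy0 : 0 < y := hy
    beta_reduce
    have e1 : κ⁻¹ * y + a - a = κ⁻¹ * y := by ring
    have e2 : κ * (κ⁻¹ * y) = y := by field_simp
    rw [comp_ev, e1, e2, Real.mul_rpow hA0.le hy0.le]
    ring
  · intro x hx
    exact mul_nonneg (Real.rpow_nonneg (le_of_lt hx) _) (Real.exp_pos _).le
  · intro y
    simp only [mem_Ioi]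
    constructor
    · intro h1
      have : 0 < κ⁻¹ * y := by positivity
      linarith
    · intro h1
      have : 0 < κ⁻¹ * y := by linarith
      exact (pos_iff_pos_of_mul_pos this).1 hA0

/-- Hermite -/
theorem concl_hermite {φ : Measure ℝ} {m k κ : ℝ} (hκ : 0 < κ) (hk : 0 < k)
    (h : ∀ f : ℝ[X], J φ f
      = ∫ x, f.eval x * (k * Real.exp (-(κ * (x - m)) ^ 2))) : Concl φ := by
  have hA0 : 0 < κ⁻¹ := inv_pos.2 hκ
  refine ⟨_, Or.inr (Or.inr (Or.inl rfl)), κ⁻¹, m, κ⁻¹ * k, hA0.ne', by positivity,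
    fun f => ?_⟩
  have e := int_P (κ := volume) (f := fun x => Real.exp (-(x ^ 2))) (by fun_prop)
    fun x => (f.comp (C κ⁻¹ * X + C m)).eval x
  unfold P at e
  unfold J at h ⊢
  rw [h, cov hA0 m, mul_assoc κ⁻¹, e,
    ← integral_const_mul k]
  congr 1
  refine integral_congr_ae (Eventually.of_forall fun y => ?_)
  beta_reduce
  have e1 : κ * (κ⁻¹ * y + m - m) = y := by field_simp; ring
  rw [comp_ev, e1, max_eq_left (Real.exp_pos _).le]
  ring

/-- Legendre type -/
theorem concl_legendre_type {φ : Measure ℝ} {a b k m : ℝ} (hab : a < b) (hk : 0 < k) (hm : 0 < m)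
    (h : ∀ f : ℝ[X], J φ f
      = (∫ x in Ioo a b, f.eval x * k) + m * f.eval a + m * f.eval b) : Concl φ := by
  set A : ℝ := (b - a) / 2 with hA
  have hA0 : 0 < A := by rw [hA]; linarith
  set B : ℝ := (a + b) / 2 with hB
  refine ⟨_, Or.inr (Or.inr (Or.inr (Or.inl ⟨A * k / m, by positivity, rfl⟩))), A, B, A * k,
    hA0.ne', by positivity, fun f => ?_⟩
  have i1 : Integrable (fun x => (f.comp (C A * X + C B)).eval x) (volume.restrict (Icc (-1 : ℝ) 1)) :=
    (Polynomial.continuous _).continuousOn.integrableOn_Icc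
  have hd : ∀ c : ℝ, Integrable (fun x => (f.comp (C A * X + C B)).eval x) (Measure.dirac c) := by
    intro c
    refine integrable_dirac ?_
    simp
  have i2 : Integrable (fun x => (f.comp (C A * X + C B)).eval x)
      (ENNReal.ofReal (1 / (A * k / m)) • (Measure.dirac (-1 : ℝ) + Measure.dirac (1 : ℝ))) :=
    ((hd _).add_measure (hd _)).smul_measure ENNReal.ofReal_ne_top
  unfold J at h ⊢
  rw [integral_add_measure i1 i2, integral_smul_measure, integral_add_measure (hd _) (hd _),
    integral_dirac, integral_dirac, h, cov_set hA0 B measurableSet_Ioo (S' := Ioo (-1 : ℝ) 1)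
    measurableSet_Ioo, integral_Icc_eq_integral_Ioo, ENNReal.toReal_ofReal (by positivity)]
  · simp only [comp_ev]
    rw [integral_mul_const]
    have e1 : A * (-1) + B = a := by rw [hA, hB]; ring
    have e2 : A * 1 + B = b := by rw [hA, hB]; ring
    rw [e1, e2, smul_eq_mul]
    field_simp
    ring
  · intro y
    constructor
    · rintro ⟨h1, h2⟩
      constructor <;> rw [hA, hB] <;> nlinarith
    · rintro ⟨h1, h2⟩
      rw [hA, hB] at h1 h2
      constructor <;> nlinarith

/-- Laguerre type -/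
theorem concl_laguerre_type {φ : Measure ℝ} {a k κ m : ℝ} (hκ : 0 < κ) (hk : 0 < k) (hm : 0 < m)
    (h : ∀ f : ℝ[X], J φ f
      = (∫ x in Ioi a, f.eval x * (k * Real.exp (-(κ * (x - a))))) + m * f.eval a) : Concl φ := by
  have hA0 : 0 < κ⁻¹ := inv_pos.2 hκ
  refine ⟨_, Or.inr (Or.inr (Or.inr (Or.inr (Or.inl ⟨κ⁻¹ * k / m, by positivity, rfl⟩)))), κ⁻¹, a,
    κ⁻¹ * k, hA0.ne', by positivity, fun f => ?_⟩
  have hMom : Mom (volume.withDensity (fun x : ℝ => ENNReal.ofReal
      ((Set.Ioi (0 : ℝ)).indicator (fun y : ℝ => Real.exp (-y)) x))) := by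
    intro n
    refine int_ind measurableSet_Ioi _ (by fun_prop) (fun x _ => (Real.exp_pos _).le) _ ?_
    have := Real.GammaIntegral_convergent (s := (n : ℝ) + 1) (by positivity)
    refine this.congr_fun (fun x hx => ?_) measurableSet_Ioi
    simp
  have i1 := hMom.int (f.comp (C κ⁻¹ * X + C a))
  have hd : ∀ c : ℝ, Integrable (fun x => (f.comp (C κ⁻¹ * X + C a)).eval x) (Measure.dirac c) := by
    intro c
    refine integrable_dirac ?_
    simp
  have i2 : Integrable (fun x => (f.comp (C κ⁻¹ * X + C a)).eval x)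
      (ENNReal.ofReal (1 / (κ⁻¹ * k / m)) • Measure.dirac (0 : ℝ)) :=
    (hd _).smul_measure ENNReal.ofReal_ne_top
  have e0 := J_ind measurableSet_Ioi (fun y => Real.exp (-y)) (by fun_prop)
    (fun x _ => (Real.exp_pos _).le) (S := Ioi 0) (f.comp (C κ⁻¹ * X + C a))
  unfold J at h e0 ⊢
  rw [integral_add_measure i1 i2, integral_smul_measure,
    integral_dirac, h, cov_set hA0 a measurableSet_Ioi (S' := Ioi 0) measurableSet_Ioi, e0,
    ENNReal.toReal_ofReal (by positivity)]
  · simp only [comp_ev]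
    have e1 : ∀ y, κ * (κ⁻¹ * y + a - a) = y := fun y => by field_simp; ring
    simp only [e1]
    have e2 : κ⁻¹ * 0 + a = a := by ring
    rw [e2, smul_eq_mul, mul_add, mul_assoc κ⁻¹, ← integral_const_mul k]
    congr 1
    · congr 2
      funext y
      ring
    · field_simp
  · intro y
    simp only [mem_Ioi]
    constructor
    · intro h1
      have : 0 < κ⁻¹ * y := by positivity
      linarith
    · intro h1
      have : 0 < κ⁻¹ * y := by linarith
      exact (pos_iff_pos_of_mul_pos this).1 hA0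

/-- Jacobi type -/
theorem concl_jacobi_type {φ : Measure ℝ} {a b k q m : ℝ} (hab : a < b) (hk : 0 < k)
    (hq : -1 < q) (hm : 0 < m) (h : ∀ f : ℝ[X], J φ f
      = (∫ x in Ioo a b, f.eval x * (k * (b - x) ^ q)) + m * f.eval a) : Concl φ := by
  set A : ℝ := b - a with hA
  have hA0 : 0 < A := by rw [hA]; linarith
  refine ⟨_, Or.inr (Or.inr (Or.inr (Or.inr (Or.inr ⟨q, A * (k * A ^ q) / m, hq, by positivity,
    rfl⟩)))), A, a, A * (k * A ^ q), hA0.ne', by positivity, fun f => ?_⟩
  have hMom : Mom (volume.withDensity (fun x : ℝ => ENNReal.ofReal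
            ((Set.Ico (0 : ℝ) 1).indicator (fun y : ℝ => (1 - y) ^ q) x))) := by
    intro n
    refine int_ind measurableSet_Ico _ (by fun_prop) (fun x hx => Real.rpow_nonneg (by linarith [hx.2]) _) _ ?_
    rw [integrableOn_Ico_iff_integrableOn_Ioo]
    have h1 := (intervalIntegral.integrableOn_Ioo_rpow_iff (s := q) one_pos).2 hq
    have h2 := ((integrable_indicator_iff measurableSet_Ioo).2 h1).comp_sub_left 1
    have h3 : IntegrableOn (fun y : ℝ => (1 - y) ^ q) (Ioo 0 1) := by
      rw [← integrable_indicator_iff measurableSet_Ioo]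
      refine h2.congr (Eventually.of_forall fun x => ?_)
      simp only [indicator, mem_Ioo]
      by_cases hx : 0 < x ∧ x < 1
      · rw [if_pos hx, if_pos ⟨by linarith [hx.2], by linarith [hx.1]⟩]
      · rw [if_neg hx, if_neg fun h' => hx ⟨by linarith [h'.2], by linarith [h'.1]⟩]
    refine Integrable.mono h3 (by fun_prop) ?_
    refine (ae_restrict_iff' measurableSet_Ioo).2 (Eventually.of_forall fun x hx => ?_)
    rw [norm_mul]
    have h4 : ‖x ^ n‖ ≤ 1 := by
      rw [norm_pow, Real.norm_eq_abs, abs_of_pos hx.1]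
      exact pow_le_one₀ hx.1.le hx.2.le
    exact mul_le_of_le_one_right (norm_nonneg _) h4
  have i1 := hMom.int (f.comp (C A * X + C a))
  have hd : ∀ c : ℝ, Integrable (fun x => (f.comp (C A * X + C a)).eval x) (Measure.dirac c) := by
    intro c
    refine integrable_dirac ?_
    simp
  have i2 : Integrable (fun x => (f.comp (C A * X + C a)).eval x)
      (ENNReal.ofReal (1 / (A * (k * A ^ q) / m)) • Measure.dirac (0 : ℝ)) :=
    (hd _).smul_measure ENNReal.ofReal_ne_top
  have e0 := J_ind measurableSet_Ico (fun y => (1 - y) ^ q) (by fun_prop)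
    (fun x hx => Real.rpow_nonneg (by linarith [hx.2]) _) (S := Ico 0 1) (f.comp (C A * X + C a))
  unfold J at h e0 ⊢
  rw [integral_add_measure i1 i2, integral_smul_measure,
    integral_dirac, h, cov_set hA0 a measurableSet_Ioo (S' := Ioo 0 1) measurableSet_Ioo, e0,
    ENNReal.toReal_ofReal (by positivity), integral_Ico_eq_integral_Ioo]
  · simp only [comp_ev]
    have e2 : A * 0 + a = a := by ring
    rw [e2, smul_eq_mul, mul_add, mul_assoc A, ← integral_const_mul (k * A ^ q)]
    congr 1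
    · congr 1
      refine setIntegral_congr_fun measurableSet_Ioo fun y hy => ?_
      beta_reduce
      have e1 : b - (A * y + a) = A * (1 - y) := by rw [hA]; ring
      rw [e1, Real.mul_rpow hA0.le (by linarith [hy.2])]
      ring
    · field_simp
  · intro y
    constructor
    · rintro ⟨h1, h2⟩
      constructor <;> rw [hA] <;> nlinarith
    · rintro ⟨h1, h2⟩
      rw [hA] at h1 h2
      constructor <;> nlinarith

end Pool.Agent.U592.KR
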