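import Pool.Agent.U592.KR.Growth
import Pool.Agent.N804.Mom

/-!
# Signed moment uniqueness and primitives
-/

set_option autoImplicit false

open MeasureTheory Polynomial Set

namespace Pool.Agent.U592.KR

/-- the measure with density the positive part of `f` -/
noncomputable def P (κ : Measure ℝ) (f : ℝ → ℝ) : Measure ℝ :=
  κ.withDensity fun x => ENNReal.ofReal (f x)

theorem P_eq (κ : Measure ℝ) (f : ℝ → ℝ) :
    P κ f = κ.withDensity fun x => (((f x).toNNReal : NNReal) : ENNReal) := rfl

theorem int_P {κ : Measure ℝ} {f : ℝ → ℝ} (hf : Measurable f) (h : ℝ → ℝ) :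
    ∫ x, h x ∂(P κ f) = ∫ x, max (f x) 0 * h x ∂κ := by
  rw [P_eq, integral_withDensity_eq_integral_smul hf.real_toNNReal]
  rfl

theorem integrable_P {κ : Measure ℝ} {f : ℝ → ℝ} (hf : Measurable f) (h : ℝ → ℝ) :
    Integrable h (P κ f) ↔ Integrable (fun x => max (f x) 0 * h x) κ := by
  rw [P_eq, integrable_withDensity_iff_integrable_smul hf.real_toNNReal]
  rfl

theorem Exi.mono {κ : Measure ℝ} {f : ℝ → ℝ} {c : ℝ} (hf : Measurable f)
    (h : Integrable (fun x => f x * Real.exp (c * |x|)) κ) {g : ℝ → ℝ} (hg : Measurable g)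
    (hb : ∀ x, |g x| ≤ |f x| * Real.exp (c * |x|)) : Integrable g κ := by
  refine h.mono hg.aestronglyMeasurable (Filter.Eventually.of_forall fun x => ?_)
  rw [Real.norm_eq_abs, Real.norm_eq_abs, abs_mul, abs_of_pos (Real.exp_pos _)]
  exact hb x

theorem pow_le_exp (n : ℕ) {c : ℝ} (hc : 0 < c) : ∃ K : ℝ, 0 < K ∧ ∀ x : ℝ, |x| ^ n ≤ K * Real.exp (c * |x|) := by
  refine ⟨n.factorial / c ^ n, by positivity, fun x => ?_⟩
  have h1 := Real.pow_div_factorial_le_exp (c * |x|) (by positivity) n
  have h2 : (0 : ℝ) < n.factorial := by positivity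
  rw [mul_pow, div_le_iff₀ h2] at h1
  rw [div_mul_eq_mul_div, le_div_iff₀ (by positivity)]
  linarith

theorem Exi.pow {κ : Measure ℝ} {f : ℝ → ℝ} (hf : Measurable f) (h : Exi κ f) (n : ℕ) :
    Exi κ fun x => x ^ n * f x := by
  obtain ⟨c, hc, hi⟩ := h
  obtain ⟨K, hK, hp⟩ := pow_le_exp n (half_pos hc)
  refine ⟨c / 2, half_pos hc, ?_⟩
  refine (hi.norm.const_mul K).mono' (by fun_prop) (Filter.Eventually.of_forall fun x => ?_)
  rw [Real.norm_eq_abs, Real.norm_eq_abs, abs_mul, abs_mul, abs_mul, abs_pow,
    abs_of_pos (Real.exp_pos _), abs_of_pos (Real.exp_pos _)]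
  have e : Real.exp (c * |x|) = Real.exp (c / 2 * |x|) * Real.exp (c / 2 * |x|) := by
    rw [← Real.exp_add]; congr 1; ring
  rw [e]
  calc |x| ^ n * |f x| * Real.exp (c / 2 * |x|)
      ≤ (K * Real.exp (c / 2 * |x|)) * |f x| * Real.exp (c / 2 * |x|) := by
        gcongr
        exact hp x
    _ = K * (|f x| * (Real.exp (c / 2 * |x|) * Real.exp (c / 2 * |x|))) := by ring

theorem Exi.integrable {κ : Measure ℝ} {f : ℝ → ℝ} (hf : Measurable f) (h : Exi κ f) :
    Integrable f κ := by
  obtain ⟨c, hc, hi⟩ := h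
  refine Exi.mono hf hi hf fun x => ?_
  refine le_mul_of_one_le_right (abs_nonneg _) (Real.one_le_exp (by positivity))

theorem Exi.smaller {κ : Measure ℝ} {f : ℝ → ℝ} (hf : Measurable f) {c d : ℝ} (hdc : d ≤ c)
    (hi : Integrable (fun x => f x * Real.exp (c * |x|)) κ) :
    Integrable (fun x => f x * Real.exp (d * |x|)) κ := by
  refine Exi.mono hf hi (by fun_prop) fun x => ?_
  rw [abs_mul, abs_of_pos (Real.exp_pos _)]
  gcongr

theorem Exi.add {κ : Measure ℝ} {f g : ℝ → ℝ} (hf : Measurable f) (hg : Measurable g)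
    (h : Exi κ f) (h' : Exi κ g) : Exi κ fun x => f x + g x := by
  obtain ⟨c, hc, hi⟩ := h
  obtain ⟨d, hd, hi'⟩ := h'
  refine ⟨min c d, lt_min hc hd, ?_⟩
  have := (Exi.smaller hf (min_le_left c d) hi).add (Exi.smaller hg (min_le_right c d) hi')
  refine this.congr (Filter.Eventually.of_forall fun x => ?_)
  simp only [Pi.add_apply]
  ring

theorem Exi.const_mul {κ : Measure ℝ} {f : ℝ → ℝ} (a : ℝ)
    (h : Exi κ f) : Exi κ fun x => a * f x := by
  obtain ⟨c, hc, hi⟩ := h
  refine ⟨c, hc, ?_⟩
  refine (hi.const_mul a).congr (Filter.Eventually.of_forall fun x => ?_)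
  simp only
  ring

theorem Exi.poly {κ : Measure ℝ} {f : ℝ → ℝ} (hf : Measurable f) (h : Exi κ f) (q : ℝ[X]) :
    Exi κ fun x => q.eval x * f x := by
  induction q using Polynomial.induction_on' with
  | add p q hp hq =>
    have := Exi.add (by fun_prop) (by fun_prop) hp hq
    simpa only [eval_add, add_mul] using this
  | monomial n a =>
    have := (h.pow hf n).const_mul a
    simpa only [eval_monomial, mul_assoc] using this

/-- Signed moment uniqueness. -/
theorem moment_unique {κ₁ κ₂ : Measure ℝ} {f₁ f₂ : ℝ → ℝ} (m₁ : Measurable f₁)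
    (m₂ : Measurable f₂) (h₁ : Exi κ₁ f₁) (h₂ : Exi κ₂ f₂)
    (hm : ∀ n : ℕ, ∫ x, x ^ n * f₁ x ∂κ₁ = ∫ x, x ^ n * f₂ x ∂κ₂) (A : Set ℝ)
    (hA : MeasurableSet A) : ∫ x in A, f₁ x ∂κ₁ = ∫ x in A, f₂ x ∂κ₂ := by
  have n₁ : Measurable fun x => - f₁ x := m₁.neg
  have n₂ : Measurable fun x => - f₂ x := m₂.neg
  obtain ⟨c₁, hc₁, i₁⟩ := id h₁
  obtain ⟨c₂, hc₂, i₂⟩ := id h₂
  set c := min c₁ c₂ with hc
  have hc0 : 0 < c := lt_min hc₁ hc₂
  have j₁ := Exi.smaller m₁ (min_le_left c₁ c₂) i₁
  have j₂ := Exi.smaller m₂ (min_le_right c₁ c₂) i₂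
  rw [← hc] at j₁ j₂
  -- integrability of everything
  have gen : ∀ {κ : Measure ℝ} {f : ℝ → ℝ}, Measurable f →
      Integrable (fun x => f x * Real.exp (c * |x|)) κ → ∀ h : ℝ → ℝ, Measurable h →
      (∀ x, |h x| ≤ Real.exp (c * |x|)) →
      Integrable (fun x => max (f x) 0 * h x) κ ∧ Integrable (fun x => max (-f x) 0 * h x) κ := by
    intro κ f hf hi h hh hb
    constructor
    · refine Exi.mono hf hi (by fun_prop) fun x => ?_
      rw [abs_mul]
      refine mul_le_mul ?_ (hb x) (abs_nonneg _) (abs_nonneg _)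
      rw [abs_of_nonneg (le_max_right _ _)]
      exact max_le (le_abs_self _) (abs_nonneg _)
    · refine Exi.mono hf hi (by fun_prop) fun x => ?_
      rw [abs_mul]
      refine mul_le_mul ?_ (hb x) (abs_nonneg _) (abs_nonneg _)
      rw [abs_of_nonneg (le_max_right _ _)]
      exact max_le (neg_le_abs _) (abs_nonneg _)
  have gen' : ∀ {κ : Measure ℝ} {f : ℝ → ℝ}, Measurable f → Exi κ f → ∀ n : ℕ,
      Integrable (fun x => max (f x) 0 * x ^ n) κ ∧
      Integrable (fun x => max (-f x) 0 * x ^ n) κ ∧
      Integrable (fun x => x ^ n * f x) κ := by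
    intro κ f hf hi n
    have h3 : Integrable (fun x => x ^ n * f x) κ := (hi.pow hf n).integrable (by fun_prop)
    refine ⟨h3.mono (by fun_prop) (Filter.Eventually.of_forall fun x => ?_),
      h3.mono (by fun_prop) (Filter.Eventually.of_forall fun x => ?_), h3⟩
    · simp only [Real.norm_eq_abs, abs_mul]
      rw [mul_comm (|x ^ n|)]
      refine mul_le_mul_of_nonneg_right ?_ (abs_nonneg _)
      rw [abs_of_nonneg (le_max_right _ _)]
      exact max_le (le_abs_self _) (abs_nonneg _)
    · simp only [Real.norm_eq_abs, abs_mul]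
      rw [mul_comm (|x ^ n|)]
      refine mul_le_mul_of_nonneg_right ?_ (abs_nonneg _)
      rw [abs_of_nonneg (le_max_right _ _)]
      exact max_le (neg_le_abs _) (abs_nonneg _)
  have hexp : ∀ t : ℝ, |t| < c → ∀ x : ℝ, |Real.exp (t * x)| ≤ Real.exp (c * |x|) := by
    intro t ht x
    rw [abs_of_pos (Real.exp_pos _)]
    apply Real.exp_le_exp.2
    calc t * x ≤ |t * x| := le_abs_self _
      _ = |t| * |x| := abs_mul _ _
      _ ≤ c * |x| := by gcongr
  have hone : ∀ x : ℝ, |(1 : ℝ)| ≤ Real.exp (c * |x|) := by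
    intro x
    rw [abs_one]
    exact Real.one_le_exp (by positivity)
  have fin : ∀ {κ : Measure ℝ} {f : ℝ → ℝ}, Measurable f →
      Integrable (fun x => max (f x) 0 * 1) κ → IsFiniteMeasure (P κ f) := by
    intro κ f hf hi
    have h1 : Integrable (fun _ : ℝ => (1 : ℝ)) (P κ f) := (integrable_P hf _).2 hi
    exact (integrable_const_iff_isFiniteMeasure (c := (1 : ℝ)) one_ne_zero).1 h1
  have F1 := fin m₁ (gen m₁ j₁ (fun _ => 1) measurable_const hone).1
  have F2 := fin n₁ (gen m₁ j₁ (fun _ => 1) measurable_const hone).2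
  have F3 := fin m₂ (gen m₂ j₂ (fun _ => 1) measurable_const hone).1
  have F4 := fin n₂ (gen m₂ j₂ (fun _ => 1) measurable_const hone).2
  have key : P κ₁ f₁ + P κ₂ (fun x => - f₂ x) = P κ₁ (fun x => - f₁ x) + P κ₂ f₂ := by
    refine N804.meas_eq hc0 (fun t ht => ?_) (fun t ht => ?_) fun n => ?_
    · refine Integrable.add_measure ((integrable_P m₁ _).2 ?_) ((integrable_P n₂ _).2 ?_)
      · exact (gen m₁ j₁ _ (by fun_prop) (hexp t ht)).1
      · exact (gen m₂ j₂ _ (by fun_prop) (hexp t ht)).2
    · refine Integrable.add_measure ((integrable_P n₁ _).2 ?_) ((integrable_P m₂ _).2 ?_)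
      · exact (gen m₁ j₁ _ (by fun_prop) (hexp t ht)).2
      · exact (gen m₂ j₂ _ (by fun_prop) (hexp t ht)).1
    · obtain ⟨a1, a2, a3⟩ := gen' m₁ h₁ n
      obtain ⟨b1, b2, b3⟩ := gen' m₂ h₂ n
      rw [integral_add_measure ((integrable_P m₁ _).2 a1) ((integrable_P n₂ _).2 b2),
        integral_add_measure ((integrable_P n₁ _).2 a2) ((integrable_P m₂ _).2 b1),
        int_P m₁, int_P m₂, int_P n₁, int_P n₂]
      have e1 : ∫ x, x ^ n * f₁ x ∂κ₁
          = ∫ x, max (f₁ x) 0 * x ^ n ∂κ₁ - ∫ x, max (-f₁ x) 0 * x ^ n ∂κ₁ := by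
        rw [← integral_sub a1 a2]
        congr 1
        funext x
        have : f₁ x = max (f₁ x) 0 - max (-f₁ x) 0 := by
          rcases le_total 0 (f₁ x) with h | h
          · rw [max_eq_left h, max_eq_right (by linarith)]; ring
          · rw [max_eq_right h, max_eq_left (by linarith)]; ring
        conv_lhs => rw [this]
        ring
      have e2 : ∫ x, x ^ n * f₂ x ∂κ₂
          = ∫ x, max (f₂ x) 0 * x ^ n ∂κ₂ - ∫ x, max (-f₂ x) 0 * x ^ n ∂κ₂ := by
        rw [← integral_sub b1 b2]
        congr 1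
        funext x
        have : f₂ x = max (f₂ x) 0 - max (-f₂ x) 0 := by
          rcases le_total 0 (f₂ x) with h | h
          · rw [max_eq_left h, max_eq_right (by linarith)]; ring
          · rw [max_eq_right h, max_eq_left (by linarith)]; ring
        conv_lhs => rw [this]
        ring
      have e3 := hm n
      linarith
  -- evaluate on `A`
  set h : ℝ → ℝ := A.indicator fun _ => 1 with hh
  have hhm : Measurable h := measurable_const.indicator hA
  have hhb : ∀ x : ℝ, |h x| ≤ Real.exp (c * |x|) := by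
    intro x
    refine le_trans ?_ (hone x)
    rw [hh, abs_one]
    by_cases hx : x ∈ A
    · simp [hx]
    · simp [hx]
  obtain ⟨a1, a2⟩ := gen m₁ j₁ h hhm hhb
  obtain ⟨b1, b2⟩ := gen m₂ j₂ h hhm hhb
  have e0 : ∫ x, h x ∂(P κ₁ f₁ + P κ₂ (fun x => - f₂ x))
      = ∫ x, h x ∂(P κ₁ (fun x => - f₁ x) + P κ₂ f₂) := by rw [key]
  rw [integral_add_measure ((integrable_P m₁ _).2 a1) ((integrable_P n₂ _).2 b2),
    integral_add_measure ((integrable_P n₁ _).2 a2) ((integrable_P m₂ _).2 b1),
    int_P m₁, int_P m₂, int_P n₁, int_P n₂] at e0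
  have e1 : ∫ x in A, f₁ x ∂κ₁ = ∫ x, max (f₁ x) 0 * h x ∂κ₁ - ∫ x, max (-f₁ x) 0 * h x ∂κ₁ := by
    rw [← integral_sub a1 a2, ← integral_indicator hA]
    congr 1
    funext x
    by_cases hx : x ∈ A
    · simp only [hh, indicator_of_mem hx, mul_one]
      rcases le_total 0 (f₁ x) with h | h
      · rw [max_eq_left h, max_eq_right (by linarith)]; ring
      · rw [max_eq_right h, max_eq_left (by linarith)]; ring
    · simp [hh, hx]
  have e2 : ∫ x in A, f₂ x ∂κ₂ = ∫ x, max (f₂ x) 0 * h x ∂κ₂ - ∫ x, max (-f₂ x) 0 * h x ∂κ₂ := by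
    rw [← integral_sub b1 b2, ← integral_indicator hA]
    congr 1
    funext x
    by_cases hx : x ∈ A
    · simp only [hh, indicator_of_mem hx, mul_one]
      rcases le_total 0 (f₂ x) with h | h
      · rw [max_eq_left h, max_eq_right (by linarith)]; ring
      · rw [max_eq_right h, max_eq_left (by linarith)]; ring
    · simp [hh, hx]
  rw [e1, e2]
  linarith

/-- The normalised primitive. -/
noncomputable def prim (κ : Measure ℝ) (f : ℝ → ℝ) (x : ℝ) : ℝ :=
  if x < 0 then ∫ s in Iic x, f s ∂κ else - ∫ s in Ioi x, f s ∂κ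

/-- the kernel -/
noncomputable def ker (x s : ℝ) : ℝ :=
  if x < 0 then (if s ≤ x then 1 else 0) else (if x < s then -1 else 0)

theorem measurable_ker : Measurable fun p : ℝ × ℝ => ker p.1 p.2 := by
  unfold ker
  refine Measurable.ite (measurableSet_lt measurable_fst measurable_const) ?_ ?_
  · exact Measurable.ite (measurableSet_le measurable_snd measurable_fst) measurable_const
      measurable_const
  · exact Measurable.ite (measurableSet_lt measurable_fst measurable_snd) measurable_const
      measurable_const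

theorem prim_eq (κ : Measure ℝ) (f : ℝ → ℝ) (x : ℝ) : prim κ f x = ∫ s, ker x s * f s ∂κ := by
  unfold prim ker
  split_ifs with hx
  · rw [← integral_indicator measurableSet_Iic]
    congr 1
    funext s
    by_cases hs : s ≤ x
    · simp [hs]
    · simp [hs]
  · rw [← integral_indicator measurableSet_Ioi, ← integral_neg]
    congr 1
    funext s
    by_cases hs : x < s
    · simp [hs]
    · simp [hs]

theorem int_ker (g : ℝ → ℝ) (hg : Continuous g) (s : ℝ) :
    Integrable (fun x => g x * ker x s) ∧ ∫ x, g x * ker x s = - ∫ x in (0 : ℝ)..s, g x := by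
  rcases lt_or_ge s 0 with hs | hs
  · have e : (fun x => g x * ker x s) = (Ico s 0).indicator g := by
      funext x
      unfold ker
      by_cases hx : x ∈ Ico s 0
      · rw [indicator_of_mem hx, if_pos hx.2, if_pos hx.1, mul_one]
      · rw [indicator_of_notMem hx]
        rw [mem_Ico, not_and_or, not_le, not_lt] at hx
        rcases hx with hx | hx
        · rw [if_pos (hx.trans hs), if_neg (not_le.2 hx), mul_zero]
        · rw [if_neg (not_lt.2 hx), if_neg (not_lt.2 (hs.le.trans hx)), mul_zero]
    rw [e]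
    have hi : IntegrableOn g (Ico s 0) := (hg.integrableOn_Icc (a := s) (b := 0)).mono_set Ico_subset_Icc_self
    refine ⟨(integrable_indicator_iff measurableSet_Ico).2 hi, ?_⟩
    rw [integral_indicator measurableSet_Ico, integral_Ico_eq_integral_Ioc,
      intervalIntegral.integral_symm, neg_neg, intervalIntegral.integral_of_le hs.le]
  · have e : (fun x => g x * ker x s) = (Ico 0 s).indicator fun x => - g x := by
      funext x
      unfold ker
      by_cases hx : x ∈ Ico 0 s
      · rw [indicator_of_mem hx, if_neg (not_lt.2 hx.1), if_pos hx.2]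
        ring
      · rw [indicator_of_notMem hx]
        rw [mem_Ico, not_and_or, not_le, not_lt] at hx
        rcases hx with hx | hx
        · rw [if_pos hx, if_neg (not_le.2 (hx.trans_le hs)), mul_zero]
        · rw [if_neg (not_lt.2 (hs.trans hx)), if_neg (not_lt.2 hx), mul_zero]
    rw [e]
    have hi : IntegrableOn (fun x => - g x) (Ico 0 s) :=
      (hg.neg.integrableOn_Icc (a := 0) (b := s)).mono_set Ico_subset_Icc_self
    refine ⟨(integrable_indicator_iff measurableSet_Ico).2 hi, ?_⟩
    rw [integral_indicator measurableSet_Ico, integral_Ico_eq_integral_Ioc,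
      intervalIntegral.integral_of_le hs, integral_neg]

theorem abs_ker_bound (s x : ℝ) : |ker x s| ≤ 1 ∧ (|s| < |x| → ker x s = 0) := by
  unfold ker
  constructor
  · split_ifs <;> simp
  · intro h
    rcases lt_or_ge x 0 with hx | hx
    · rw [if_pos hx, if_neg]
      rw [abs_of_neg hx] at h
      have := neg_abs_le s
      linarith
    · rw [if_neg (not_lt.2 hx), if_neg]
      rw [abs_of_nonneg hx] at h
      have := le_abs_self s
      linarith

theorem prim_aux {κ : Measure ℝ} [SFinite κ] {f : ℝ → ℝ} (hf : Measurable f) (g : ℝ → ℝ)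
    (hg : Continuous g) (G : ℝ → ℝ) (hG : ∀ s x : ℝ, |x| ≤ |s| → |g x| ≤ G s)
    (hint : Integrable (fun s => |s| * G s * f s) κ) :
    Integrable (fun x => g x * prim κ f x) ∧
      ∫ x, g x * prim κ f x = - ∫ s, (∫ x in (0 : ℝ)..s, g x) * f s ∂κ := by
  set F : ℝ × ℝ → ℝ := fun p => g p.1 * ker p.1 p.2 * f p.2 with hF
  have hFm : Measurable F := ((hg.measurable.comp measurable_fst).mul measurable_ker).mul
    (hf.comp measurable_snd)
  have hFi : Integrable F ((volume : Measure ℝ).prod κ) := by
    rw [integrable_prod_iff' hFm.aestronglyMeasurable]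
    constructor
    · refine Filter.Eventually.of_forall fun s => ?_
      exact (int_ker g hg s).1.mul_const (f s)
    · refine hint.norm.mono' ?_ (Filter.Eventually.of_forall fun s => ?_)
      · exact (hFm.stronglyMeasurable.norm.integral_prod_left').aestronglyMeasurable
      · rw [Real.norm_eq_abs, abs_of_nonneg (integral_nonneg fun x => norm_nonneg _)]
        have h0 : ∀ x, ‖F (x, s)‖ ≤ |f s| * (|g x| * |ker x s|) := by
          intro x
          simp only [hF, Real.norm_eq_abs, abs_mul]
          exact le_of_eq (by ring)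
        have hk : (fun x => |g x| * |ker x s|)
            = fun x => |(fun x => g x * ker x s) x| := by
          funext x; simp [abs_mul]
        have hk2 : Integrable fun x => |g x| * |ker x s| := by
          rw [hk]; exact (int_ker g hg s).1.abs
        calc ∫ x, ‖F (x, s)‖ ≤ ∫ x, |f s| * (|g x| * |ker x s|) := by
              refine integral_mono_of_nonneg (Filter.Eventually.of_forall fun x => norm_nonneg _)
                (hk2.const_mul _) (Filter.Eventually.of_forall h0)
          _ = |f s| * ∫ x, |g x| * |ker x s| := integral_const_mul _ _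
          _ ≤ |f s| * (G s * |s|) := by
            refine mul_le_mul_of_nonneg_left ?_ (abs_nonneg _)
            have hb : ∀ x, |g x| * |ker x s| ≤ G s * |ker x s| := by
              intro x
              rcases lt_or_ge |s| |x| with hx | hx
              · rw [(abs_ker_bound s x).2 hx]; simp
              · exact mul_le_mul_of_nonneg_right (hG s x hx) (abs_nonneg _)
            have hks : Integrable fun x => |ker x s| := by
              have := (int_ker (fun _ => 1) continuous_const s).1.abs
              simpa using this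
            have hks2 : ∫ x, |ker x s| = |s| := by
              rcases lt_or_ge s 0 with hs | hs
              · have e : (fun x => |ker x s|) = fun x => 1 * ker x s := by
                  funext x
                  rw [one_mul, abs_of_nonneg]
                  unfold ker
                  split_ifs with h1 h2 h3
                  · exact zero_le_one
                  · exact le_rfl
                  · exfalso; linarith
                  · exact le_rfl
                rw [e, (int_ker (fun _ => 1) continuous_const s).2]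
                simp [abs_of_neg hs]
              · have e : (fun x => |ker x s|) = fun x => (-1) * ker x s := by
                  funext x
                  rw [abs_of_nonpos]
                  · ring
                  unfold ker
                  split_ifs with h1 h2 h3
                  · exfalso; linarith
                  · exact le_rfl
                  · norm_num
                  · exact le_rfl
                rw [e, (int_ker (fun _ => -1) continuous_const s).2]
                simp [abs_of_nonneg hs]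
            calc ∫ x, |g x| * |ker x s| ≤ ∫ x, G s * |ker x s| :=
                  integral_mono hk2 (hks.const_mul _) hb
              _ = G s * |s| := by rw [integral_const_mul, hks2]
          _ ≤ ‖|s| * G s * f s‖ := by
            rw [Real.norm_eq_abs, abs_mul, abs_mul, abs_abs]
            have : G s ≤ |G s| := le_abs_self _
            have h2 := mul_nonneg (abs_nonneg (f s)) (abs_nonneg s)
            nlinarith
  have e1 : ∀ x, g x * prim κ f x = ∫ s, F (x, s) ∂κ := by
    intro x
    rw [prim_eq, ← integral_const_mul]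
    congr 1
    funext s
    simp only [hF]
    ring
  have e2 : ∀ s, ∫ x, F (x, s) = - ((∫ x in (0 : ℝ)..s, g x) * f s) := by
    intro s
    simp only [hF]
    rw [integral_mul_const, (int_ker g hg s).2]
    ring
  constructor
  · simp_rw [e1]
    exact hFi.integral_prod_left
  · simp_rw [e1]
    rw [← integral_prod _ hFi, integral_prod_symm _ hFi]
    simp_rw [e2]
    rw [integral_neg]

theorem measurable_prim {κ : Measure ℝ} [SFinite κ] {f : ℝ → ℝ} (hf : Measurable f) :
    Measurable (prim κ f) := by
  have : prim κ f = fun x => ∫ s, ker x s * f s ∂κ := by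
    funext x; exact prim_eq κ f x
  rw [this]
  have h : StronglyMeasurable fun p : ℝ × ℝ => ker p.1 p.2 * f p.2 :=
    (measurable_ker.mul (hf.comp measurable_snd)).stronglyMeasurable
  exact h.integral_prod_right'.measurable

theorem exi_prim {κ : Measure ℝ} [SFinite κ] {f : ℝ → ℝ} (hf : Measurable f) (h : Exi κ f) :
    Exi volume (prim κ f) := by
  obtain ⟨c, hc, hi⟩ := h
  refine ⟨c / 2, half_pos hc, ?_⟩
  obtain ⟨K, hK, hp⟩ := pow_le_exp 1 (half_pos hc)
  have h1 := (prim_aux (κ := κ) hf (fun x => Real.exp (c / 2 * |x|)) (by fun_prop)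
    (fun s => Real.exp (c / 2 * |s|)) (fun s x hx => by
      rw [abs_of_pos (Real.exp_pos _)]; gcongr) ?_).1
  · refine h1.congr (Filter.Eventually.of_forall fun x => ?_)
    simp only
    ring
  · refine (hi.norm.const_mul K).mono' (by fun_prop) (Filter.Eventually.of_forall fun x => ?_)
    rw [Real.norm_eq_abs, Real.norm_eq_abs, abs_mul, abs_mul, abs_mul, abs_abs,
      abs_of_pos (Real.exp_pos _), abs_of_pos (Real.exp_pos _)]
    have e : Real.exp (c * |x|) = Real.exp (c / 2 * |x|) * Real.exp (c / 2 * |x|) := by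
      rw [← Real.exp_add]; congr 1; ring
    rw [e]
    have := hp x
    rw [pow_one] at this
    calc |x| * Real.exp (c / 2 * |x|) * |f x|
        ≤ (K * Real.exp (c / 2 * |x|)) * Real.exp (c / 2 * |x|) * |f x| := by
          gcongr
      _ = K * (|f x| * (Real.exp (c / 2 * |x|) * Real.exp (c / 2 * |x|))) := by ring

theorem mom_prim {κ : Measure ℝ} [SFinite κ] {f : ℝ → ℝ} (hf : Measurable f) (h : Exi κ f)
    (n : ℕ) : ∫ x, x ^ n * prim κ f x = - ∫ s, s ^ (n + 1) / (n + 1) * f s ∂κ := by
  have h1 := (prim_aux (κ := κ) hf (fun x => x ^ n) (by fun_prop)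
    (fun s => |s| ^ n) (fun s x hx => by
      rw [abs_pow]; gcongr) ?_).2
  · rw [h1]
    congr 2
    funext s
    rw [integral_pow]
    simp
  · have h2 := ((h.pow hf (n + 1)).integrable (by fun_prop)).norm
    refine h2.mono (by fun_prop) (Filter.Eventually.of_forall fun x => ?_)
    rw [Real.norm_eq_abs, Real.norm_eq_abs, Real.norm_eq_abs, abs_abs, abs_mul, abs_mul, abs_mul,
      abs_abs, abs_pow, abs_pow, abs_abs, pow_succ]
    exact le_of_eq (by ring)

theorem prim_sub {κ : Measure ℝ} {f : ℝ → ℝ} (hf : Integrable f κ) {x y : ℝ} (hxy : x ≤ y) :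
    prim κ f y - prim κ f x = (∫ s in Ioc x y, f s ∂κ)
      - (if x < 0 ∧ 0 ≤ y then ∫ s, f s ∂κ else 0) := by
  have e1 : (∫ s in Iic y, f s ∂κ) = (∫ s in Iic x, f s ∂κ) + ∫ s in Ioc x y, f s ∂κ := by
    rw [← Iic_union_Ioc_eq_Iic hxy, setIntegral_union (Iic_disjoint_Ioc le_rfl) measurableSet_Ioc
      hf.integrableOn hf.integrableOn]
  have e2 : (∫ s in Ioi x, f s ∂κ) = (∫ s in Ioc x y, f s ∂κ) + ∫ s in Ioi y, f s ∂κ := by
    rw [← Ioc_union_Ioi_eq_Ioi hxy, setIntegral_union (Ioc_disjoint_Ioi le_rfl) measurableSet_Ioi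
      hf.integrableOn hf.integrableOn]
  have e3 : ∫ s, f s ∂κ = (∫ s in Iic y, f s ∂κ) + ∫ s in Ioi y, f s ∂κ := by
    rw [← setIntegral_univ, ← Iic_union_Ioi (a := y), setIntegral_union (Iic_disjoint_Ioi le_rfl) measurableSet_Ioi
      hf.integrableOn hf.integrableOn]
  unfold prim
  rcases lt_or_ge x 0 with hx | hx
  · rcases lt_or_ge y 0 with hy | hy
    · rw [if_pos hy, if_pos hx, if_neg (fun h => absurd h.2 (not_le.2 hy)), e1]
      ring
    · rw [if_neg (not_lt.2 hy), if_pos hx, if_pos ⟨hx, hy⟩, e3, e1]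
      ring
  · rw [if_neg (not_lt.2 (hx.trans hxy)), if_neg (not_lt.2 hx), if_neg (fun h => absurd h.1 (not_lt.2 hx)), e2]
    ring

end Pool.Agent.U592.KR
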