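import Pool.Agent.U592.KR.Mass

/-!
# Reflection and behaviour at the ends
-/

set_option autoImplicit false

open MeasureTheory Polynomial Set Filter Topology

namespace Pool.Agent.U592.KR

/-- the reflected measure -/
noncomputable def rm (μ : Measure ℝ) : Measure ℝ := μ.map fun x => -x

/-- the reflected polynomial -/
noncomputable def rp (p : ℝ[X]) : ℝ[X] := p.comp (-X)

theorem negEmb : MeasurableEmbedding (fun x : ℝ => -x) := (MeasurableEquiv.neg ℝ).measurableEmbedding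

theorem rp_rp (p : ℝ[X]) : rp (rp p) = p := by
  unfold rp
  rw [comp_assoc]
  simp

theorem rp_mul (p q : ℝ[X]) : rp (p * q) = rp p * rp q := by
  unfold rp; simp

theorem rp_neg (p : ℝ[X]) : rp (-p) = - rp p := by
  unfold rp; simp

theorem rp_eval (p : ℝ[X]) (x : ℝ) : (rp p).eval x = p.eval (-x) := by
  unfold rp; simp [eval_comp]

theorem rp_der (p : ℝ[X]) : derivative (rp p) = - rp (derivative p) := by
  unfold rp
  rw [derivative_comp]
  simp

theorem rp_nd (p : ℝ[X]) : (rp p).natDegree = p.natDegree := by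
  unfold rp
  rw [natDegree_comp]
  simp

theorem rp_lc (p : ℝ[X]) : (rp p).leadingCoeff = p.leadingCoeff * (-1) ^ p.natDegree := by
  unfold rp
  rw [leadingCoeff_comp (by simp)]
  simp

theorem rm_rm (μ : Measure ℝ) : rm (rm μ) = μ := by
  unfold rm
  rw [Measure.map_map (by fun_prop) (by fun_prop)]
  have : ((fun x : ℝ => -x) ∘ fun x => -x) = id := by funext x; simp
  rw [this, Measure.map_id]

theorem rm_apply (μ : Measure ℝ) (s : Set ℝ) : rm μ s = μ ((fun x => -x) ⁻¹' s) :=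
  negEmb.map_apply _ _

theorem rm_singleton (μ : Measure ℝ) (a : ℝ) : rm μ {a} = μ {-a} := by
  rw [rm_apply]
  congr 1
  ext x
  simp only [mem_preimage, mem_singleton_iff]
  constructor <;> intro h <;> linarith

theorem rm_real_singleton (μ : Measure ℝ) (a : ℝ) : (rm μ).real {a} = μ.real {-a} := by
  unfold Measure.real
  rw [rm_singleton]

theorem J_rm (μ : Measure ℝ) (g : ℝ[X]) : J (rm μ) g = J μ (rp g) := by
  unfold J rm
  rw [negEmb.integral_map]
  simp only [rp_eval]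

theorem Mom.rm {μ : Measure ℝ} (h : Mom μ) : Mom (rm μ) := by
  intro k
  unfold KR.rm
  rw [negEmb.integrable_map_iff]
  refine ((h k).const_mul ((-1) ^ k)).congr (Eventually.of_forall fun x => ?_)
  simp only [Function.comp]
  rw [← mul_pow]
  congr 1
  ring

theorem FE.reflect {φ ψ η : Measure ℝ} {ρ τ ω δ : ℝ[X]} (h : FE φ ψ η ρ τ ω δ) :
    FE (rm φ) (rm ψ) (rm η) (rp ρ) (-(rp τ)) (rp ω) (-(rp δ)) where
  mφ := h.mφ.rm
  mψ := h.mψ.rm
  mη := h.mη.rm
  dρ := by rw [rp_nd]; exact h.dρ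
  dτ := by rw [natDegree_neg, rp_nd]; exact h.dτ
  dω := by rw [rp_nd]; exact h.dω
  dδ := by rw [natDegree_neg, rp_nd]; exact h.dδ
  e1 g := by rw [J_rm, J_rm, rp_mul, rp_rp, h.e1]
  e2 g := by
    have e : rp (derivative g) = - derivative (rp g) := by rw [rp_der]; simp
    rw [J_rm, J_rm, rp_mul, rp_neg, rp_rp, e, J_neg, h.e2, neg_mul, J_neg]
  e3 g := by
    have e : rp (derivative (derivative g)) = derivative (derivative (rp g)) := by
      rw [rp_der, derivative_neg, rp_der]; simp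
    rw [J_rm, J_rm, J_rm, rp_mul, rp_rp, h.e3, e]
  e4 g := by
    have e : rp (derivative g) = - derivative (rp g) := by rw [rp_der]; simp
    rw [J_rm, J_rm, rp_mul, rp_neg, rp_rp, e, J_neg, h.e4, neg_mul, J_neg]

/-- The system together with its reflection. -/
structure Bi (φ : Measure ℝ) (ρ τ ω δ : ℝ[X]) (R : ℝ → ℝ) : Prop where
  s : ∃ T v, Sys φ ρ τ ω δ R T v
  r : ∃ T v, Sys (rm φ) (rp ρ) (-(rp τ)) (rp ω) (-(rp δ)) (fun x => R (-x)) T v
  inf : ∀ s : Finset ℝ, φ ((↑s : Set ℝ)ᶜ) ≠ 0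

theorem rm_inf {φ : Measure ℝ} (h : ∀ s : Finset ℝ, φ ((↑s : Set ℝ)ᶜ) ≠ 0) (s : Finset ℝ) :
    rm φ ((↑s : Set ℝ)ᶜ) ≠ 0 := by
  classical
  rw [rm_apply]
  have := h (s.image fun x => -x)
  convert this using 2
  ext x
  simp only [mem_preimage, mem_compl_iff, Finset.mem_coe, Finset.mem_image, not_exists, not_and]
  constructor
  · rintro h1 y hy rfl
    simp only [neg_neg] at h1
    exact h1 hy
  · intro h1 h2
    exact h1 _ h2 (by simp)

theorem Bi.reflect {φ : Measure ℝ} {ρ τ ω δ : ℝ[X]} {R : ℝ → ℝ} (h : Bi φ ρ τ ω δ R) :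
    Bi (rm φ) (rp ρ) (-(rp τ)) (rp ω) (-(rp δ)) (fun x => R (-x)) := by
  refine ⟨h.r, ?_, rm_inf h.inf⟩
  obtain ⟨T, v, hs⟩ := h.s
  refine ⟨T, v, ?_⟩
  rw [rm_rm, rp_neg, rp_neg, rp_rp, rp_rp, rp_rp, rp_rp]
  simpa using hs

theorem Bi.exists {φ ψ η : Measure ℝ} {ρ τ ω δ : ℝ[X]} (h : FE φ ψ η ρ τ ω δ) (hη : η ≠ 0)
    (hφ : ∀ s : Finset ℝ, φ ((↑s : Set ℝ)ᶜ) ≠ 0) : ∃ R, Bi φ ρ τ ω δ R := by
  have h0 : ∀ {μ : Measure ℝ}, (∀ s : Finset ℝ, μ ((↑s : Set ℝ)ᶜ) ≠ 0) → μ ≠ 0 := by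
    rintro μ hμ rfl
    exact hμ ∅ (by simp)
  have hη' : rm η ≠ 0 := by
    intro e
    apply hη
    rw [← rm_rm η, e]
    simp [rm]
  obtain ⟨R, T, v, hs, hc, hA⟩ := Sys.exists h hη (h0 hφ)
  obtain ⟨R', T', v', hs', hc', hA'⟩ := Sys.exists h.reflect hη' (h0 (rm_inf hφ))
  have fη := h.mη.finite
  have key : R' = fun x => R (-x) := by
    have hi : Integrable R' := hs'.iR0
    have hi2 : Integrable fun x => R (-x) := hs.iR0.comp_neg
    have e : R' =ᵐ[volume] fun x => R (-x) := by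
      refine hi.ae_eq_of_forall_setIntegral_eq _ _ hi2 fun A hA0 _ => ?_
      rw [← hA' A hA0]
      have hAn : MeasurableSet ((fun x : ℝ => -x) ⁻¹' A) := measurable_neg hA0
      have e1 : ∫ _s in A, (1 : ℝ) ∂(rm η) = ∫ _s in (fun x : ℝ => -x) ⁻¹' A, (1 : ℝ) ∂η := by
        unfold rm
        rw [negEmb.setIntegral_map]
      rw [e1, hA _ hAn]
      have e2 : ∫ x in A, R (-x) = ∫ x in A, R (-x) ∂(Measure.map (fun x : ℝ => -x) volume) := by
        rw [(Measure.measurePreserving_neg (volume : Measure ℝ)).map_eq]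
      rw [e2, negEmb.setIntegral_map]
      simp
    exact (Continuous.ae_eq_iff_eq volume hc' (hc.comp continuous_neg)).1 e
  refine ⟨R, ⟨T, v, hs⟩, ⟨T', v', ?_⟩, hφ⟩
  rw [← key]
  exact hs'

theorem left_end (ρ : ℝ[X]) {x₀ : ℝ} (h0 : 0 < ρ.eval x₀) :
    (∀ x, x ≤ x₀ → 0 < ρ.eval x) ∨ ∃ a < x₀, ρ.eval a = 0 ∧ ∀ x ∈ Ioc a x₀, 0 < ρ.eval x := by
  set A : Set ℝ := {x | x ≤ x₀ ∧ ρ.eval x ≤ 0} with hA
  by_cases hne : A.Nonempty
  · right
    have hcl : IsClosed A := isClosed_Iic.inter (isClosed_le ρ.continuous continuous_const)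
    have hbd : BddAbove A := ⟨x₀, fun x hx => hx.1⟩
    have hm := hcl.csSup_mem hne hbd
    set a := sSup A with ha
    have hax : a < x₀ := by
      refine lt_of_le_of_ne hm.1 fun e => ?_
      have := hm.2
      rw [e] at this
      linarith
    have hpos : ∀ x ∈ Ioc a x₀, 0 < ρ.eval x := by
      intro x hx
      by_contra hlt
      have : x ≤ a := le_csSup hbd ⟨hx.2, not_lt.1 hlt⟩
      linarith [hx.1]
    refine ⟨a, hax, le_antisymm hm.2 ?_, hpos⟩
    have ht : Tendsto (fun x => ρ.eval x) (𝓝[>] a) (𝓝 (ρ.eval a)) :=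
      (ρ.continuous.continuousAt (x := a)).mono_left nhdsWithin_le_nhds
    refine ge_of_tendsto ht ?_
    filter_upwards [Ioo_mem_nhdsGT hax] with x hx
    exact (hpos x ⟨hx.1, hx.2.le⟩).le
  · left
    intro x hx
    by_contra hlt
    exact hne ⟨x, hx, not_lt.1 hlt⟩

theorem right_end (ρ : ℝ[X]) {x₀ : ℝ} (h0 : 0 < ρ.eval x₀) :
    (∀ x, x₀ ≤ x → 0 < ρ.eval x) ∨ ∃ b > x₀, ρ.eval b = 0 ∧ ∀ x ∈ Ico x₀ b, 0 < ρ.eval x := by
  rcases left_end (rp ρ) (x₀ := -x₀) (by rw [rp_eval]; simpa using h0) with h | ⟨a, h1, h2, h3⟩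
  · left
    intro x hx
    have := h (-x) (by linarith)
    rw [rp_eval] at this
    simpa using this
  · right
    refine ⟨-a, by linarith, by rw [rp_eval] at h2; exact h2, ?_⟩
    intro x hx
    have := h3 (-x) ⟨by linarith [hx.2], by linarith [hx.1]⟩
    rw [rp_eval] at this
    simpa using this

theorem ev_nonneg_of_lc {q : ℝ[X]} (h : 0 ≤ q.leadingCoeff) : ∀ᶠ x in atTop, 0 ≤ q.eval x := by
  rcases Nat.eq_zero_or_pos q.natDegree with h0 | h0
  · rw [natDegree_eq_zero] at h0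
    obtain ⟨c, rfl⟩ := h0
    rw [leadingCoeff_C] at h
    exact Eventually.of_forall fun x => by simpa using h
  · exact (q.tendsto_atTop_of_leadingCoeff_nonneg (natDegree_pos_iff_degree_pos.1 h0)
      h).eventually_ge_atTop 0

theorem Sys.right {φ : Measure ℝ} {ρ τ ω δ : ℝ[X]} {R T v : ℝ → ℝ} (h : Sys φ ρ τ ω δ R T v)
    {b : ℝ} (hpos : ∀ x, b < x → 0 < ρ.eval x)
    (hc : τ.natDegree < ρ.natDegree ∨ 0 ≤ τ.leadingCoeff) : ∀ x, b < x → R x = 0 := by
  intro x hx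
  by_contra hne
  have hRx : 0 < R x := lt_of_le_of_ne (h.R0 x) (Ne.symm hne)
  have hp := h.pos_on isOpen_Ioi isPreconnected_Ioi (s := Ioi b) hpos hx hRx
  obtain ⟨M, hM⟩ : ∃ M : ℕ, ∀ᶠ x in atTop, -(M : ℝ) * ρ.eval x ≤ x * τ.eval x := by
    rcases hc with hc | hc
    · have hdeg : (X * τ).degree ≤ ρ.degree := by
        by_cases hτ : τ = 0
        · simp [hτ]
        · rw [degree_mul, degree_X, degree_eq_natDegree hτ, degree_eq_natDegree h.ρ0]
          have : 1 + τ.natDegree ≤ ρ.natDegree := by omega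
          exact_mod_cast this
      have hO := isBigO_of_degree_le (X * τ) ρ hdeg
      obtain ⟨C, hC⟩ := hO.bound
      obtain ⟨M, hM⟩ := exists_nat_ge C
      refine ⟨M, ?_⟩
      filter_upwards [hC, eventually_gt_atTop b] with x hx hbx
      have hx0 : 0 < ρ.eval x := hpos x hbx
      simp only [eval_mul, eval_X, Real.norm_eq_abs] at hx
      rw [abs_of_pos hx0] at hx
      have h1 := neg_abs_le (x * τ.eval x)
      have h2 : C * ρ.eval x ≤ M * ρ.eval x := by gcongr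
      linarith
    · refine ⟨0, ?_⟩
      filter_upwards [ev_nonneg_of_lc hc, eventually_ge_atTop 0] with x h1 h2
      simpa using mul_nonneg h2 h1
  obtain ⟨N, hN⟩ := eventually_atTop.1 hM
  set X₀ : ℝ := max (max N b) 1 with hX₀
  have h1 : 0 < X₀ := lt_of_lt_of_le one_pos (le_max_right _ _)
  have h2 : N ≤ X₀ := (le_max_left _ _).trans (le_max_left _ _)
  have h3 : b ≤ X₀ := (le_max_right _ _).trans (le_max_left _ _)
  have h4 := h.inf h1 M (fun x hx => hpos x (h3.trans_lt hx)) (fun x hx => hN x (h2.trans hx.le))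
    (X₀ + 1) (by linarith)
  have h5 := hp (X₀ + 1) (show b < X₀ + 1 by linarith)
  linarith

theorem Bi.left {φ : Measure ℝ} {ρ τ ω δ : ℝ[X]} {R : ℝ → ℝ} (h : Bi φ ρ τ ω δ R)
    {a : ℝ} (hpos : ∀ x, x < a → 0 < ρ.eval x)
    (hc : τ.natDegree < ρ.natDegree ∨ 0 ≤ -(τ.leadingCoeff * (-1) ^ τ.natDegree)) :
    ∀ x, x < a → R x = 0 := by
  obtain ⟨T, v, hr⟩ := h.r
  intro x hx
  have := hr.right (b := -a) (fun y hy => by rw [rp_eval]; exact hpos _ (by linarith)) ?_ (-x)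
    (by linarith)
  · simpa using this
  · rw [natDegree_neg, rp_nd, rp_nd, leadingCoeff_neg, rp_lc]
    exact hc

/-- a root bounding an interval where `R > 0` is multiple -/
theorem Sys.mult {φ : Measure ℝ} {ρ τ ω δ : ℝ[X]} {R T v : ℝ → ℝ} (h : Sys φ ρ τ ω δ R T v)
    {a x₀ : ℝ} (hax : a < x₀) (hpos : ∀ x ∈ Ioc a x₀, 0 < ρ.eval x) (ha : ρ.eval a = 0)
    (hR : 0 < R x₀) : (derivative ρ).eval a = 0 := by
  by_contra hne
  have hρ0 : 0 < ρ.eval x₀ := hpos x₀ ⟨hax, le_rfl⟩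
  have hU : {x | 0 < ρ.eval x ∧ 0 < R x} ∈ 𝓝 x₀ :=
    ((isOpen_pos ρ).inter (isOpen_lt continuous_const h.cont)).mem_nhds ⟨hρ0, hR⟩
  have h2 : {x | 0 < ρ.eval x ∧ 0 < R x} ∈ 𝓝[<] x₀ := nhdsWithin_le_nhds hU
  obtain ⟨x, hx1, hx2⟩ := Filter.nonempty_of_mem (inter_mem h2 (Ioo_mem_nhdsLT hax))
  have := h.simple hax (fun y hy => hpos y ⟨hy.1, hy.2.le⟩) ha hne x hx2
  have h3 : 0 < R x := hx1.2
  linarith

theorem Bi.mult_right {φ : Measure ℝ} {ρ τ ω δ : ℝ[X]} {R : ℝ → ℝ} (h : Bi φ ρ τ ω δ R)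
    {b x₀ : ℝ} (hbx : x₀ < b) (hpos : ∀ x ∈ Ico x₀ b, 0 < ρ.eval x) (hb : ρ.eval b = 0)
    (hR : 0 < R x₀) : (derivative ρ).eval b = 0 := by
  obtain ⟨T, v, hr⟩ := h.r
  have := hr.mult (a := -b) (x₀ := -x₀) (by linarith)
    (fun y hy => by rw [rp_eval]; exact hpos _ ⟨by linarith [hy.2], by linarith [hy.1]⟩)
    (by rw [rp_eval]; simpa using hb) (by simpa using hR)
  rw [rp_der, eval_neg, rp_eval] at this
  simpa using this

theorem Bi.exists_pos {φ : Measure ℝ} {ρ τ ω δ : ℝ[X]} {R : ℝ → ℝ} (h : Bi φ ρ τ ω δ R) :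
    ∃ x₀, 0 < ρ.eval x₀ ∧ 0 < R x₀ := by
  obtain ⟨T, v, hs⟩ := h.s
  have fin := hs.fin
  by_contra hne
  simp only [not_exists, not_and, not_lt] at hne
  have hz : ∀ x ∈ {x | 0 < ρ.eval x}, R x = 0 := fun x hx => le_antisymm (hne x hx) (hs.R0 x)
  have hSm : MeasurableSet {x | 0 < ρ.eval x} := (isOpen_pos ρ).measurableSet
  have e := hs.setInt hSm (fun x hx => hx) fun _ => 1
  have e1 : ∫ x in {x | 0 < ρ.eval x}, (1 : ℝ) * (R x / ρ.eval x) = 0 := by
    rw [setIntegral_congr_fun (g := fun _ => (0 : ℝ)) hSm fun x hx => ?_]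
    · simp
    · simp only
      rw [hz x hx]; simp
  rw [e1] at e
  simp only [integral_const, smul_eq_mul, mul_one, measureReal_restrict_apply MeasurableSet.univ,
    univ_inter] at e
  rw [measureReal_eq_zero_iff] at e
  refine h.inf ρ.roots.toFinset (measure_mono_null (fun x hx => ?_) (measure_union_null e hs.neg))
  rcases lt_trichotomy (ρ.eval x) 0 with h1 | h1 | h1
  · exact Or.inr h1
  · exfalso
    apply hx
    rw [Finset.mem_coe, Multiset.mem_toFinset, mem_roots hs.ρ0]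
    exact h1
  · exact Or.inl h1

end Pool.Agent.U592.KR
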