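import Pool.Agent.U592.KR.Prim

/-!
# The system for the densities
-/

set_option autoImplicit false

open MeasureTheory Polynomial Set

namespace Pool.Agent.U592.KR

theorem Mom.finite {μ : Measure ℝ} (h : Mom μ) : IsFiniteMeasure μ := by
  have h1 : Integrable (fun _ : ℝ => (1 : ℝ)) μ := by simpa using h 0
  exact (integrable_const_iff_isFiniteMeasure (c := (1 : ℝ)) one_ne_zero).1 h1

theorem exi_of_dom {φ α : Measure ℝ} (hα : Mom α) (f : ℝ → ℝ) (hf : Measurable f)
    (h : Exi φ f) (hd : ∀ n : ℕ, ∫ x, x ^ (2 * n) ∂α ≤ ∫ x, |f x| * x ^ (2 * n) ∂φ) :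
    Exi α fun _ => 1 := by
  have h' := h
  obtain ⟨c, hc0, hi⟩ := h
  refine ⟨c, hc0, ?_⟩
  have hI : ∀ n : ℕ, Integrable (fun x => |f x| * x ^ (2 * n)) φ := by
    intro n
    refine ((h'.pow hf (2 * n)).integrable (by fun_prop)).norm.mono (by fun_prop)
      (Filter.Eventually.of_forall fun x => ?_)
    simp only [Real.norm_eq_abs, abs_mul, abs_abs]
    exact le_of_eq (mul_comm _ _)
  have hdom : Integrable (fun x => |f x| * Real.cosh (c * x)) φ := by
    refine Exi.mono hf hi (by fun_prop) fun x => ?_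
    rw [abs_mul, abs_abs]
    refine mul_le_mul_of_nonneg_left ?_ (abs_nonneg _)
    rw [abs_of_pos (Real.cosh_pos _), Real.cosh_eq]
    have e1 : Real.exp (c * x) ≤ Real.exp (c * |x|) := by gcongr; exact le_abs_self x
    have e2 : Real.exp (-(c * x)) ≤ Real.exp (c * |x|) := by
      apply Real.exp_le_exp.2
      have := neg_abs_le x
      nlinarith
    linarith
  have hcosh : ∫⁻ x, ENNReal.ofReal (Real.cosh (c * x)) ∂α < ⊤ := by
    have e1 : ∀ x : ℝ, ENNReal.ofReal (Real.cosh (c * x))
        = ∑' n : ℕ, ENNReal.ofReal ((c * x) ^ (2 * n) / (2 * n).factorial) := by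
      intro x
      have hs := Real.hasSum_cosh (c * x)
      rw [← hs.tsum_eq, ENNReal.ofReal_tsum_of_nonneg _ hs.summable]
      intro n
      have : (0 : ℝ) ≤ (c * x) ^ (2 * n) := by
        rw [pow_mul]; positivity
      positivity
    have e1' : ∀ x : ℝ, ENNReal.ofReal (|f x| * Real.cosh (c * x))
        = ∑' n : ℕ, ENNReal.ofReal (|f x| * ((c * x) ^ (2 * n) / (2 * n).factorial)) := by
      intro x
      rw [ENNReal.ofReal_mul (abs_nonneg _), e1, ← ENNReal.tsum_mul_left]
      congr 1
      funext n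
      rw [ENNReal.ofReal_mul (abs_nonneg _)]
    have hfin : ∫⁻ x, ENNReal.ofReal (|f x| * Real.cosh (c * x)) ∂φ < ⊤ := by
      have := hdom.2
      rw [hasFiniteIntegral_iff_ofReal (Filter.Eventually.of_forall fun x =>
        mul_nonneg (abs_nonneg _) (Real.cosh_pos _).le)] at this
      exact this
    refine lt_of_le_of_lt ?_ hfin
    simp_rw [e1, e1']
    rw [lintegral_tsum fun n => by fun_prop, lintegral_tsum fun n => by fun_prop]
    refine ENNReal.tsum_le_tsum fun n => ?_
    have p0 : ∀ x : ℝ, (0 : ℝ) ≤ (c * x) ^ (2 * n) := fun x => by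
      rw [pow_mul]; positivity
    have i1 : Integrable (fun x : ℝ => (c * x) ^ (2 * n) / ((2 * n).factorial : ℝ)) α := by
      have := ((hα (2 * n)).const_mul (c ^ (2 * n))).div_const ((2 * n).factorial : ℝ)
      refine this.congr (Filter.Eventually.of_forall fun x => ?_)
      simp only [mul_pow]
    have i2 : Integrable (fun x : ℝ => |f x| * ((c * x) ^ (2 * n) / ((2 * n).factorial : ℝ))) φ := by
      have := ((hI n).const_mul (c ^ (2 * n))).div_const ((2 * n).factorial : ℝ)
      refine this.congr (Filter.Eventually.of_forall fun x => ?_)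
      simp only [mul_pow]
      ring
    rw [← ofReal_integral_eq_lintegral_ofReal i1, ← ofReal_integral_eq_lintegral_ofReal i2]
    · apply ENNReal.ofReal_le_ofReal
      have f1 : ∫ x, (c * x) ^ (2 * n) / ((2 * n).factorial : ℝ) ∂α
          = c ^ (2 * n) / (2 * n).factorial * ∫ x, x ^ (2 * n) ∂α := by
        rw [← integral_const_mul]
        congr 1
        funext x
        rw [mul_pow]
        ring
      have f2 : ∫ x, |f x| * ((c * x) ^ (2 * n) / ((2 * n).factorial : ℝ)) ∂φ
          = c ^ (2 * n) / (2 * n).factorial * ∫ x, |f x| * x ^ (2 * n) ∂φ := by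
        rw [← integral_const_mul]
        congr 1
        funext x
        rw [mul_pow]
        ring
      rw [f1, f2]
      have := hd n
      gcongr
    · exact Filter.Eventually.of_forall fun x => mul_nonneg (abs_nonneg _) (div_nonneg (p0 x) (by positivity))
    · exact Filter.Eventually.of_forall fun x => div_nonneg (p0 x) (by positivity)
  have hint : Integrable (fun x => Real.cosh (c * x)) α := by
    refine ⟨by fun_prop, ?_⟩
    rw [hasFiniteIntegral_iff_ofReal (Filter.Eventually.of_forall fun x => (Real.cosh_pos _).le)]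
    exact hcosh
  refine (hint.const_mul 2).mono' (by fun_prop) (Filter.Eventually.of_forall fun x => ?_)
  rw [one_mul, Real.norm_eq_abs, abs_of_pos (Real.exp_pos _), Real.cosh_eq]
  rcases abs_cases x with ⟨h1, _⟩ | ⟨h1, _⟩
  · rw [h1]
    have := Real.exp_pos (-(c * x))
    linarith
  · rw [h1]
    have := Real.exp_pos (c * x)
    have e : c * -x = -(c * x) := by ring
    rw [e]
    linarith

/-- The system satisfied by the densities `v` of `ψ`, `T` of `τ φ` and `R` of `ρ φ = η`. -/
structure Sys (φ : Measure ℝ) (ρ τ ω δ : ℝ[X]) (R T v : ℝ → ℝ) : Prop where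
  fin : IsFiniteMeasure φ
  mom : Mom φ
  hv : ∀ x, v x = - ∫ s in Iic x, δ.eval s ∂φ
  hT : ∀ x, T x = (∫ s in Iic x, ω.eval s ∂φ) + ∫ s in Iic x, v s
  hR : ∀ x, R x = ∫ s in Iic x, T s
  iv : Integrable v
  iT : Integrable T
  iR : ∀ n : ℕ, Integrable fun x => x ^ n * R x
  aT : ∀ A, MeasurableSet A → ∫ s in A, τ.eval s ∂φ = ∫ s in A, T s
  aR : ∀ A, MeasurableSet A → ∫ s in A, ρ.eval s ∂φ = ∫ s in A, R s
  R0 : ∀ x, 0 ≤ R x
  neg : φ {x | ρ.eval x < 0} = 0
  dρ : ρ.natDegree ≤ 4
  dτ : τ.natDegree ≤ 3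
  dω : ω.natDegree ≤ 2
  dδ : δ.natDegree ≤ 1
  ρ0 : ρ ≠ 0
  tδ : ∫ s, δ.eval s ∂φ = 0

theorem prim_Iic {κ : Measure ℝ} {f : ℝ → ℝ} (hf : Integrable f κ) (x : ℝ) :
    prim κ f x = (∫ s in Iic x, f s ∂κ) - (if x < 0 then 0 else ∫ s, f s ∂κ) := by
  have e3 : ∫ s, f s ∂κ = (∫ s in Iic x, f s ∂κ) + ∫ s in Ioi x, f s ∂κ := by
    rw [← setIntegral_univ, ← Iic_union_Ioi (a := x),
      setIntegral_union (Iic_disjoint_Ioi le_rfl) measurableSet_Ioi
      hf.integrableOn hf.integrableOn]
  unfold prim
  split_ifs with h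
  · ring
  · rw [e3]; ring

theorem Sys.exists {φ ψ η : Measure ℝ} {ρ τ ω δ : ℝ[X]} (h : FE φ ψ η ρ τ ω δ) (hη : η ≠ 0)
    (hφ : φ ≠ 0) : ∃ R T v : ℝ → ℝ, Sys φ ρ τ ω δ R T v ∧ Continuous R ∧
      ∀ A, MeasurableSet A → ∫ _s in A, (1 : ℝ) ∂η = ∫ s in A, R s := by
  have fφ := h.mφ.finite
  have fψ := h.mψ.finite
  have fη := h.mη.finite
  have pos1 : ∀ {μ : Measure ℝ} [IsFiniteMeasure μ], μ ≠ 0 → J μ 1 ≠ 0 := by
    intro μ _ hμ h0
    unfold J at h0
    simp only [eval_one, integral_const, smul_eq_mul, mul_one] at h0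
    rw [measureReal_eq_zero_iff] at h0
    exact hμ (Measure.measure_univ_eq_zero.1 h0)
  have hρ : ρ ≠ 0 := by
    rintro rfl
    have := h.e1 1
    rw [zero_mul, J_zero] at this
    exact pos1 hη this
  -- exponential integrability
  obtain ⟨K₀, hC, hgr⟩ := h.growth hρ (pos1 hφ)
  have xφ : Exi φ fun _ => 1 := exi_of_growth h.mφ hC hgr
  have xp : ∀ {μ : Measure ℝ}, Exi μ (fun _ => 1) → ∀ q : ℝ[X], Exi μ fun x => q.eval x := by
    intro μ hμ q
    simpa using hμ.poly measurable_const q
  have mp : ∀ q : ℝ[X], Measurable fun x => q.eval x := fun q => q.continuous.measurable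
  have xη : Exi η fun _ => 1 := by
    refine exi_of_dom h.mη (fun x => ρ.eval x) (mp ρ) (xp xφ ρ) fun n => ?_
    have e := h.e1 (X ^ (2 * n))
    unfold J at e
    simp only [eval_pow, eval_X, eval_mul] at e
    rw [e]
    refine integral_mono ?_ ?_ fun x => ?_
    · exact (h.mφ.int (ρ * X ^ (2 * n))).congr (Filter.Eventually.of_forall fun x => by simp)
    · refine (h.mφ.int (ρ * X ^ (2 * n))).norm.congr (Filter.Eventually.of_forall fun x => ?_)
      simp only [eval_mul, eval_pow, eval_X, Real.norm_eq_abs, abs_mul, abs_pow, pow_mul, sq_abs]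
    · simp only
      have : (0 : ℝ) ≤ x ^ (2 * n) := by rw [pow_mul]; positivity
      exact mul_le_mul_of_nonneg_right (le_abs_self _) this
  have xψ : Exi ψ fun _ => 1 := by
    refine exi_of_dom h.mψ (fun x => (δ * X).eval x) (mp _) (xp xφ _) fun n => ?_
    have e := h.e4 (C (1 / ((2 * n : ℕ) + 1 : ℝ)) * X ^ (2 * n + 1))
    have e' : derivative (C (1 / ((2 * n : ℕ) + 1 : ℝ)) * X ^ (2 * n + 1)) = X ^ (2 * n) := by
      rw [derivative_C_mul_X_pow]
      have : (1 / ((2 * n : ℕ) + 1 : ℝ)) * ((2 * n + 1 : ℕ) : ℝ) = 1 := by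
        push_cast
        field_simp
      rw [this]
      simp
    rw [e'] at e
    unfold J at e
    simp only [eval_pow, eval_X, eval_mul, eval_C] at e
    rw [e]
    refine integral_mono ?_ ?_ fun x => ?_
    · exact (h.mφ.int (δ * (C (1 / ((2 * n : ℕ) + 1 : ℝ)) * X ^ (2 * n + 1)))).congr
        (Filter.Eventually.of_forall fun x => by simp)
    · refine (h.mφ.int (δ * X * X ^ (2 * n))).norm.congr (Filter.Eventually.of_forall fun x => ?_)
      simp only [eval_mul, eval_pow, eval_X, Real.norm_eq_abs, abs_mul, abs_pow, pow_mul, sq_abs]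
    · simp only [eval_mul, eval_X]
      have h0 : (0 : ℝ) ≤ x ^ (2 * n) := by rw [pow_mul]; positivity
      have h1 : (1 / ((2 * n : ℕ) + 1 : ℝ)) ≤ 1 := by
        rw [div_le_one (by positivity)]
        push_cast
        have : (0 : ℝ) ≤ n := Nat.cast_nonneg n
        linarith
      have h2 : (0 : ℝ) ≤ (1 / ((2 * n : ℕ) + 1 : ℝ)) := by positivity
      calc eval x δ * (1 / ((2 * n : ℕ) + 1 : ℝ) * x ^ (2 * n + 1))
          = (1 / ((2 * n : ℕ) + 1 : ℝ)) * ((eval x δ * x) * x ^ (2 * n)) := by ring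
        _ ≤ (1 / ((2 * n : ℕ) + 1 : ℝ)) * (|eval x δ * x| * x ^ (2 * n)) := by
          refine mul_le_mul_of_nonneg_left ?_ h2
          exact mul_le_mul_of_nonneg_right (le_abs_self _) h0
        _ ≤ 1 * (|eval x δ * x| * x ^ (2 * n)) := by
          refine mul_le_mul_of_nonneg_right h1 (by positivity)
        _ = _ := one_mul _
  -- the functions
  set v : ℝ → ℝ := fun x => (-1) * prim φ (fun s => δ.eval s) x with hv
  set T : ℝ → ℝ := fun x => prim φ (fun s => ω.eval s) x + prim ψ (fun _ => 1) x with hT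
  set R : ℝ → ℝ := prim volume T with hR
  have mv : Measurable v := (measurable_prim (mp δ)).const_mul _
  have mT : Measurable T := (measurable_prim (mp ω)).add (measurable_prim measurable_const)
  have mR : Measurable R := measurable_prim mT
  have xv : Exi volume v := (exi_prim (mp δ) (xp xφ δ)).const_mul _
  have xT : Exi volume T := Exi.add (measurable_prim (mp ω)) (measurable_prim measurable_const)
    (exi_prim (mp ω) (xp xφ ω)) (exi_prim measurable_const xψ)
  have xR : Exi volume R := exi_prim mT xT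
  -- moments
  have G : ∀ n : ℕ, derivative (C (1 / ((n : ℝ) + 1)) * X ^ (n + 1)) = (X ^ n : ℝ[X]) := by
    intro n
    rw [derivative_C_mul_X_pow]
    have : (1 / ((n : ℝ) + 1)) * ((n + 1 : ℕ) : ℝ) = 1 := by
      push_cast
      field_simp
    rw [this]
    simp
  have Jpow : ∀ (μ : Measure ℝ) (n : ℕ), J μ (X ^ n) = ∫ x, x ^ n ∂μ := by
    intro μ n
    simp [J]
  have JG : ∀ (μ : Measure ℝ) (q : ℝ[X]) (n : ℕ), J μ (q * (C (1 / ((n : ℝ) + 1)) * X ^ (n + 1)))
      = ∫ s, s ^ (n + 1) / (n + 1) * q.eval s ∂μ := by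
    intro μ q n
    unfold J
    congr 1
    funext s
    simp
    ring
  have mov : ∀ n : ℕ, ∫ x, x ^ n * v x = J ψ (X ^ n) := by
    intro n
    have e : ∫ x, x ^ n * v x = (-1) * ∫ x, x ^ n * prim φ (fun s => δ.eval s) x := by
      rw [← integral_const_mul]
      congr 1
      funext x
      simp only [hv]
      ring
    rw [e, mom_prim (mp δ) (xp xφ δ), ← JG φ δ n, ← h.e4, G]
    ring
  have moT : ∀ n : ℕ, ∫ x, x ^ n * T x = J φ (τ * X ^ n) := by
    intro n
    have i1 : Integrable fun x => x ^ n * prim φ (fun s => ω.eval s) x :=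
      ((exi_prim (mp ω) (xp xφ ω)).pow (measurable_prim (mp ω)) n).integrable
        ((measurable_id.pow_const n).mul (measurable_prim (mp ω)))
    have i2 : Integrable fun x => x ^ n * prim ψ (fun _ => 1) x :=
      ((exi_prim measurable_const xψ).pow (measurable_prim measurable_const) n).integrable
        ((measurable_id.pow_const n).mul (measurable_prim measurable_const))
    have e : ∫ x, x ^ n * T x = (∫ x, x ^ n * prim φ (fun s => ω.eval s) x)
        + ∫ x, x ^ n * prim ψ (fun _ => 1) x := by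
      rw [← integral_add i1 i2]
      congr 1
      funext x
      simp only [hT]
      ring
    rw [e, mom_prim (mp ω) (xp xφ ω), mom_prim measurable_const xψ, ← JG φ ω n]
    have e2 : ∫ s, s ^ (n + 1) / ((n : ℝ) + 1) * 1 ∂ψ
        = J ψ (C (1 / ((n : ℝ) + 1)) * X ^ (n + 1)) := by
      have := JG ψ 1 n
      simp only [one_mul, eval_one] at this
      rw [this]
    rw [e2, h.e3, G]
    have e5 := h.e2 (X ^ n)
    linarith
  have moR : ∀ n : ℕ, ∫ x, x ^ n * R x = J η (X ^ n) := by
    intro n
    rw [hR, mom_prim mT xT]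
    have e : ∫ s, s ^ (n + 1) / ((n : ℝ) + 1) * T s = (1 / ((n : ℝ) + 1)) * ∫ s, s ^ (n + 1) * T s := by
      rw [← integral_const_mul]
      congr 1
      funext s
      ring
    rw [e, moT, ← J_C_mul]
    have e2 := h.e2 (C (1 / ((n : ℝ) + 1)) * X ^ (n + 1))
    rw [G] at e2
    rw [e2]
    congr 2
    ring
  -- densities
  have aV : ∀ A, MeasurableSet A → ∫ _s in A, (1 : ℝ) ∂ψ = ∫ s in A, v s := by
    intro A hA
    refine moment_unique measurable_const mv xψ xv (fun n => ?_) A hA
    rw [mov n, Jpow]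
    simp
  have aT : ∀ A, MeasurableSet A → ∫ s in A, τ.eval s ∂φ = ∫ s in A, T s := by
    intro A hA
    refine moment_unique (mp τ) mT (xp xφ τ) xT (fun n => ?_) A hA
    rw [moT n]
    unfold J
    congr 1
    funext x
    simp
    ring
  have aη : ∀ A, MeasurableSet A → ∫ _s in A, (1 : ℝ) ∂η = ∫ s in A, R s := by
    intro A hA
    refine moment_unique measurable_const mR xη xR (fun n => ?_) A hA
    rw [moR n, Jpow]
    simp
  have aρ : ∀ A, MeasurableSet A → ∫ s in A, ρ.eval s ∂φ = ∫ _s in A, (1 : ℝ) ∂η := by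
    intro A hA
    refine moment_unique (mp ρ) measurable_const (xp xφ ρ) xη (fun n => ?_) A hA
    have e := h.e1 (X ^ n)
    rw [Jpow] at e
    simp only [mul_one]
    rw [e]
    unfold J
    congr 1
    funext x
    simp
    ring
  have iv : Integrable v := xv.integrable mv
  have iT : Integrable T := xT.integrable mT
  have tδ : ∫ s, δ.eval s ∂φ = 0 := by
    have := h.e4 1
    simpa [J] using this.symm
  have tω : (∫ s, ω.eval s ∂φ) + ∫ s, (1 : ℝ) ∂ψ = 0 := by
    have := h.e3 1
    simp only [derivative_one, mul_one, J_zero] at this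
    rw [map_zero, J_zero] at this
    unfold J at this
    simp only [eval_one] at this
    linarith
  have tT : ∫ s, T s = 0 := by
    have := aT univ MeasurableSet.univ
    simp only [Measure.restrict_univ] at this
    rw [← this]
    have := h.e2 1
    simp only [derivative_one, mul_one, J_zero] at this
    unfold J at this
    linarith
  have iδ : Integrable (fun s => δ.eval s) φ := h.mφ.int δ
  have iω : Integrable (fun s => ω.eval s) φ := h.mφ.int ω
  have i1 : Integrable (fun _ : ℝ => (1 : ℝ)) ψ := integrable_const _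
  have hR' : ∀ x, R x = ∫ s in Iic x, T s := by
    intro x
    rw [hR, prim_Iic iT, tT]
    simp
  have hRc : Continuous R := by
    have e : R = fun x => R 0 + ∫ s in (0 : ℝ)..x, T s := by
      funext x
      rw [hR' x, hR' 0, ← intervalIntegral.integral_Iic_sub_Iic iT.integrableOn iT.integrableOn]
      ring
    rw [e]
    exact continuous_const.add (intervalIntegral.continuous_primitive
      (fun a b => iT.intervalIntegrable) 0)
  have hRn : ∀ x, 0 ≤ R x := by
    have h1 : 0 ≤ᵐ[volume] R := by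
      refine ae_nonneg_of_forall_setIntegral_nonneg (xR.integrable mR) fun A hA _ => ?_
      rw [← aη A hA]
      exact integral_nonneg fun _ => zero_le_one
    have h2 : {x | R x < 0} = ∅ := by
      by_contra hne
      have hopen : IsOpen {x | R x < 0} := isOpen_lt hRc continuous_const
      have h3 := hopen.measure_pos volume (nonempty_iff_ne_empty.2 hne)
      have h4 : volume {x | R x < 0} = 0 := by
        refine measure_mono_null (fun x hx => ?_) h1
        simp only [Pi.zero_apply, mem_compl_iff, mem_setOf_eq, not_le]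
        exact hx
      exact h3.ne' h4
    intro x
    by_contra hx
    have : x ∈ {x | R x < 0} := not_le.1 hx
    rw [h2] at this
    exact this
  refine ⟨R, T, v, ⟨fφ, h.mφ, ?_, ?_, hR', iv, iT, ?_, aT, ?_, hRn, ?_, h.dρ, h.dτ, h.dω, h.dδ,
    hρ, tδ⟩, hRc, aη⟩
  · intro x
    simp only [hv]
    rw [prim_Iic iδ, tδ]
    simp
  · intro x
    rw [← aV _ measurableSet_Iic]
    simp only [hT]
    rw [prim_Iic iω, prim_Iic i1]
    split_ifs
    · ring
    · linarith
  · intro n
    exact (xR.pow mR n).integrable (by fun_prop)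
  · intro A hA
    rw [aρ A hA, aη A hA]
  · have hA : MeasurableSet {x : ℝ | ρ.eval x < 0} := measurableSet_lt (mp ρ) measurable_const
    have e := aρ _ hA
    have e1 : 0 ≤ ∫ _s in {x : ℝ | ρ.eval x < 0}, (1 : ℝ) ∂η := integral_nonneg fun _ => zero_le_one
    have e2 : ∫ s in {x : ℝ | ρ.eval x < 0}, - ρ.eval s ∂φ = 0 := by
      rw [integral_neg]
      have e3 : ∫ s in {x : ℝ | ρ.eval x < 0}, ρ.eval s ∂φ ≤ 0 :=
        setIntegral_nonpos hA fun x hx => le_of_lt hx
      linarith
    have e4 : 0 ≤ᵐ[φ.restrict {x : ℝ | ρ.eval x < 0}] fun s => - ρ.eval s := by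
      refine (ae_restrict_iff' hA).2 (Filter.Eventually.of_forall fun x hx => ?_)
      have : ρ.eval x < 0 := hx
      simp only [Pi.zero_apply]
      linarith
    rw [integral_eq_zero_iff_of_nonneg_ae e4 (h.mφ.int ρ).neg.integrableOn] at e2
    have e5 : ∀ᵐ x ∂(φ.restrict {x : ℝ | ρ.eval x < 0}), False := by
      filter_upwards [e2, ae_restrict_mem hA] with x h1 h2
      have : ρ.eval x < 0 := h2
      simp only [Pi.zero_apply] at h1
      linarith
    have e6 := ae_iff.1 e5
    simp only [not_false_eq_true, setOf_true, Measure.restrict_apply_univ] at e6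
    exact e6

end Pool.Agent.U592.KR
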